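import Mathlib

/-!
# Closed topological disks: gluing a convex set to a disk
-/

set_option autoImplicit false

namespace Pool.Agent.R175.Disk

open Set Pointwise

/-- A closed topological disk in the plane. -/
def IsDisk (C : Set ℂ) : Prop := IsClosed C ∧ Nonempty (C ≃ₜ Metric.closedBall (0 : ℂ) 1)

/-- The radial homeomorphism between two nested convex sets. -/
theorem rescale {R C : Set ℂ} (hR : Convex ℝ R) (hRc : IsCompact R) (hC : Convex ℝ C) (hCc : IsCompact C)
    {p : ℂ} (hp : p ∈ interior C) (hsub : C ⊆ R) :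
    ∃ ρ : ℂ ≃ₜ ℂ, ρ '' R = C ∧ ∀ z ∈ frontier R, z ∈ frontier C → ρ z = z := by
  have hs₀ : ((fun z => -p + z) '' R) ∈ nhds (0 : ℂ) := by
    rw [← mem_interior_iff_mem_nhds]
    have h1 : interior ((fun z => -p + z) '' R) = (fun z => -p + z) '' interior R :=
      ((Homeomorph.addLeft (-p)).image_interior R).symm
    rw [h1]
    exact ⟨p, interior_mono hsub hp, by simp⟩
  have ht₀ : ((fun z => -p + z) '' C) ∈ nhds (0 : ℂ) := by
    rw [← mem_interior_iff_mem_nhds]
    have h1 : interior ((fun z => -p + z) '' C) = (fun z => -p + z) '' interior C :=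
      ((Homeomorph.addLeft (-p)).image_interior C).symm
    rw [h1]
    exact ⟨p, hp, by simp⟩
  have hsc : Convex ℝ ((fun z => -p + z) '' R) := hR.translate (-p)
  have htc : Convex ℝ ((fun z => -p + z) '' C) := hC.translate (-p)
  have hsk : IsCompact ((fun z => -p + z) '' R) := hRc.image (by fun_prop)
  have htk : IsCompact ((fun z => -p + z) '' C) := hCc.image (by fun_prop)
  have hsb := NormedSpace.isVonNBounded_of_isBounded ℝ hsk.isBounded
  have htb := NormedSpace.isVonNBounded_of_isBounded ℝ htk.isBounded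
  let h := gaugeRescaleHomeomorph _ _ hsc hs₀ hsb htc ht₀ htb
  refine ⟨((Homeomorph.addLeft (-p)).trans h).trans (Homeomorph.addLeft p), ?_, ?_⟩
  · have h1 := image_gaugeRescaleHomeomorph_closure hsc hs₀ hsb htc ht₀ htb
    rw [hsk.isClosed.closure_eq, htk.isClosed.closure_eq] at h1
    have h2 : (((Homeomorph.addLeft (-p)).trans h).trans (Homeomorph.addLeft p)) '' R =
        (fun z => p + z) '' (h '' ((fun z => -p + z) '' R)) := by
      rw [image_image, image_image]; rfl
    rw [h2]
    change (fun z => p + z) '' (gaugeRescaleHomeomorph _ _ hsc hs₀ hsb htc ht₀ htb ''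
      ((fun z => -p + z) '' R)) = C
    rw [h1, image_image]
    simp
  · intro z hz1 hz2
    change p + gaugeRescale _ _ (-p + z) = z
    have f1 : gauge ((fun z => -p + z) '' R) (-p + z) = 1 := by
      rw [gauge_eq_one_iff_mem_frontier hsc hs₀]
      have h1 : frontier ((fun z => -p + z) '' R) = (fun z => -p + z) '' frontier R :=
        ((Homeomorph.addLeft (-p)).image_frontier R).symm
      rw [h1]; exact ⟨z, hz1, rfl⟩
    have f2 : gauge ((fun z => -p + z) '' C) (-p + z) = 1 := by
      rw [gauge_eq_one_iff_mem_frontier htc ht₀]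
      have h1 : frontier ((fun z => -p + z) '' C) = (fun z => -p + z) '' frontier C :=
        ((Homeomorph.addLeft (-p)).image_frontier C).symm
      rw [h1]; exact ⟨z, hz2, rfl⟩
    rw [gaugeRescale_def, f1, f2, div_one, one_smul]
    ring

/-- Replacing a convex part `C` of a disk `W ∪ C` by a larger convex set `R` that meets `W` only in the common
frontier of `R` and `C`. -/
theorem glue {W R C : Set ℂ} (hW : IsClosed W) (hR : Convex ℝ R) (hRc : IsCompact R) (hC : Convex ℝ C)
    (hCc : IsCompact C) {p : ℂ} (hp : p ∈ interior C) (hsub : C ⊆ R)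
    (hWR : ∀ z ∈ W, z ∈ R → z ∈ frontier R ∧ z ∈ frontier C) (hd : IsDisk (W ∪ C)) : IsDisk (W ∪ R) := by
  classical
  obtain ⟨ρ, hρ, hfix⟩ := rescale hR hRc hC hCc hp hsub
  obtain ⟨-, ⟨e⟩⟩ := hd
  have hcomp : IsCompact (W ∪ C) := by
    have : CompactSpace (W ∪ C : Set ℂ) := e.symm.compactSpace
    exact isCompact_iff_compactSpace.2 this
  have hWc : IsCompact W := hcomp.of_isClosed_subset hW subset_union_left
  have hWRc : IsCompact (W ∪ R) := hWc.union hRc
  let f : ℂ → ℂ := fun z => if z ∈ R then ρ z else z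
  have fR : ∀ z ∈ R, f z = ρ z := fun z hz => if_pos hz
  have fW : ∀ z ∈ W, f z = z := by
    intro z hz
    by_cases h : z ∈ R
    · obtain ⟨h1, h2⟩ := hWR z hz h
      rw [fR z h, hfix z h1 h2]
    · exact if_neg h
  have hcont : ContinuousOn f (W ∪ R) := by
    apply ContinuousOn.union_of_isClosed
    · exact continuousOn_id.congr fW
    · exact ρ.continuous.continuousOn.congr fR
    · exact hW
    · exact hRc.isClosed
  have hCR : ∀ z ∈ C, z ∈ W → ρ z = z := by
    intro z hz hzW
    obtain ⟨h1, h2⟩ := hWR z hzW (hsub hz)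
    exact hfix z h1 h2
  have hmaps : ∀ z ∈ W ∪ R, f z ∈ W ∪ C := by
    rintro z (hz | hz)
    · rw [fW z hz]; exact Or.inl hz
    · rw [fR z hz, ← hρ]; exact Or.inr ⟨z, hz, rfl⟩
  have hinj : ∀ z ∈ W ∪ R, ∀ w ∈ W ∪ R, f z = f w → z = w := by
    have key : ∀ z ∈ W, ∀ w ∈ R, f z = f w → z = w := by
      intro z hz w hw h
      rw [fW z hz, fR w hw] at h
      have hzC : z ∈ C := by rw [h, ← hρ]; exact ⟨w, hw, rfl⟩
      have h2 := hCR z hzC hz
      exact ρ.injective (h2.trans h)
    rintro z (hz | hz) w (hw | hw) h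
    · rwa [fW z hz, fW w hw] at h
    · exact key z hz w hw h
    · exact (key w hw z hz h.symm).symm
    · rw [fR z hz, fR w hw] at h
      exact ρ.injective h
  have hsurj : ∀ w ∈ W ∪ C, ∃ z ∈ W ∪ R, f z = w := by
    rintro w (hw | hw)
    · exact ⟨w, Or.inl hw, fW w hw⟩
    · rw [← hρ] at hw
      obtain ⟨z, hz, rfl⟩ := hw
      exact ⟨z, Or.inr hz, fR z hz⟩
  refine ⟨hWRc.isClosed, ?_⟩
  have : CompactSpace (W ∪ R : Set ℂ) := isCompact_iff_compactSpace.1 hWRc
  let F : (W ∪ R : Set ℂ) → (W ∪ C : Set ℂ) := fun z => ⟨f z, hmaps z z.2⟩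
  have hF : Function.Bijective F := by
    constructor
    · intro z w h
      exact Subtype.ext (hinj z z.2 w w.2 (congrArg Subtype.val h))
    · intro w
      obtain ⟨z, hz, hw⟩ := hsurj w w.2
      exact ⟨⟨z, hz⟩, Subtype.ext hw⟩
  have hFc : Continuous F := Continuous.subtype_mk (continuousOn_iff_continuous_restrict.1 hcont) _
  exact ⟨(Continuous.homeoOfEquivCompactToT2 (f := Equiv.ofBijective F hF) hFc).trans e⟩

/-- A compact convex set with an interior point is a disk. -/
theorem disk_of_convex {C : Set ℂ} (hC : Convex ℝ C) (hCc : IsCompact C) (hne : (interior C).Nonempty) :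
    IsDisk C := by
  refine ⟨hCc.isClosed, ?_⟩
  obtain ⟨h, -, h2, -⟩ := exists_homeomorph_image_interior_closure_frontier_eq_unitBall hC hne hCc.isBounded
  rw [hCc.isClosed.closure_eq] at h2
  exact ⟨(h.image _).trans (Homeomorph.setCongr h2)⟩

theorem IsDisk.compact {C : Set ℂ} (h : IsDisk C) : IsCompact C := by
  obtain ⟨-, ⟨e⟩⟩ := h
  have : CompactSpace C := e.symm.compactSpace
  exact isCompact_iff_compactSpace.2 this

/-- The closed unit disk minus a finite set is connected. -/
theorem ball_diff_finite {F : Set ℂ} (hF : F.Finite) : IsPreconnected (Metric.closedBall (0 : ℂ) 1 \ F) := by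
  have h1 : IsPreconnected (Metric.ball (0 : ℂ) 1 \ F) := by
    have hrank : 1 < Module.rank ℝ ℂ := by
      rw [Complex.rank_real_complex]; norm_num
    have hc : ((fun z : ℂ => ((Homeomorph.unitBall z : Metric.ball (0 : ℂ) 1) : ℂ)) ⁻¹' F).Countable := by
      apply Set.Finite.countable
      apply hF.preimage
      intro z _ w _ h
      exact Homeomorph.unitBall.injective (Subtype.ext h)
    have h2 := (hc.isConnected_compl_of_one_lt_rank hrank).isPreconnected
    have h3 := h2.image (fun z : ℂ => ((Homeomorph.unitBall z : Metric.ball (0 : ℂ) 1) : ℂ))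
      (by
        apply Continuous.continuousOn
        exact continuous_subtype_val.comp Homeomorph.unitBall.continuous)
    convert h3 using 1
    ext w
    constructor
    · rintro ⟨hw, hwF⟩
      refine ⟨Homeomorph.unitBall.symm ⟨w, hw⟩, ?_, ?_⟩
      · change ((Homeomorph.unitBall (Homeomorph.unitBall.symm ⟨w, hw⟩) : Metric.ball (0 : ℂ) 1) : ℂ) ∉ F
        rw [Homeomorph.apply_symm_apply]; exact hwF
      · dsimp only
        rw [Homeomorph.apply_symm_apply]
    · rintro ⟨z, hz, rfl⟩
      exact ⟨(Homeomorph.unitBall z).2, hz⟩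
  apply h1.subset_closure
  · exact diff_subset_diff_left Metric.ball_subset_closedBall
  · rintro z ⟨hz, hzF⟩
    have hc : z ∈ closure (Metric.ball (0 : ℂ) 1) := by
      rw [closure_ball _ one_ne_zero]; exact hz
    have := (hF.isClosed.isOpen_compl).inter_closure (t := Metric.ball (0 : ℂ) 1) ⟨hzF, hc⟩
    have e : Fᶜ ∩ Metric.ball (0 : ℂ) 1 = Metric.ball (0 : ℂ) 1 \ F := by
      ext w; simp [and_comm]
    rwa [e] at this

/-- A disk minus a finite set is connected. -/
theorem IsDisk.diff_finite {C F : Set ℂ} (h : IsDisk C) (hF : F.Finite) : IsPreconnected (C \ F) := by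
  obtain ⟨-, ⟨e⟩⟩ := h
  -- the inverse of the homeomorphism, as a map on the ball
  have hF' : ((fun z : Metric.closedBall (0 : ℂ) 1 => (z : ℂ)) '' {z | ((e.symm z : C) : ℂ) ∈ F}).Finite := by
    apply Set.Finite.image
    have : {z : Metric.closedBall (0 : ℂ) 1 | ((e.symm z : C) : ℂ) ∈ F} =
        (fun z => ((e.symm z : C) : ℂ)) ⁻¹' F := rfl
    rw [this]
    apply hF.preimage
    intro z _ w _ h
    exact e.symm.injective (Subtype.ext h)
  have h1 := ball_diff_finite hF'
  have h2 : IsPreconnected (Subtype.val ⁻¹' (Metric.closedBall (0 : ℂ) 1 \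
      ((fun z : Metric.closedBall (0 : ℂ) 1 => (z : ℂ)) '' {z | ((e.symm z : C) : ℂ) ∈ F})) :
      Set (Metric.closedBall (0 : ℂ) 1)) := by
    rw [← Topology.IsInducing.subtypeVal.isPreconnected_image]
    rw [Subtype.image_preimage_coe]
    convert h1 using 1
    ext w; simp
  have h3 := h2.image (fun z => ((e.symm z : C) : ℂ))
    (continuous_subtype_val.comp e.symm.continuous).continuousOn
  convert h3 using 1
  ext w
  constructor
  · rintro ⟨hw, hwF⟩
    refine ⟨e ⟨w, hw⟩, ?_, by simp⟩
    refine ⟨(e ⟨w, hw⟩).2, ?_⟩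
    rintro ⟨z, hz, hze⟩
    have : z = e ⟨w, hw⟩ := Subtype.ext hze
    rw [this] at hz
    change ((e.symm (e ⟨w, hw⟩) : C) : ℂ) ∈ F at hz
    rw [Homeomorph.symm_apply_apply] at hz
    exact hwF hz
  · rintro ⟨z, hz, rfl⟩
    refine ⟨(e.symm z).2, ?_⟩
    intro hzF
    exact hz.2 ⟨z, hzF, rfl⟩

end Pool.Agent.R175.Disk
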