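import Mathlib

/-!
# Simple lattice paths are properly embedded unbounded curves
-/

set_option autoImplicit false

namespace Pool.Agent.R175.GridPath

open Set

/-- A lattice point as a complex number. -/
def pt (p : ℤ × ℤ) : ℂ := ⟨p.1, p.2⟩

/-- Adjacency of lattice points. -/
def Adj (p q : ℤ × ℤ) : Prop :=
  (p.1 = q.1 ∧ (q.2 = p.2 + 1 ∨ p.2 = q.2 + 1)) ∨ (p.2 = q.2 ∧ (q.1 = p.1 + 1 ∨ p.1 = q.1 + 1))

theorem same_dir {a c : ℤ} {s t : ℝ} (hs0 : 0 ≤ s) (hs1 : s < 1) (ht0 : 0 ≤ t) (ht1 : t < 1)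
    (h : (a : ℝ) + s = c + t) : a = c ∧ s = t := by
  have h1 : (a : ℝ) < c + 1 := by linarith
  have h2 : (c : ℝ) < a + 1 := by linarith
  have h3 : a < c + 1 := by exact_mod_cast h1
  have h4 : c < a + 1 := by exact_mod_cast h2
  have : a = c := by omega
  subst this
  exact ⟨rfl, by linarith⟩

theorem opp_dir {a c : ℤ} {s t : ℝ} (hs0 : 0 ≤ s) (hs1 : s < 1) (ht0 : 0 ≤ t) (ht1 : t < 1)
    (h : (a : ℝ) + s = c - t) : (a = c ∧ s = t) ∨ (c = a + 1) := by
  have h1 : (c : ℝ) < a + 2 := by linarith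
  have h2 : (a : ℝ) ≤ c := by linarith
  have h3 : c < a + 2 := by exact_mod_cast h1
  have h4 : a ≤ c := by exact_mod_cast h2
  rcases (by omega : a = c ∨ c = a + 1) with h5 | h5
  · subst h5
    left
    exact ⟨rfl, by linarith⟩
  · right; exact h5

/-- Two lattice edges that meet. -/
theorem edge_inter {p p' q q' : ℤ × ℤ} (h1 : Adj p p') (h2 : Adj q q') {s t : ℝ} (hs0 : 0 ≤ s) (hs1 : s < 1)
    (ht0 : 0 ≤ t) (ht1 : t < 1) (h : pt p + s • (pt p' - pt p) = pt q + t • (pt q' - pt q)) :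
    (p = q ∧ s = t) ∨ (p = q' ∧ p' = q) := by
  obtain ⟨a, b⟩ := p
  obtain ⟨a', b'⟩ := p'
  obtain ⟨c, d⟩ := q
  obtain ⟨c', d'⟩ := q'
  have e1 := congrArg Complex.re h
  have e2 := congrArg Complex.im h
  simp [pt] at e1 e2
  simp only [Adj] at h1 h2
  simp only [Prod.mk.injEq]
  rcases h1 with ⟨g1, g2 | g2⟩ | ⟨g1, g2 | g2⟩ <;> rcases h2 with ⟨k1, k2 | k2⟩ | ⟨k1, k2 | k2⟩
  · subst g1 k1 g2 k2
    push_cast at e1 e2
    have := same_dir hs0 hs1 ht0 ht1 (by linarith : (b : ℝ) + s = d + t)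
    left
    exact ⟨⟨by exact_mod_cast (by linarith : (a : ℝ) = c), this.1⟩, this.2⟩
  · subst g1 k1 g2 k2
    push_cast at e1 e2
    have hac : a = c := by exact_mod_cast (by linarith : (a : ℝ) = c)
    rcases opp_dir hs0 hs1 ht0 ht1 (by push_cast; linarith : (b : ℝ) + s = ((d' + 1 : ℤ) : ℝ) - t) with h | h
    · left; exact ⟨⟨hac, h.1⟩, h.2⟩
    · right; exact ⟨⟨hac, by omega⟩, hac, by omega⟩
  · subst g1 k1 g2 k2
    push_cast at e1 e2
    have h3 := same_dir hs0 hs1 le_rfl one_pos (by linarith : (b : ℝ) + s = d + 0)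
    have h4 := same_dir le_rfl one_pos ht0 ht1 (by linarith : (a : ℝ) + 0 = c + t)
    left; exact ⟨⟨h4.1, h3.1⟩, by linarith [h3.2, h4.2]⟩
  · subst g1 k1 g2 k2
    push_cast at e1 e2
    have h3 := same_dir hs0 hs1 le_rfl one_pos (by linarith : (b : ℝ) + s = d + 0)
    have h4 := same_dir ht0 ht1 le_rfl one_pos (by push_cast; linarith : ((-(c' + 1) : ℤ) : ℝ) + t = ((-a : ℤ) : ℝ) + 0)
    left; exact ⟨⟨by have := h4.1; omega, h3.1⟩, by linarith [h3.2, h4.2]⟩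
  · subst g1 k1 g2 k2
    push_cast at e1 e2
    have hac : a = c := by exact_mod_cast (by linarith : (a : ℝ) = c)
    rcases opp_dir ht0 ht1 hs0 hs1 (by push_cast; linarith : (d : ℝ) + t = ((b' + 1 : ℤ) : ℝ) - s) with h | h
    · left; exact ⟨⟨hac, h.1.symm⟩, h.2.symm⟩
    · right; exact ⟨⟨hac, by omega⟩, hac, by omega⟩
  · subst g1 k1 g2 k2
    push_cast at e1 e2
    have hac : a = c := by exact_mod_cast (by linarith : (a : ℝ) = c)
    have := same_dir hs0 hs1 ht0 ht1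
      (by push_cast; linarith : ((-(b' + 1) : ℤ) : ℝ) + s = ((-(d' + 1) : ℤ) : ℝ) + t)
    left
    exact ⟨⟨hac, by have := this.1; omega⟩, this.2⟩
  · subst g1 k1 g2 k2
    push_cast at e1 e2
    have h3 := same_dir hs0 hs1 le_rfl one_pos (by push_cast; linarith : ((-(b' + 1) : ℤ) : ℝ) + s = ((-d : ℤ) : ℝ) + 0)
    have h4 := same_dir le_rfl one_pos ht0 ht1 (by linarith : (a : ℝ) + 0 = c + t)
    left; exact ⟨⟨h4.1, by have := h3.1; omega⟩, by linarith [h3.2, h4.2]⟩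
  · subst g1 k1 g2 k2
    push_cast at e1 e2
    have h3 := same_dir hs0 hs1 le_rfl one_pos (by push_cast; linarith : ((-(b' + 1) : ℤ) : ℝ) + s = ((-d : ℤ) : ℝ) + 0)
    have h4 := same_dir ht0 ht1 le_rfl one_pos (by push_cast; linarith : ((-(c' + 1) : ℤ) : ℝ) + t = ((-a : ℤ) : ℝ) + 0)
    left; exact ⟨⟨by have := h4.1; omega, by have := h3.1; omega⟩, by linarith [h3.2, h4.2]⟩
  · subst g1 k1 g2 k2
    push_cast at e1 e2
    have h3 := same_dir hs0 hs1 le_rfl one_pos (by linarith : (a : ℝ) + s = c + 0)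
    have h4 := same_dir le_rfl one_pos ht0 ht1 (by linarith : (b : ℝ) + 0 = d + t)
    left; exact ⟨⟨h3.1, h4.1⟩, by linarith [h3.2, h4.2]⟩
  · subst g1 k1 g2 k2
    push_cast at e1 e2
    have h3 := same_dir hs0 hs1 le_rfl one_pos (by linarith : (a : ℝ) + s = c + 0)
    have h4 := same_dir ht0 ht1 le_rfl one_pos (by push_cast; linarith : ((-(d' + 1) : ℤ) : ℝ) + t = ((-b : ℤ) : ℝ) + 0)
    left; exact ⟨⟨h3.1, by have := h4.1; omega⟩, by linarith [h3.2, h4.2]⟩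
  · subst g1 k1 g2 k2
    push_cast at e1 e2
    have hbd : b = d := by exact_mod_cast (by linarith : (b : ℝ) = d)
    have := same_dir hs0 hs1 ht0 ht1 (by linarith : (a : ℝ) + s = c + t)
    left
    exact ⟨⟨this.1, hbd⟩, this.2⟩
  · subst g1 k1 g2 k2
    push_cast at e1 e2
    have hbd : b = d := by exact_mod_cast (by linarith : (b : ℝ) = d)
    rcases opp_dir hs0 hs1 ht0 ht1 (by push_cast; linarith : (a : ℝ) + s = ((c' + 1 : ℤ) : ℝ) - t) with h | h
    · left; exact ⟨⟨h.1, hbd⟩, h.2⟩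
    · right; exact ⟨⟨by omega, hbd⟩, by omega, hbd⟩
  · subst g1 k1 g2 k2
    push_cast at e1 e2
    have h3 := same_dir hs0 hs1 le_rfl one_pos (by push_cast; linarith : ((-(a' + 1) : ℤ) : ℝ) + s = ((-c : ℤ) : ℝ) + 0)
    have h4 := same_dir le_rfl one_pos ht0 ht1 (by linarith : (b : ℝ) + 0 = d + t)
    left; exact ⟨⟨by have := h3.1; omega, h4.1⟩, by linarith [h3.2, h4.2]⟩
  · subst g1 k1 g2 k2
    push_cast at e1 e2
    have h3 := same_dir hs0 hs1 le_rfl one_pos (by push_cast; linarith : ((-(a' + 1) : ℤ) : ℝ) + s = ((-c : ℤ) : ℝ) + 0)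
    have h4 := same_dir ht0 ht1 le_rfl one_pos (by push_cast; linarith : ((-(d' + 1) : ℤ) : ℝ) + t = ((-b : ℤ) : ℝ) + 0)
    left; exact ⟨⟨by have := h3.1; omega, by have := h4.1; omega⟩, by linarith [h3.2, h4.2]⟩
  · subst g1 k1 g2 k2
    push_cast at e1 e2
    have hbd : b = d := by exact_mod_cast (by linarith : (b : ℝ) = d)
    rcases opp_dir ht0 ht1 hs0 hs1 (by push_cast; linarith : (c : ℝ) + t = ((a' + 1 : ℤ) : ℝ) - s) with h | h
    · left; exact ⟨⟨h.1.symm, hbd⟩, h.2.symm⟩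
    · right; exact ⟨⟨by omega, hbd⟩, by omega, hbd⟩
  · subst g1 k1 g2 k2
    push_cast at e1 e2
    have hbd : b = d := by exact_mod_cast (by linarith : (b : ℝ) = d)
    have := same_dir hs0 hs1 ht0 ht1
      (by push_cast; linarith : ((-(a' + 1) : ℤ) : ℝ) + s = ((-(c' + 1) : ℤ) : ℝ) + t)
    left
    exact ⟨⟨by have := this.1; omega, hbd⟩, this.2⟩

/-- The clamp of a real number to `[0, 1]`. -/
noncomputable def cl (x : ℝ) : ℝ := max 0 (min 1 x)

theorem cl_cont : Continuous cl := by unfold cl; fun_prop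
theorem cl_zero {x : ℝ} (h : x ≤ 0) : cl x = 0 := by
  unfold cl
  rw [max_eq_left]
  exact (min_le_right _ _).trans h
theorem cl_one {x : ℝ} (h : 1 ≤ x) : cl x = 1 := by
  unfold cl
  rw [min_eq_left h, max_eq_right zero_le_one]
theorem cl_id {x : ℝ} (h0 : 0 ≤ x) (h1 : x ≤ 1) : cl x = x := by
  unfold cl
  rw [min_eq_right h1, max_eq_right h0]

/-- The finite approximations of the curve. -/
noncomputable def gN (v : ℕ → ℤ × ℤ) (N : ℕ) (t : ℝ) : ℂ :=
  pt (v 0) + ∑ j ∈ Finset.range N, cl (t - j) • (pt (v (j + 1)) - pt (v j))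

theorem gN_cont (v : ℕ → ℤ × ℤ) (N : ℕ) : Continuous (gN v N) := by
  unfold gN
  apply continuous_const.add
  apply continuous_finsetSum
  intro j _
  exact (cl_cont.comp (by fun_prop)).smul continuous_const

theorem gN_eq (v : ℕ → ℤ × ℤ) {n N : ℕ} {t : ℝ} (hn : (n : ℝ) ≤ t) (hn1 : t ≤ n + 1) (hN : n + 1 ≤ N) :
    gN v N t = pt (v n) + (t - n) • (pt (v (n + 1)) - pt (v n)) := by
  obtain ⟨k, rfl⟩ := Nat.exists_eq_add_of_le hN
  have h2 : ∀ k : ℕ, gN v (n + 1 + k) t = gN v (n + 1) t := by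
    intro k
    induction k with
    | zero => rfl
    | succ k ih =>
      rw [← ih]
      unfold gN
      rw [show n + 1 + (k + 1) = (n + 1 + k) + 1 by ring, Finset.sum_range_succ, cl_zero, zero_smul, add_zero]
      push_cast
      linarith [(Nat.cast_nonneg k : (0 : ℝ) ≤ k)]
  rw [h2]
  unfold gN
  rw [Finset.sum_range_succ, cl_id (by linarith) (by linarith)]
  have h3 : ∑ j ∈ Finset.range n, cl (t - j) • (pt (v (j + 1)) - pt (v j)) = pt (v n) - pt (v 0) := by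
    rw [← Finset.sum_range_sub (fun j => pt (v j))]
    apply Finset.sum_congr rfl
    intro j hj
    rw [Finset.mem_range] at hj
    rw [cl_one, one_smul]
    have : ((j + 1 : ℕ) : ℝ) ≤ n := by exact_mod_cast hj
    push_cast at this
    linarith
  rw [h3]
  ring

/-- The polygonal curve. -/
noncomputable def gam (v : ℕ → ℤ × ℤ) (t : NNReal) : ℂ :=
  pt (v ⌊t⌋₊) + ((t : ℝ) - ⌊t⌋₊) • (pt (v (⌊t⌋₊ + 1)) - pt (v ⌊t⌋₊))

theorem fl_le (t : NNReal) : ((⌊t⌋₊ : ℕ) : ℝ) ≤ t := by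
  have := Nat.floor_le (show (0 : NNReal) ≤ t from t.2)
  exact_mod_cast this

theorem fl_lt (t : NNReal) : (t : ℝ) < (⌊t⌋₊ : ℕ) + 1 := by
  have := Nat.lt_floor_add_one t
  exact_mod_cast this

theorem gam_eq_gN (v : ℕ → ℤ × ℤ) {N : ℕ} {t : NNReal} (h : (t : ℝ) < N) : gam v t = gN v N t := by
  rw [gN_eq v (fl_le t) (fl_lt t).le]
  · rfl
  · have h2 : ((⌊t⌋₊ : ℕ) : ℝ) < N := (fl_le t).trans_lt h
    have h3 : ⌊t⌋₊ < N := by exact_mod_cast h2
    exact h3

theorem gam_cont (v : ℕ → ℤ × ℤ) : Continuous (gam v) := by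
  rw [continuous_iff_continuousAt]
  intro t
  have h : ∀ᶠ s in nhds t, gam v s = gN v (⌊t⌋₊ + 1) s := by
    have ho : IsOpen {s : NNReal | (s : ℝ) < ((⌊t⌋₊ + 1 : ℕ) : ℝ)} :=
      isOpen_lt NNReal.continuous_coe continuous_const
    filter_upwards [ho.mem_nhds (by
      change (t : ℝ) < ((⌊t⌋₊ + 1 : ℕ) : ℝ)
      push_cast
      exact fl_lt t)] with s hs
    exact gam_eq_gN v hs
  rw [continuousAt_congr h]
  exact ((gN_cont v _).comp NNReal.continuous_coe).continuousAt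

theorem gam_inj (v : ℕ → ℤ × ℤ) (hinj : Function.Injective v) (hadj : ∀ n, Adj (v n) (v (n + 1))) :
    Function.Injective (gam v) := by
  intro s t h
  rcases edge_inter (hadj _) (hadj _) (by linarith [fl_le s]) (by linarith [fl_lt s]) (by linarith [fl_le t])
    (by linarith [fl_lt t]) h with ⟨h1, h2⟩ | ⟨h1, h2⟩
  · have h3 : ⌊s⌋₊ = ⌊t⌋₊ := hinj h1
    rw [h3] at h2
    have h4 : (s : ℝ) = t := by linarith
    exact_mod_cast h4
  · have h3 := hinj h1
    have h4 := hinj h2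
    omega

theorem finite_ball (R : ℝ) : {p : ℤ × ℤ | ‖pt p‖ ≤ R}.Finite := by
  apply (Set.finite_Icc ((-⌈R⌉, -⌈R⌉) : ℤ × ℤ) (⌈R⌉, ⌈R⌉)).subset
  rintro ⟨a, b⟩ h
  have h1 : |(a : ℝ)| ≤ R := (Complex.abs_re_le_norm (pt (a, b))).trans h
  have h2 : |(b : ℝ)| ≤ R := (Complex.abs_im_le_norm (pt (a, b))).trans h
  rw [abs_le] at h1 h2
  have h3 := Int.le_ceil R
  have k1 : a ≤ ⌈R⌉ := by exact_mod_cast h1.2.trans h3
  have k2 : -⌈R⌉ ≤ a := by
    have : -(⌈R⌉ : ℝ) ≤ a := by linarith [h1.1]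
    exact_mod_cast this
  have k3 : b ≤ ⌈R⌉ := by exact_mod_cast h2.2.trans h3
  have k4 : -⌈R⌉ ≤ b := by
    have : -(⌈R⌉ : ℝ) ≤ b := by linarith [h2.1]
    exact_mod_cast this
  exact ⟨⟨k2, k4⟩, k1, k3⟩

theorem adj_norm {p q : ℤ × ℤ} (h : Adj p q) : ‖pt q - pt p‖ = 1 := by
  obtain ⟨a, b⟩ := p
  obtain ⟨c, d⟩ := q
  simp only [Adj] at h
  rcases h with ⟨h1, h2 | h2⟩ | ⟨h1, h2 | h2⟩
  · have : pt (c, d) - pt (a, b) = Complex.I := by
      apply Complex.ext <;> simp [pt, h1, h2]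
    rw [this]; simp
  · have : pt (c, d) - pt (a, b) = -Complex.I := by
      apply Complex.ext <;> simp [pt, h1, h2]
    rw [this]; simp
  · have : pt (c, d) - pt (a, b) = 1 := by
      apply Complex.ext <;> simp [pt, h1, h2]
    rw [this]; simp
  · have : pt (c, d) - pt (a, b) = -1 := by
      apply Complex.ext <;> simp [pt, h1, h2]
    rw [this]; simp

theorem gam_dist (v : ℕ → ℤ × ℤ) (hadj : ∀ n, Adj (v n) (v (n + 1))) (t : NNReal) :
    ‖pt (v ⌊t⌋₊)‖ ≤ ‖gam v t‖ + 1 := by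
  have h1 : pt (v ⌊t⌋₊) = gam v t - ((t : ℝ) - ⌊t⌋₊) • (pt (v (⌊t⌋₊ + 1)) - pt (v ⌊t⌋₊)) := by
    unfold gam; ring
  rw [h1]
  refine (norm_sub_le _ _).trans ?_
  rw [norm_smul, adj_norm (hadj _), mul_one, Real.norm_of_nonneg (by linarith [fl_le t])]
  linarith [fl_lt t]

theorem gam_closed (v : ℕ → ℤ × ℤ) (hinj : Function.Injective v) (hadj : ∀ n, Adj (v n) (v (n + 1))) :
    Topology.IsClosedEmbedding (gam v) := by
  apply Topology.IsClosedEmbedding.of_continuous_injective_isClosedMap (gam_cont v) (gam_inj v hinj hadj)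
  apply IsProperMap.isClosedMap
  rw [isProperMap_iff_isCompact_preimage]
  refine ⟨gam_cont v, ?_⟩
  intro K hK
  obtain ⟨R, hR⟩ := hK.isBounded.exists_norm_le
  have hfin : {n | ‖pt (v n)‖ ≤ R + 1}.Finite :=
    (finite_ball (R + 1)).preimage hinj.injOn
  obtain ⟨N, hN⟩ := hfin.bddAbove
  have hc : IsCompact (Icc (0 : NNReal) (N + 1)) := isCompact_Icc
  apply hc.of_isClosed_subset (hK.isClosed.preimage (gam_cont v))
  intro t ht
  refine ⟨t.2, ?_⟩
  have h1 := hR _ ht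
  have h2 := gam_dist v hadj t
  have h3 : ⌊t⌋₊ ≤ N := hN (show ‖pt (v ⌊t⌋₊)‖ ≤ R + 1 by linarith)
  have h4 := fl_lt t
  have h5 : ((⌊t⌋₊ : ℕ) : ℝ) ≤ N := by exact_mod_cast h3
  have h6 : (t : ℝ) ≤ N + 1 := by linarith
  exact_mod_cast h6

theorem gam_range (v : ℕ → ℤ × ℤ) : range (gam v) = ⋃ n, segment ℝ (pt (v n)) (pt (v (n + 1))) := by
  ext z
  constructor
  · rintro ⟨t, rfl⟩
    rw [mem_iUnion]
    refine ⟨⌊t⌋₊, ?_⟩
    rw [segment_eq_image']
    exact ⟨(t : ℝ) - ⌊t⌋₊, ⟨by linarith [fl_le t], by linarith [fl_lt t]⟩, rfl⟩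
  · rw [mem_iUnion]
    rintro ⟨n, hn⟩
    rw [segment_eq_image'] at hn
    obtain ⟨s, ⟨h0, h1⟩, rfl⟩ := hn
    have hc : ((Real.toNNReal ((n : ℝ) + s) : NNReal) : ℝ) = n + s := Real.coe_toNNReal _ (by positivity)
    refine ⟨Real.toNNReal ((n : ℝ) + s), ?_⟩
    rw [gam_eq_gN v (N := n + 2) (by rw [hc]; push_cast; linarith),
      gN_eq v (n := n) (by rw [hc]; linarith) (by rw [hc]; linarith) (by omega), hc]
    rw [add_sub_cancel_left]

theorem gam_unbounded (v : ℕ → ℤ × ℤ) (hinj : Function.Injective v) : ¬ Bornology.IsBounded (range (gam v)) := by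
  intro h
  obtain ⟨R, hR⟩ := h.exists_norm_le
  have hfin : (univ : Set ℕ).Finite := by
    apply ((finite_ball R).preimage hinj.injOn).subset
    intro n _
    change ‖pt (v n)‖ ≤ R
    apply hR
    refine ⟨n, ?_⟩
    unfold gam
    simp
  exact infinite_univ hfin

/-- A map `S` on a set `A` of lattice points whose orbit from `o` is a simple path through all of `A`. -/
structure RaySys (A : Set (ℤ × ℤ)) (S : ℤ × ℤ → ℤ × ℤ) (o : ℤ × ℤ) : Prop where
  o_mem : o ∈ A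
  maps : ∀ p ∈ A, S p ∈ A
  inj : ∀ p ∈ A, ∀ q ∈ A, S p = S q → p = q
  no : ∀ p ∈ A, S p ≠ o
  adj : ∀ p ∈ A, Adj p (S p)
  reach : ∀ p ∈ A, ∃ n : ℕ, S^[n] o = p

theorem RaySys.curve {A : Set (ℤ × ℤ)} {S : ℤ × ℤ → ℤ × ℤ} {o : ℤ × ℤ} (h : RaySys A S o) :
    ∃ f : NNReal → ℂ, Topology.IsClosedEmbedding f ∧ range f = ⋃ p ∈ A, segment ℝ (pt p) (pt (S p)) ∧
      ¬ Bornology.IsBounded (range f) := by
  have hA : ∀ n : ℕ, S^[n] o ∈ A := by
    intro n
    induction n with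
    | zero => exact h.o_mem
    | succ n ih => rw [Function.iterate_succ_apply']; exact h.maps _ ih
  have hlt : ∀ k n : ℕ, S^[n] o ≠ S^[n + 1 + k] o := by
    intro k n
    induction n with
    | zero =>
      intro heq
      rw [show 0 + 1 + k = k + 1 by ring, Function.iterate_succ_apply'] at heq
      exact h.no _ (hA k) heq.symm
    | succ n ih =>
      intro heq
      rw [Function.iterate_succ_apply', show n + 1 + 1 + k = (n + 1 + k) + 1 by ring,
        Function.iterate_succ_apply'] at heq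
      exact ih (h.inj _ (hA _) _ (hA _) heq)
  have hinj : Function.Injective (fun n : ℕ => S^[n] o) := by
    intro m n hmn
    by_contra hne
    rcases Nat.lt_or_gt_of_ne hne with hl | hl
    · obtain ⟨k, rfl⟩ := Nat.exists_eq_add_of_lt hl
      exact hlt k m (by rw [show m + 1 + k = m + k + 1 by ring]; exact hmn)
    · obtain ⟨k, rfl⟩ := Nat.exists_eq_add_of_lt hl
      exact hlt k n (by rw [show n + 1 + k = n + k + 1 by ring]; exact hmn.symm)
  have hadj : ∀ n : ℕ, Adj (S^[n] o) (S^[n + 1] o) := by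
    intro n
    rw [Function.iterate_succ_apply']
    exact h.adj _ (hA n)
  refine ⟨gam (fun n : ℕ => S^[n] o), gam_closed _ hinj hadj, ?_, gam_unbounded _ hinj⟩
  rw [gam_range]
  ext z
  simp only [mem_iUnion]
  constructor
  · rintro ⟨n, hn⟩
    refine ⟨S^[n] o, hA n, ?_⟩
    rw [Function.iterate_succ_apply'] at hn
    exact hn
  · rintro ⟨p, hp, hz⟩
    obtain ⟨n, rfl⟩ := h.reach p hp
    refine ⟨n, ?_⟩
    rw [Function.iterate_succ_apply']
    exact hz

/-- Reachability from a lexicographic rank. -/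
theorem reach_of_rank {A : Set (ℤ × ℤ)} {S : ℤ × ℤ → ℤ × ℤ} {o : ℤ × ℤ} (rk pos : ℤ × ℤ → ℕ)
    (h : ∀ p ∈ A, p ≠ o → ∃ q ∈ A, S q = p ∧ (rk q < rk p ∨ (rk q = rk p ∧ pos q < pos p))) :
    ∀ p ∈ A, ∃ n : ℕ, S^[n] o = p := by
  have key : ∀ M k : ℕ, ∀ p ∈ A, rk p = M → pos p = k → ∃ n : ℕ, S^[n] o = p := by
    intro M
    induction M using Nat.strong_induction_on with
    | _ M ihM =>
      intro k
      induction k using Nat.strong_induction_on with
      | _ k ihk =>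
        intro p hp h1 h2
        by_cases hpo : p = o
        · exact ⟨0, hpo.symm⟩
        · obtain ⟨q, hq, hSq, hr⟩ := h p hp hpo
          have : ∃ n : ℕ, S^[n] o = q := by
            rcases hr with hr | ⟨hr1, hr2⟩
            · exact ihM (rk q) (by omega) (pos q) q hq rfl rfl
            · exact ihk (pos q) (by omega) q hq (by omega) rfl
          obtain ⟨n, hn⟩ := this
          refine ⟨n + 1, ?_⟩
          rw [Function.iterate_succ_apply', hn, hSq]
  intro p hp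
  exact key (rk p) (pos p) p hp rfl rfl

end Pool.Agent.R175.GridPath
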