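import Mathlib
import Pool.Agent.R175.GridPath

/-!
# Unit squares marked on one side
-/

set_option autoImplicit false

namespace Pool.Agent.R175.GridTile

open Set Pool.Agent.R175.GridPath

/-- An arc: a homeomorphic image of `[0,1]`. -/
def IsArc (C : Set ℂ) : Prop := ∃ f : unitInterval → ℂ, Topology.IsEmbedding f ∧ range f = C

/-- An unbounded simple curve: an unbounded homeomorphic image of `ℝ` or of `[0,∞)`. -/
def IsUnboundedSimpleCurve (C : Set ℂ) : Prop :=
  ¬ Bornology.IsBounded C ∧ ((∃ f : ℝ → ℂ, Topology.IsEmbedding f ∧ range f = C) ∨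
    (∃ f : NNReal → ℂ, Topology.IsEmbedding f ∧ range f = C))

/-- The unit square `[0,1] × [0,1]`. -/
def unitSquare : Set ℂ := Icc (0 : ℝ) 1 ×ℂ Icc (0 : ℝ) 1

/-- The tile of `(4⁴)` with lower left corner `p`. -/
def cell (p : ℤ × ℤ) : Set ℂ := Icc (p.1 : ℝ) (p.1 + 1) ×ℂ Icc (p.2 : ℝ) (p.2 + 1)

/-- The bottom side of the unit square. -/
def bottom : Set ℂ := segment ℝ 0 1

theorem bottom_arc : IsArc bottom := by
  refine ⟨fun t => ((t : ℝ) : ℂ), ?_, ?_⟩
  · apply Topology.IsEmbedding.comp (g := fun x : ℝ => (x : ℂ)) (f := fun t : unitInterval => (t : ℝ))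
    · exact Complex.isometry_ofReal.isEmbedding
    · exact Topology.IsEmbedding.subtypeVal
  · ext z
    unfold bottom
    rw [segment_eq_image']
    constructor
    · rintro ⟨t, rfl⟩
      exact ⟨t, t.2, by simp⟩
    · rintro ⟨t, ht, rfl⟩
      exact ⟨⟨t, ht⟩, by simp⟩

theorem bottom_sub : bottom ⊆ unitSquare := by
  intro z hz
  unfold bottom at hz
  rw [segment_eq_image'] at hz
  obtain ⟨t, ⟨h0, h1⟩, rfl⟩ := hz
  rw [unitSquare, Complex.mem_reProdIm]
  simp
  exact ⟨h0, h1⟩

/-- The isometry `z ↦ u z + c`. -/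
noncomputable def rt (u c : ℂ) (hu : ‖u‖ = 1) : ℂ ≃ᵢ ℂ :=
  IsometryEquiv.mk' (fun z => u * z + c) (fun z => (z - c) / u)
    (by
      intro z
      have : u ≠ 0 := by
        rintro rfl
        simp at hu
      field_simp
      ring)
    (by
      apply Isometry.of_dist_eq
      intro z w
      rw [dist_eq_norm, dist_eq_norm]
      have : u * z + c - (u * w + c) = u * (z - w) := by ring
      rw [this, norm_mul, hu, one_mul])

theorem rt_apply (u c : ℂ) (hu : ‖u‖ = 1) (z : ℂ) : rt u c hu z = u * z + c := rfl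

/-- The four sides of a square. -/
inductive Sd
  | B
  | R
  | T
  | L
deriving DecidableEq

/-- The placement of the tile with lower left corner `p` that carries the bottom side of the unit square to
the side `s`. -/
noncomputable def place (p : ℤ × ℤ) : Sd → (ℂ ≃ᵢ ℂ)
  | Sd.B => rt 1 (pt p) (by simp)
  | Sd.R => rt Complex.I (pt p + 1) (by simp)
  | Sd.T => rt (-1) (pt p + 1 + Complex.I) (by simp)
  | Sd.L => rt (-Complex.I) (pt p + Complex.I) (by simp)

/-- First end of the marked side. -/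
def e1 (p : ℤ × ℤ) : Sd → ℤ × ℤ
  | Sd.B => p
  | Sd.R => (p.1 + 1, p.2)
  | Sd.T => (p.1 + 1, p.2 + 1)
  | Sd.L => (p.1, p.2 + 1)

/-- Second end of the marked side. -/
def e2 (p : ℤ × ℤ) : Sd → ℤ × ℤ
  | Sd.B => (p.1 + 1, p.2)
  | Sd.R => (p.1 + 1, p.2 + 1)
  | Sd.T => (p.1, p.2 + 1)
  | Sd.L => p

theorem rt_segment (u c : ℂ) (hu : ‖u‖ = 1) : rt u c hu '' bottom = segment ℝ c (u + c) := by
  unfold bottom
  rw [segment_eq_image', segment_eq_image', image_image]
  congr 1
  ext t
  rw [rt_apply]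
  simp
  ring

theorem place_bottom (p : ℤ × ℤ) (s : Sd) : place p s '' bottom = segment ℝ (pt (e1 p s)) (pt (e2 p s)) := by
  cases s
  · refine (rt_segment 1 (pt p) (by simp)).trans ?_
    congr 1
    apply Complex.ext <;> simp [pt, e2]
    ring
  · refine (rt_segment Complex.I (pt p + 1) (by simp)).trans ?_
    congr 1
    · apply Complex.ext <;> simp [pt, e1]
    · apply Complex.ext <;> simp [pt, e2]
      ring
  · refine (rt_segment (-1) (pt p + 1 + Complex.I) (by simp)).trans ?_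
    congr 1
    · apply Complex.ext <;> simp [pt, e1]
    · apply Complex.ext <;> simp [pt, e2]
  · refine (rt_segment (-Complex.I) (pt p + Complex.I) (by simp)).trans ?_
    congr 1
    · apply Complex.ext <;> simp [pt, e1]
    · apply Complex.ext <;> simp [pt, e2]

theorem place_square (p : ℤ × ℤ) (s : Sd) : place p s '' unitSquare = cell p := by
  ext z
  constructor
  · rintro ⟨w, hw, rfl⟩
    rw [unitSquare, Complex.mem_reProdIm] at hw
    obtain ⟨⟨h1, h2⟩, h3, h4⟩ := hw
    rw [cell, Complex.mem_reProdIm]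
    cases s
    · change (1 * w + pt p).re ∈ _ ∧ (1 * w + pt p).im ∈ _
      simp [pt]
      exact ⟨⟨by linarith, by linarith⟩, by linarith, by linarith⟩
    · change (Complex.I * w + (pt p + 1)).re ∈ _ ∧ (Complex.I * w + (pt p + 1)).im ∈ _
      simp [pt]
      exact ⟨⟨by linarith, by linarith⟩, by linarith, by linarith⟩
    · change (-1 * w + (pt p + 1 + Complex.I)).re ∈ _ ∧ (-1 * w + (pt p + 1 + Complex.I)).im ∈ _
      simp [pt]
      exact ⟨⟨by linarith, by linarith⟩, by linarith, by linarith⟩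
    · change (-Complex.I * w + (pt p + Complex.I)).re ∈ _ ∧ (-Complex.I * w + (pt p + Complex.I)).im ∈ _
      simp [pt]
      exact ⟨⟨by linarith, by linarith⟩, by linarith, by linarith⟩
  · intro hz
    rw [cell, Complex.mem_reProdIm] at hz
    obtain ⟨⟨h1, h2⟩, h3, h4⟩ := hz
    cases s
    · refine ⟨⟨z.re - p.1, z.im - p.2⟩, ?_, ?_⟩
      · rw [unitSquare, Complex.mem_reProdIm]
        exact ⟨⟨by change 0 ≤ z.re - p.1; linarith, by change z.re - p.1 ≤ 1; linarith⟩,
          by change 0 ≤ z.im - p.2; linarith, by change z.im - p.2 ≤ 1; linarith⟩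
      · change (1 : ℂ) * _ + pt p = z
        apply Complex.ext <;> simp [pt]
    · refine ⟨⟨z.im - p.2, p.1 + 1 - z.re⟩, ?_, ?_⟩
      · rw [unitSquare, Complex.mem_reProdIm]
        exact ⟨⟨by change 0 ≤ z.im - p.2; linarith, by change z.im - p.2 ≤ 1; linarith⟩,
          by change 0 ≤ p.1 + 1 - z.re; linarith, by change p.1 + 1 - z.re ≤ 1; linarith⟩
      · change Complex.I * _ + (pt p + 1) = z
        apply Complex.ext <;> simp [pt]
    · refine ⟨⟨p.1 + 1 - z.re, p.2 + 1 - z.im⟩, ?_, ?_⟩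
      · rw [unitSquare, Complex.mem_reProdIm]
        exact ⟨⟨by change 0 ≤ p.1 + 1 - z.re; linarith, by change p.1 + 1 - z.re ≤ 1; linarith⟩,
          by change 0 ≤ p.2 + 1 - z.im; linarith, by change p.2 + 1 - z.im ≤ 1; linarith⟩
      · change (-1 : ℂ) * _ + (pt p + 1 + Complex.I) = z
        apply Complex.ext <;> simp [pt]
    · refine ⟨⟨p.2 + 1 - z.im, z.re - p.1⟩, ?_, ?_⟩
      · rw [unitSquare, Complex.mem_reProdIm]
        exact ⟨⟨by change 0 ≤ p.2 + 1 - z.im; linarith, by change p.2 + 1 - z.im ≤ 1; linarith⟩,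
          by change 0 ≤ z.re - p.1; linarith, by change z.re - p.1 ≤ 1; linarith⟩
      · change (-Complex.I : ℂ) * _ + (pt p + Complex.I) = z
        apply Complex.ext <;> simp [pt]

/-- The union of the marked sides is the union of lattice edges. -/
theorem union_marks (s : ℤ × ℤ → Sd) : ⋃ p, ⋃ m ∈ ({bottom} : Set (Set ℂ)), place p (s p) '' m =
    ⋃ p, segment ℝ (pt (e1 p (s p))) (pt (e2 p (s p))) := by
  apply iUnion_congr
  intro p
  rw [biUnion_singleton, place_bottom]

theorem curve_of_ray {A : Set (ℤ × ℤ)} {S : ℤ × ℤ → ℤ × ℤ} {o : ℤ × ℤ} (h : RaySys A S o) :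
    IsUnboundedSimpleCurve (⋃ p ∈ A, segment ℝ (pt p) (pt (S p))) := by
  obtain ⟨f, hf, hr, hu⟩ := h.curve
  rw [hr] at hu
  exact ⟨hu, Or.inr ⟨f, hf.isEmbedding, hr⟩⟩

end Pool.Agent.R175.GridTile
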