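import Mathlib

/-!
# Simple polygonal paths on an abstract planar lattice graph

`pt` realises the vertices (indexed by a type `V`) as points of the plane, `Adj` is an adjacency relation such
that edges meet only in common end points.
-/

set_option autoImplicit false

namespace Pool.Agent.R175.LatPath

open Set

/-- A geometric realisation of a graph with vertex set `V`: bounded sets contain finitely many vertices, edges
have bounded length, and (half-open) edges meet only if they are equal or opposite. -/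
structure Geo {V : Type} (pt : V → ℂ) (Adj : V → V → Prop) (K : ℝ) : Prop where
  fin : ∀ R : ℝ, {p : V | ‖pt p‖ ≤ R}.Finite
  norm : ∀ p q, Adj p q → ‖pt q - pt p‖ ≤ K
  inter : ∀ p p' q q' : V, ∀ s t : ℝ, Adj p p' → Adj q q' → 0 ≤ s → s < 1 → 0 ≤ t → t < 1 →
    pt p + s • (pt p' - pt p) = pt q + t • (pt q' - pt q) → (p = q ∧ s = t) ∨ (p = q' ∧ p' = q)

/-- The clamp of a real number to `[0, 1]`. -/
noncomputable def cl (x : ℝ) : ℝ := max 0 (min 1 x)

theorem cl_cont : Continuous cl := by unfold cl; fun_prop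
theorem cl_zero {x : ℝ} (h : x ≤ 0) : cl x = 0 := by
  unfold cl
  rw [max_eq_left]
  exact (min_le_right _ _).trans h
theorem cl_one {x : ℝ} (h : 1 ≤ x) : cl x = 1 := by
  unfold cl
  rw [min_eq_left h, max_eq_right zero_le_one]
theorem cl_id {x : ℝ} (h0 : 0 ≤ x) (h1 : x ≤ 1) : cl x = x := by
  unfold cl
  rw [min_eq_right h1, max_eq_right h0]

/-- The finite approximations of the curve. -/
noncomputable def gN (w : ℕ → ℂ) (N : ℕ) (t : ℝ) : ℂ :=
  w 0 + ∑ j ∈ Finset.range N, cl (t - j) • (w (j + 1) - w j)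

theorem gN_cont (w : ℕ → ℂ) (N : ℕ) : Continuous (gN w N) := by
  unfold gN
  apply continuous_const.add
  apply continuous_finsetSum
  intro j _
  exact (cl_cont.comp (by fun_prop)).smul continuous_const

theorem gN_eq (w : ℕ → ℂ) {n N : ℕ} {t : ℝ} (hn : (n : ℝ) ≤ t) (hn1 : t ≤ n + 1) (hN : n + 1 ≤ N) :
    gN w N t = w n + (t - n) • (w (n + 1) - w n) := by
  obtain ⟨k, rfl⟩ := Nat.exists_eq_add_of_le hN
  have h2 : ∀ k : ℕ, gN w (n + 1 + k) t = gN w (n + 1) t := by
    intro k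
    induction k with
    | zero => rfl
    | succ k ih =>
      rw [← ih]
      unfold gN
      rw [show n + 1 + (k + 1) = (n + 1 + k) + 1 by ring, Finset.sum_range_succ, cl_zero, zero_smul, add_zero]
      push_cast
      linarith [(Nat.cast_nonneg k : (0 : ℝ) ≤ k)]
  rw [h2]
  unfold gN
  rw [Finset.sum_range_succ, cl_id (by linarith) (by linarith)]
  have h3 : ∑ j ∈ Finset.range n, cl (t - j) • (w (j + 1) - w j) = w n - w 0 := by
    rw [← Finset.sum_range_sub w]
    apply Finset.sum_congr rfl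
    intro j hj
    rw [Finset.mem_range] at hj
    rw [cl_one, one_smul]
    have : ((j + 1 : ℕ) : ℝ) ≤ n := by exact_mod_cast hj
    push_cast at this
    linarith
  rw [h3]
  ring

/-- The polygonal curve. -/
noncomputable def gam (w : ℕ → ℂ) (t : NNReal) : ℂ :=
  w ⌊t⌋₊ + ((t : ℝ) - ⌊t⌋₊) • (w (⌊t⌋₊ + 1) - w ⌊t⌋₊)

theorem fl_le (t : NNReal) : ((⌊t⌋₊ : ℕ) : ℝ) ≤ t := by
  have := Nat.floor_le (show (0 : NNReal) ≤ t from t.2)
  exact_mod_cast this

theorem fl_lt (t : NNReal) : (t : ℝ) < (⌊t⌋₊ : ℕ) + 1 := by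
  have := Nat.lt_floor_add_one t
  exact_mod_cast this

theorem gam_eq_gN (w : ℕ → ℂ) {N : ℕ} {t : NNReal} (h : (t : ℝ) < N) : gam w t = gN w N t := by
  rw [gN_eq w (fl_le t) (fl_lt t).le]
  · rfl
  · have h2 : ((⌊t⌋₊ : ℕ) : ℝ) < N := (fl_le t).trans_lt h
    have h3 : ⌊t⌋₊ < N := by exact_mod_cast h2
    exact h3

theorem gam_cont (w : ℕ → ℂ) : Continuous (gam w) := by
  rw [continuous_iff_continuousAt]
  intro t
  have h : ∀ᶠ s in nhds t, gam w s = gN w (⌊t⌋₊ + 1) s := by
    have ho : IsOpen {s : NNReal | (s : ℝ) < ((⌊t⌋₊ + 1 : ℕ) : ℝ)} :=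
      isOpen_lt NNReal.continuous_coe continuous_const
    filter_upwards [ho.mem_nhds (by
      change (t : ℝ) < ((⌊t⌋₊ + 1 : ℕ) : ℝ)
      push_cast
      exact fl_lt t)] with s hs
    exact gam_eq_gN w hs
  rw [continuousAt_congr h]
  exact ((gN_cont w _).comp NNReal.continuous_coe).continuousAt

theorem gam_range (w : ℕ → ℂ) : range (gam w) = ⋃ n, segment ℝ (w n) (w (n + 1)) := by
  ext z
  constructor
  · rintro ⟨t, rfl⟩
    rw [mem_iUnion]
    refine ⟨⌊t⌋₊, ?_⟩
    rw [segment_eq_image']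
    exact ⟨(t : ℝ) - ⌊t⌋₊, ⟨by linarith [fl_le t], by linarith [fl_lt t]⟩, rfl⟩
  · rw [mem_iUnion]
    rintro ⟨n, hn⟩
    rw [segment_eq_image'] at hn
    obtain ⟨s, ⟨h0, h1⟩, rfl⟩ := hn
    have hc : ((Real.toNNReal ((n : ℝ) + s) : NNReal) : ℝ) = n + s := Real.coe_toNNReal _ (by positivity)
    refine ⟨Real.toNNReal ((n : ℝ) + s), ?_⟩
    rw [gam_eq_gN w (N := n + 2) (by rw [hc]; push_cast; linarith),
      gN_eq w (n := n) (by rw [hc]; linarith) (by rw [hc]; linarith) (by omega), hc]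
    rw [add_sub_cancel_left]

section

variable {V : Type} {pt : V → ℂ} {Adj : V → V → Prop} {K : ℝ}

theorem gam_inj (hG : Geo pt Adj K) (v : ℕ → V) (hinj : Function.Injective v)
    (hadj : ∀ n, Adj (v n) (v (n + 1))) : Function.Injective (gam (fun n => pt (v n))) := by
  intro s t h
  rcases hG.inter _ _ _ _ _ _ (hadj _) (hadj _) (by linarith [fl_le s]) (by linarith [fl_lt s])
    (by linarith [fl_le t]) (by linarith [fl_lt t]) h with ⟨h1, h2⟩ | ⟨h1, h2⟩
  · have h3 : ⌊s⌋₊ = ⌊t⌋₊ := hinj h1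
    rw [h3] at h2
    have h4 : (s : ℝ) = t := by linarith
    exact_mod_cast h4
  · have h3 := hinj h1
    have h4 := hinj h2
    omega

theorem gam_closed (hG : Geo pt Adj K) (v : ℕ → V) (hinj : Function.Injective v)
    (hadj : ∀ n, Adj (v n) (v (n + 1))) : Topology.IsClosedEmbedding (gam (fun n => pt (v n))) := by
  apply Topology.IsClosedEmbedding.of_continuous_injective_isClosedMap (gam_cont _) (gam_inj hG v hinj hadj)
  apply IsProperMap.isClosedMap
  rw [isProperMap_iff_isCompact_preimage]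
  refine ⟨gam_cont _, ?_⟩
  intro C hC
  obtain ⟨R, hR⟩ := hC.isBounded.exists_norm_le
  have hfin : {n | ‖pt (v n)‖ ≤ R + K}.Finite :=
    (hG.fin (R + K)).preimage hinj.injOn
  obtain ⟨N, hN⟩ := hfin.bddAbove
  have hc : IsCompact (Icc (0 : NNReal) (N + 1)) := isCompact_Icc
  apply hc.of_isClosed_subset (hC.isClosed.preimage (gam_cont _))
  intro t ht
  refine ⟨t.2, ?_⟩
  have h1 := hR _ ht
  have h2 : ‖pt (v ⌊t⌋₊)‖ ≤ ‖gam (fun n => pt (v n)) t‖ + K := by
    have h1 : pt (v ⌊t⌋₊) = gam (fun n => pt (v n)) t -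
        ((t : ℝ) - ⌊t⌋₊) • (pt (v (⌊t⌋₊ + 1)) - pt (v ⌊t⌋₊)) := by
      unfold gam; ring
    rw [h1]
    refine (norm_sub_le _ _).trans ?_
    rw [norm_smul, Real.norm_of_nonneg (by linarith [fl_le t])]
    have h3 := hG.norm _ _ (hadj ⌊t⌋₊)
    have h4 := norm_nonneg (pt (v (⌊t⌋₊ + 1)) - pt (v ⌊t⌋₊))
    have h5 := fl_lt t
    have h6 := fl_le t
    nlinarith
  have h3 : ⌊t⌋₊ ≤ N := hN (show ‖pt (v ⌊t⌋₊)‖ ≤ R + K by linarith)
  have h4 := fl_lt t
  have h5 : ((⌊t⌋₊ : ℕ) : ℝ) ≤ N := by exact_mod_cast h3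
  have h6 : (t : ℝ) ≤ N + 1 := by linarith
  exact_mod_cast h6

/-- A map `S` on the vertices whose orbits from the starts `o i` are disjoint simple paths through all
vertices. -/
structure MultiRay (Adj : V → V → Prop) (S : V → V) {n : ℕ} (o : Fin n → V) : Prop where
  inj : Function.Injective S
  no : ∀ i p, S p ≠ o i
  oinj : Function.Injective o
  adj : ∀ p, Adj p (S p)
  reach : ∀ p, ∃ (i : Fin n) (m : ℕ), S^[m] (o i) = p

theorem MultiRay.unique {S : V → V} {n : ℕ} {o : Fin n → V} (h : MultiRay Adj S o) {i j : Fin n} :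
    ∀ m l : ℕ, S^[m] (o i) = S^[l] (o j) → i = j ∧ m = l := by
  intro m
  induction m with
  | zero =>
    intro l hl
    cases l with
    | zero => exact ⟨h.oinj hl, rfl⟩
    | succ l =>
      rw [Function.iterate_succ_apply'] at hl
      exact absurd hl.symm (h.no i _)
  | succ m ih =>
    intro l hl
    cases l with
    | zero =>
      rw [Function.iterate_succ_apply'] at hl
      exact absurd hl (h.no j _)
    | succ l =>
      rw [Function.iterate_succ_apply', Function.iterate_succ_apply'] at hl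
      obtain ⟨h1, h2⟩ := ih l (h.inj hl)
      exact ⟨h1, by omega⟩

/-- The arm starting at `o i`. -/
def arm (pt : V → ℂ) (S : V → V) (p : V) : Set ℂ := ⋃ m : ℕ, segment ℝ (pt (S^[m] p)) (pt (S^[m + 1] p))

theorem MultiRay.arm_closed (hG : Geo pt Adj K) {S : V → V} {n : ℕ} {o : Fin n → V} (h : MultiRay Adj S o)
    (i : Fin n) : ∃ f : NNReal → ℂ, Topology.IsClosedEmbedding f ∧ range f = arm pt S (o i) := by
  refine ⟨_, gam_closed hG (fun m => S^[m] (o i)) ?_ ?_, gam_range _⟩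
  · intro m l hml
    exact (h.unique m l hml).2
  · intro m
    rw [Function.iterate_succ_apply']
    exact h.adj _

theorem half_open {S : V → V} {p : V} {z : ℂ} (hz : z ∈ arm pt S p) :
    ∃ (m : ℕ) (s : ℝ), 0 ≤ s ∧ s < 1 ∧ z = pt (S^[m] p) + s • (pt (S (S^[m] p)) - pt (S^[m] p)) := by
  unfold arm at hz
  rw [mem_iUnion] at hz
  obtain ⟨m, hm⟩ := hz
  rw [segment_eq_image'] at hm
  obtain ⟨s, ⟨h0, h1⟩, rfl⟩ := hm
  rcases lt_or_eq_of_le h1 with h1 | rfl
  · refine ⟨m, s, h0, h1, ?_⟩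
    rw [Function.iterate_succ_apply']
  · refine ⟨m + 1, 0, le_rfl, one_pos, ?_⟩
    simp

theorem MultiRay.arm_disjoint (hG : Geo pt Adj K) {S : V → V} {n : ℕ} {o : Fin n → V}
    (h : MultiRay Adj S o) {i j : Fin n} (hij : i ≠ j) : Disjoint (arm pt S (o i)) (arm pt S (o j)) := by
  rw [disjoint_left]
  intro z hz hz'
  obtain ⟨m, s, hs0, hs1, e1⟩ := half_open hz
  obtain ⟨l, t, ht0, ht1, e2⟩ := half_open hz'
  rcases hG.inter _ _ _ _ s t (h.adj _) (h.adj _) hs0 hs1 ht0 ht1 (e1.symm.trans e2) with ⟨h1, -⟩ | ⟨h1, -⟩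
  · exact hij (h.unique m l h1).1
  · rw [← Function.iterate_succ_apply' S l (o j)] at h1
    exact hij (h.unique m (l + 1) h1).1

theorem MultiRay.union_arms {S : V → V} {n : ℕ} {o : Fin n → V} (h : MultiRay Adj S o) :
    ⋃ i, arm pt S (o i) = ⋃ p, segment ℝ (pt p) (pt (S p)) := by
  ext z
  unfold arm
  simp only [mem_iUnion]
  constructor
  · rintro ⟨i, m, hz⟩
    refine ⟨S^[m] (o i), ?_⟩
    rw [Function.iterate_succ_apply'] at hz
    exact hz
  · rintro ⟨p, hz⟩
    obtain ⟨i, m, rfl⟩ := h.reach p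
    refine ⟨i, m, ?_⟩
    rw [Function.iterate_succ_apply']
    exact hz

/-- Reachability from a lexicographic rank. -/
theorem reach_of_rank {S : V → V} {n : ℕ} {o : Fin n → V} (rk pos : V → ℕ)
    (h : ∀ p, (∃ i, p = o i) ∨ ∃ q, S q = p ∧ (rk q < rk p ∨ (rk q = rk p ∧ pos q < pos p))) :
    ∀ p, ∃ (i : Fin n) (m : ℕ), S^[m] (o i) = p := by
  have key : ∀ M k : ℕ, ∀ p, rk p = M → pos p = k → ∃ (i : Fin n) (m : ℕ), S^[m] (o i) = p := by
    intro M
    induction M using Nat.strong_induction_on with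
    | _ M ihM =>
      intro k
      induction k using Nat.strong_induction_on with
      | _ k ihk =>
        intro p h1 h2
        rcases h p with ⟨i, rfl⟩ | ⟨q, hSq, hr⟩
        · exact ⟨i, 0, rfl⟩
        · have : ∃ (i : Fin n) (m : ℕ), S^[m] (o i) = q := by
            rcases hr with hr | ⟨hr1, hr2⟩
            · exact ihM (rk q) (by omega) (pos q) q rfl rfl
            · exact ihk (pos q) (by omega) q (by omega) rfl
          obtain ⟨i, m, hn⟩ := this
          refine ⟨i, m + 1, ?_⟩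
          rw [Function.iterate_succ_apply', hn, hSq]
  intro p
  exact key (rk p) (pos p) p rfl rfl

end

end Pool.Agent.R175.LatPath
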