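import Mathlib
import Pool.Agent.R175.LatPath
import Pool.Agent.R175.GridTile

/-!
# The triangular lattice, the regular hexagon and the hexagonal tiling
-/

set_option autoImplicit false

namespace Pool.Agent.R175.TriGeo

open Set Pool.Agent.R175.LatPath

/-- `√3`. -/
noncomputable def r3 : ℝ := Real.sqrt 3

theorem r3_sq : r3 * r3 = 3 := Real.mul_self_sqrt (by norm_num)
theorem r3_pos : 0 < r3 := Real.sqrt_pos.2 (by norm_num)
theorem r3_lt : r3 < 2 := by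
  have := r3_sq
  have := r3_pos
  nlinarith
theorem one_lt_r3 : 1 < r3 := by
  have := r3_sq
  have := r3_pos
  nlinarith

/-- First lattice coordinate. -/
noncomputable def X (z : ℂ) : ℝ := 2 / 3 * z.re
/-- Second lattice coordinate. -/
noncomputable def Y (z : ℂ) : ℝ := r3 / 3 * z.im - 1 / 3 * z.re

theorem X_add (z w : ℂ) : X (z + w) = X z + X w := by simp [X]; ring
theorem X_sub (z w : ℂ) : X (z - w) = X z - X w := by simp [X]; ring
theorem X_smul (c : ℝ) (z : ℂ) : X (c • z) = c * X z := by simp [X]; ring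
theorem Y_add (z w : ℂ) : Y (z + w) = Y z + Y w := by simp [Y]; ring
theorem Y_sub (z w : ℂ) : Y (z - w) = Y z - Y w := by simp [Y]; ring
theorem Y_smul (c : ℝ) (z : ℂ) : Y (c • z) = c * Y z := by simp [Y]; ring

/-- The primitive sixth root of unity. -/
noncomputable def ζ : ℂ := ⟨1 / 2, r3 / 2⟩

theorem zeta_sq : ζ * ζ = ζ - 1 := by
  have := r3_sq
  apply Complex.ext
  · simp [ζ]; linarith
  · simp [ζ]; ring

theorem zeta_norm : ‖ζ‖ = 1 := by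
  have h : ‖ζ‖ ^ 2 = 1 := by
    rw [← Complex.normSq_eq_norm_sq, Complex.normSq_apply]
    have := r3_sq
    simp [ζ]
    linarith
  have h0 := norm_nonneg ζ
  nlinarith

theorem X_one : X 1 = 2 / 3 := by simp [X]
theorem Y_one : Y 1 = -1 / 3 := by simp [Y]; norm_num
theorem X_zeta : X ζ = 1 / 3 := by simp [X, ζ]; norm_num
theorem Y_zeta : Y ζ = 1 / 3 := by
  have := r3_sq
  simp [Y, ζ]
  nlinarith

/-- The lattice points. -/
noncomputable def pt (p : ℤ × ℤ) : ℂ := (p.1 : ℝ) • (1 + ζ) + (p.2 : ℝ) • (ζ + ζ - 1)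

theorem X_pt (p : ℤ × ℤ) : X (pt p) = p.1 := by
  unfold pt
  rw [X_add, X_smul, X_smul, X_add, X_sub, X_add, X_one, X_zeta]
  ring

theorem Y_pt (p : ℤ × ℤ) : Y (pt p) = p.2 := by
  unfold pt
  rw [Y_add, Y_smul, Y_smul, Y_add, Y_sub, Y_add, Y_one, Y_zeta]
  ring

theorem ext_XY {z w : ℂ} (h1 : X z = X w) (h2 : Y z = Y w) : z = w := by
  unfold X at h1
  unfold Y at h2
  have h3 : z.re = w.re := by linarith
  rw [h3] at h2
  have h4 : r3 / 3 * z.im = r3 / 3 * w.im := by linarith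
  have h5 : z.im = w.im := mul_left_cancel₀ (by have := r3_pos; positivity) h4
  exact Complex.ext h3 h5

/-- Adjacency in the triangular lattice. -/
def Adj (p q : ℤ × ℤ) : Prop :=
  (q.1 = p.1 + 1 ∧ q.2 = p.2) ∨ (q.1 = p.1 - 1 ∧ q.2 = p.2) ∨ (q.1 = p.1 ∧ q.2 = p.2 + 1) ∨
  (q.1 = p.1 ∧ q.2 = p.2 - 1) ∨ (q.1 = p.1 + 1 ∧ q.2 = p.2 - 1) ∨ (q.1 = p.1 - 1 ∧ q.2 = p.2 + 1)

theorem int_ne {a b : ℤ} {s : ℝ} (h0 : 0 < s) (h1 : s < 1) : (a : ℝ) + s ≠ b := by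
  intro h
  have h2 : (a : ℝ) < b := by linarith
  have h3 : (b : ℝ) < a + 1 := by linarith
  have h4 : a < b := by exact_mod_cast h2
  have h5 : b < a + 1 := by exact_mod_cast h3
  omega

theorem int_ne' {a b : ℤ} {s : ℝ} (h0 : 0 < s) (h1 : s < 1) : (a : ℝ) - s ≠ b := by
  intro h
  exact int_ne (a := b) (b := a) h0 h1 (by linarith)

theorem same_dir {a c : ℤ} {s t : ℝ} (hs0 : 0 < s) (hs1 : s < 1) (ht0 : 0 < t) (ht1 : t < 1)
    (h : (a : ℝ) + s = c + t) : a = c ∧ s = t := by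
  have h1 : (a : ℝ) < c + 1 := by linarith
  have h2 : (c : ℝ) < a + 1 := by linarith
  have h3 : a < c + 1 := by exact_mod_cast h1
  have h4 : c < a + 1 := by exact_mod_cast h2
  have : a = c := by omega
  subst this
  exact ⟨rfl, by linarith⟩

/-- The positive directions. -/
def Pos (d : ℤ × ℤ) : Prop := d = (1, 0) ∨ d = (0, 1) ∨ d = (1, -1)

theorem pos_inter {p q d e : ℤ × ℤ} {s t : ℝ} (hd : Pos d) (he : Pos e) (hs0 : 0 < s) (hs1 : s < 1)
    (ht0 : 0 < t) (ht1 : t < 1) (h1 : (p.1 : ℝ) + s * d.1 = q.1 + t * e.1)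
    (h2 : (p.2 : ℝ) + s * d.2 = q.2 + t * e.2) : p = q ∧ d = e ∧ s = t := by
  rcases hd with rfl | rfl | rfl <;> rcases he with rfl | rfl | rfl <;> push_cast at h1 h2 <;>
    simp only [mul_one, mul_zero, add_zero, mul_neg] at h1 h2
  · have h3 := same_dir hs0 hs1 ht0 ht1 h1
    exact ⟨Prod.ext h3.1 (by exact_mod_cast h2), rfl, h3.2⟩
  · exact absurd h1 (int_ne hs0 hs1)
  · exact absurd h2.symm (by rw [← sub_eq_add_neg]; exact int_ne' ht0 ht1)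
  · exact absurd h1.symm (int_ne ht0 ht1)
  · have h3 := same_dir hs0 hs1 ht0 ht1 h2
    exact ⟨Prod.ext (by exact_mod_cast h1) h3.1, rfl, h3.2⟩
  · exact absurd h1.symm (int_ne ht0 ht1)
  · exact absurd h2 (by rw [← sub_eq_add_neg]; exact int_ne' hs0 hs1)
  · exact absurd h1 (int_ne hs0 hs1)
  · have h3 := same_dir hs0 hs1 ht0 ht1 h1
    refine ⟨Prod.ext h3.1 ?_, rfl, h3.2⟩
    have : (p.2 : ℝ) = q.2 := by rw [h3.2] at h2; linarith
    exact_mod_cast this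

theorem orient {p p' : ℤ × ℤ} (h : Adj p p') {s : ℝ} (h0 : 0 < s) (h1 : s < 1) :
    ∃ (m d : ℤ × ℤ) (u : ℝ), Pos d ∧ 0 < u ∧ u < 1 ∧ (p.1 : ℝ) + s * (p'.1 - p.1) = m.1 + u * d.1 ∧
      (p.2 : ℝ) + s * (p'.2 - p.2) = m.2 + u * d.2 ∧
      ((p = m ∧ p' = (m.1 + d.1, m.2 + d.2) ∧ s = u) ∨ (p' = m ∧ p = (m.1 + d.1, m.2 + d.2) ∧ s = 1 - u)) := by
  obtain ⟨a, b⟩ := p
  obtain ⟨a', b'⟩ := p'
  simp only [Adj] at h
  rcases h with ⟨rfl, rfl⟩ | ⟨rfl, rfl⟩ | ⟨rfl, rfl⟩ | ⟨rfl, rfl⟩ | ⟨rfl, rfl⟩ | ⟨rfl, rfl⟩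
  · refine ⟨(a, b'), (1, 0), s, Or.inl rfl, h0, h1, ?_, ?_, Or.inl ⟨rfl, ?_, rfl⟩⟩
    · push_cast; ring
    · push_cast; ring
    · simp
  · refine ⟨(a - 1, b'), (1, 0), 1 - s, Or.inl rfl, by linarith, by linarith, ?_, ?_, Or.inr ⟨rfl, ?_, by ring⟩⟩
    · push_cast; ring
    · push_cast; ring
    · simp
  · refine ⟨(a', b), (0, 1), s, Or.inr (Or.inl rfl), h0, h1, ?_, ?_, Or.inl ⟨rfl, ?_, rfl⟩⟩
    · push_cast; ring
    · push_cast; ring
    · simp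
  · refine ⟨(a', b - 1), (0, 1), 1 - s, Or.inr (Or.inl rfl), by linarith, by linarith, ?_, ?_,
      Or.inr ⟨rfl, ?_, by ring⟩⟩
    · push_cast; ring
    · push_cast; ring
    · simp
  · refine ⟨(a, b), (1, -1), s, Or.inr (Or.inr rfl), h0, h1, ?_, ?_, Or.inl ⟨rfl, ?_, rfl⟩⟩
    · push_cast; ring
    · push_cast; ring
    · simp; ring
  · refine ⟨(a - 1, b + 1), (1, -1), 1 - s, Or.inr (Or.inr rfl), by linarith, by linarith, ?_, ?_,
      Or.inr ⟨rfl, ?_, by ring⟩⟩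
    · push_cast; ring
    · push_cast; ring
    · simp

theorem zero_case {p q q' : ℤ × ℤ} (h : Adj q q') {t : ℝ} (ht0 : 0 ≤ t) (ht1 : t < 1)
    (h1 : (p.1 : ℝ) = q.1 + t * (q'.1 - q.1)) (h2 : (p.2 : ℝ) = q.2 + t * (q'.2 - q.2)) : p = q ∧ t = 0 := by
  rcases eq_or_lt_of_le ht0 with h0 | h0
  · subst h0
    simp only [zero_mul, add_zero] at h1 h2
    exact ⟨Prod.ext (by exact_mod_cast h1) (by exact_mod_cast h2), rfl⟩
  · exfalso
    obtain ⟨a, b⟩ := q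
    obtain ⟨a', b'⟩ := q'
    simp only [Adj] at h
    rcases h with ⟨rfl, rfl⟩ | ⟨rfl, rfl⟩ | ⟨rfl, rfl⟩ | ⟨rfl, rfl⟩ | ⟨rfl, rfl⟩ | ⟨rfl, rfl⟩ <;>
      push_cast at h1 h2
    · exact int_ne h0 ht1 (a := a) (b := p.1) (by linarith)
    · exact int_ne' h0 ht1 (a := a) (b := p.1) (by linarith)
    · exact int_ne h0 ht1 (a := b) (b := p.2) (by linarith)
    · exact int_ne' h0 ht1 (a := b) (b := p.2) (by linarith)
    · exact int_ne h0 ht1 (a := a) (b := p.1) (by linarith)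
    · exact int_ne' h0 ht1 (a := a) (b := p.1) (by linarith)

theorem edge_inter (p p' q q' : ℤ × ℤ) (s t : ℝ) (h1 : Adj p p') (h2 : Adj q q') (hs0 : 0 ≤ s) (hs1 : s < 1)
    (ht0 : 0 ≤ t) (ht1 : t < 1) (h : pt p + s • (pt p' - pt p) = pt q + t • (pt q' - pt q)) :
    (p = q ∧ s = t) ∨ (p = q' ∧ p' = q) := by
  have e1 := congrArg X h
  have e2 := congrArg Y h
  simp only [X_add, X_smul, X_sub, X_pt] at e1
  simp only [Y_add, Y_smul, Y_sub, Y_pt] at e2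
  rcases eq_or_lt_of_le hs0 with g | g
  · subst g
    simp only [zero_mul, add_zero] at e1 e2
    obtain ⟨k1, k2⟩ := zero_case h2 ht0 ht1 e1 e2
    exact Or.inl ⟨k1, k2.symm⟩
  · rcases eq_or_lt_of_le ht0 with g' | g'
    · subst g'
      simp only [zero_mul, add_zero] at e1 e2
      obtain ⟨k1, k2⟩ := zero_case h1 hs0 hs1 e1.symm e2.symm
      exact Or.inl ⟨k1.symm, k2⟩
    · obtain ⟨m, d, u, hd, hu0, hu1, a1, a2, a3⟩ := orient h1 g hs1
      obtain ⟨m', d', u', hd', hu0', hu1', b1, b2, b3⟩ := orient h2 g' ht1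
      obtain ⟨rfl, rfl, rfl⟩ := pos_inter hd hd' hu0 hu1 hu0' hu1' (a1.symm.trans (e1.trans b1))
        (a2.symm.trans (e2.trans b2))
      rcases a3 with ⟨c1, c2, c3⟩ | ⟨c1, c2, c3⟩ <;> rcases b3 with ⟨f1, f2, f3⟩ | ⟨f1, f2, f3⟩
      · left; exact ⟨c1.trans f1.symm, c3.trans f3.symm⟩
      · right; exact ⟨c1.trans f1.symm, c2.trans f2.symm⟩
      · right; exact ⟨c2.trans f2.symm, c1.trans f1.symm⟩
      · left; exact ⟨c2.trans f2.symm, c3.trans f3.symm⟩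

theorem abs_X_le (z : ℂ) : |X z| ≤ ‖z‖ := by
  have := Complex.abs_re_le_norm z
  unfold X
  rw [abs_mul, abs_of_pos (by norm_num : (0 : ℝ) < 2 / 3)]
  nlinarith [abs_nonneg z.re]

theorem abs_Y_le (z : ℂ) : |Y z| ≤ ‖z‖ := by
  have h1 := Complex.abs_re_le_norm z
  have h2 := Complex.abs_im_le_norm z
  have h3 := r3_lt
  have h4 := r3_pos
  unfold Y
  have h5 : |r3 / 3 * z.im - 1 / 3 * z.re| ≤ |r3 / 3 * z.im| + |1 / 3 * z.re| := abs_sub _ _
  rw [abs_mul, abs_mul, abs_of_pos (by norm_num : (0 : ℝ) < 1 / 3), abs_of_pos (by positivity : 0 < r3 / 3)] at h5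
  nlinarith [abs_nonneg z.re, abs_nonneg z.im]

theorem geo : Geo pt Adj 4 where
  fin := by
    intro R
    apply (Set.finite_Icc ((-⌈R⌉, -⌈R⌉) : ℤ × ℤ) (⌈R⌉, ⌈R⌉)).subset
    rintro ⟨a, b⟩ h
    have h1 : |(a : ℝ)| ≤ R := by
      have := (abs_X_le (pt (a, b))).trans h
      rwa [X_pt] at this
    have h2 : |(b : ℝ)| ≤ R := by
      have := (abs_Y_le (pt (a, b))).trans h
      rwa [Y_pt] at this
    rw [abs_le] at h1 h2
    have h3 := Int.le_ceil R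
    have k1 : a ≤ ⌈R⌉ := by exact_mod_cast h1.2.trans h3
    have k2 : -⌈R⌉ ≤ a := by
      have : -(⌈R⌉ : ℝ) ≤ a := by linarith [h1.1]
      exact_mod_cast this
    have k3 : b ≤ ⌈R⌉ := by exact_mod_cast h2.2.trans h3
    have k4 : -⌈R⌉ ≤ b := by
      have : -(⌈R⌉ : ℝ) ≤ b := by linarith [h2.1]
      exact_mod_cast this
    exact ⟨⟨k2, k4⟩, k1, k3⟩
  norm := by
    intro p q h
    have e : pt q - pt p = ((q.1 : ℝ) - p.1) • (1 + ζ) + ((q.2 : ℝ) - p.2) • (ζ + ζ - 1) := by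
      unfold pt; module
    have n1 : ‖(1 : ℂ) + ζ‖ ≤ 2 := by
      refine (norm_add_le _ _).trans ?_
      rw [norm_one, zeta_norm]; norm_num
    have n2 : ‖ζ + ζ - 1‖ ≤ 3 := by
      refine (norm_sub_le _ _).trans ?_
      have := norm_add_le ζ ζ
      rw [zeta_norm] at this
      rw [norm_one]; linarith
    have n3 : ‖(1 + ζ) - (ζ + ζ - 1)‖ ≤ 3 := by
      have : (1 + ζ) - (ζ + ζ - 1) = 2 - ζ := by ring
      rw [this]
      refine (norm_sub_le _ _).trans ?_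
      rw [zeta_norm]; norm_num
    rw [e]
    obtain ⟨a, b⟩ := p
    obtain ⟨a', b'⟩ := q
    simp only [Adj] at h
    rcases h with ⟨rfl, rfl⟩ | ⟨rfl, rfl⟩ | ⟨rfl, rfl⟩ | ⟨rfl, rfl⟩ | ⟨rfl, rfl⟩ | ⟨rfl, rfl⟩ <;> push_cast
    · have : ((a : ℝ) + 1 - a) • (1 + ζ) + ((b' : ℝ) - b') • (ζ + ζ - 1) = 1 + ζ := by
        rw [sub_self, zero_smul, add_sub_cancel_left, one_smul, add_zero]
      rw [this]; linarith
    · have : ((a : ℝ) - 1 - a) • (1 + ζ) + ((b' : ℝ) - b') • (ζ + ζ - 1) = -(1 + ζ) := by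
        rw [sub_self, zero_smul]; module
      rw [this, norm_neg]; linarith
    · have : ((a' : ℝ) - a') • (1 + ζ) + ((b : ℝ) + 1 - b) • (ζ + ζ - 1) = ζ + ζ - 1 := by
        rw [sub_self, zero_smul]; module
      rw [this]; linarith
    · have : ((a' : ℝ) - a') • (1 + ζ) + ((b : ℝ) - 1 - b) • (ζ + ζ - 1) = -(ζ + ζ - 1) := by
        rw [sub_self, zero_smul]; module
      rw [this, norm_neg]; linarith
    · have : ((a : ℝ) + 1 - a) • (1 + ζ) + ((b : ℝ) - 1 - b) • (ζ + ζ - 1) = (1 + ζ) - (ζ + ζ - 1) := by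
        module
      rw [this]; linarith
    · have : ((a : ℝ) - 1 - a) • (1 + ζ) + ((b : ℝ) + 1 - b) • (ζ + ζ - 1) = -((1 + ζ) - (ζ + ζ - 1)) := by
        module
      rw [this, norm_neg]; linarith
  inter := edge_inter

end Pool.Agent.R175.TriGeo
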