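import Mathlib
import Pool.Agent.R175.LatPath
import Pool.Agent.R175.GridTile
import Pool.Agent.R175.TriGeo

/-!
# The regular hexagon and the hexagonal tiling, marked with short diagonals
-/

set_option autoImplicit false

namespace Pool.Agent.R175.HexTile

open Set Pool.Agent.R175.LatPath Pool.Agent.R175.TriGeo Pool.Agent.R175.GridTile

/-- The regular hexagon whose vertices are the sixth roots of unity. -/
def hexagon : Set ℂ := convexHull ℝ {z : ℂ | z ^ 6 = 1}

theorem zeta3 : ζ * ζ * ζ = -1 := by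
  rw [zeta_sq, sub_mul, zeta_sq]; ring

theorem roots : {z : ℂ | z ^ 6 = 1} = {1, ζ, ζ - 1, -1, -ζ, 1 - ζ} := by
  ext z
  constructor
  · intro h
    change z ^ 6 = 1 at h
    have h2 : (z - 1) * ((z + 1) * ((z - ζ) * ((z + ζ) * ((z - (ζ - 1)) * (z + (ζ - 1)))))) = 0 := by
      linear_combination h + (-2 * z ^ 4 + (ζ * ζ - ζ + 1) * z ^ 2 - (ζ * ζ - ζ + 1) + 2) * zeta_sq
    rcases mul_eq_zero.1 h2 with h | h
    · left; linear_combination h
    · rcases mul_eq_zero.1 h with h | h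
      · right; right; right; left; linear_combination h
      · rcases mul_eq_zero.1 h with h | h
        · right; left; linear_combination h
        · rcases mul_eq_zero.1 h with h | h
          · right; right; right; right; left; linear_combination h
          · rcases mul_eq_zero.1 h with h | h
            · right; right; left; linear_combination h
            · right; right; right; right; right
              change z = 1 - ζ
              linear_combination h
  · have h6 : ζ ^ 6 = 1 := by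
      have : ζ ^ 6 = (ζ * ζ * ζ) * (ζ * ζ * ζ) := by ring
      rw [this, zeta3]; ring
    have h7 : (ζ - 1) ^ 6 = 1 := by
      rw [← zeta_sq]
      have : (ζ * ζ) ^ 6 = (ζ ^ 6) * (ζ ^ 6) := by ring
      rw [this, h6]; ring
    rintro (rfl | rfl | rfl | rfl | rfl | rfl)
    · change (1 : ℂ) ^ 6 = 1; ring
    · exact h6
    · exact h7
    · change (-1 : ℂ) ^ 6 = 1; ring
    · change (-ζ) ^ 6 = 1
      have : (-ζ) ^ 6 = ζ ^ 6 := by ring
      rw [this, h6]
    · change (1 - ζ) ^ 6 = 1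
      have : (1 - ζ) ^ 6 = (ζ - 1) ^ 6 := by ring
      rw [this, h7]

/-- The inequalities of the hexagon. -/
def ineq : Set ℂ := {z | (-1 ≤ X z - Y z ∧ X z - Y z ≤ 1) ∧ (-1 ≤ X z + 2 * Y z ∧ X z + 2 * Y z ≤ 1) ∧
  (-1 ≤ 2 * X z + Y z ∧ 2 * X z + Y z ≤ 1)}

theorem X_neg (z : ℂ) : X (-z) = -X z := by simp [X]
theorem Y_neg (z : ℂ) : Y (-z) = -Y z := by simp [Y]; ring

theorem three_mem {C : Set ℂ} (hC : Convex ℝ C) (h0 : (0 : ℂ) ∈ C) {v w : ℂ} (hv : v ∈ C) (hw : w ∈ C) {s t : ℝ}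
    (hs : 0 ≤ s) (ht : 0 ≤ t) (hst : s + t ≤ 1) : s • v + t • w ∈ C := by
  have e : s • v + t • w = ∑ i : Fin 3, (![s, t, 1 - s - t] i : ℝ) • (![v, w, 0] i : ℂ) := by
    rw [Fin.sum_univ_three]; simp
  rw [e]
  apply hC.sum_mem
  · intro i _
    fin_cases i <;> simp <;> linarith
  · rw [Fin.sum_univ_three]; simp
  · intro i _
    fin_cases i
    · exact hv
    · exact hw
    · exact h0

theorem hexagon_eq : hexagon = ineq := by
  apply Subset.antisymm
  · apply convexHull_min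
    · rw [roots]
      rintro z (rfl | rfl | rfl | rfl | rfl | rfl) <;> unfold ineq <;>
        simp only [mem_ofPred_eq, X_neg, Y_neg, X_sub, Y_sub, X_one, Y_one, X_zeta, Y_zeta] <;> norm_num
    · intro z hz w hw a b ha hb hab
      obtain ⟨⟨h1, h2⟩, ⟨h3, h4⟩, h5, h6⟩ := hz
      obtain ⟨⟨k1, k2⟩, ⟨k3, k4⟩, k5, k6⟩ := hw
      have : b = 1 - a := by linarith
      subst this
      unfold ineq
      simp only [mem_ofPred_eq, X_add, X_smul, Y_add, Y_smul]
      refine ⟨⟨?_, ?_⟩, ⟨?_, ?_⟩, ?_, ?_⟩ <;> nlinarith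
  · rintro z ⟨⟨h1, h2⟩, ⟨h3, h4⟩, h5, h6⟩
    have hC : Convex ℝ hexagon := convex_convexHull _ _
    have hv : ∀ w ∈ ({1, ζ, ζ - 1, -1, -ζ, 1 - ζ} : Set ℂ), w ∈ hexagon := by
      intro w hw
      apply subset_convexHull
      rw [roots]; exact hw
    have v1 : (1 : ℂ) ∈ hexagon := hv _ (by simp)
    have v2 : ζ ∈ hexagon := hv _ (by simp)
    have v3 : ζ - 1 ∈ hexagon := hv _ (by simp)
    have v4 : (-1 : ℂ) ∈ hexagon := hv _ (by simp)
    have v5 : -ζ ∈ hexagon := hv _ (by simp)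
    have v6 : 1 - ζ ∈ hexagon := hv _ (by simp)
    have v0 : (0 : ℂ) ∈ hexagon := by
      have := hC v1 v4 (by norm_num : (0 : ℝ) ≤ 1 / 2) (by norm_num : (0 : ℝ) ≤ 1 / 2) (by norm_num)
      have e : (1 / 2 : ℝ) • (1 : ℂ) + (1 / 2 : ℝ) • (-1 : ℂ) = 0 := by module
      rwa [e] at this
    generalize hx : X z = x at *
    generalize hy : Y z = y at *
    -- coordinates with respect to `1`, `ζ`
    rcases le_total 0 (x - y) with ha | ha <;> rcases le_total 0 (x + 2 * y) with hb | hb <;>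
      rcases le_total 0 (2 * x + y) with hc | hc
    · have e : z = (x - y) • (1 : ℂ) + (x + 2 * y) • ζ := by
        apply ext_XY
        · rw [X_add, X_smul, X_smul, X_one, X_zeta, hx]; ring
        · rw [Y_add, Y_smul, Y_smul, Y_one, Y_zeta, hy]; ring
      rw [e]; exact three_mem hC v0 v1 v2 ha hb (by linarith)
    · have e : z = (x - y) • (1 : ℂ) + (x + 2 * y) • ζ := by
        apply ext_XY
        · rw [X_add, X_smul, X_smul, X_one, X_zeta, hx]; ring
        · rw [Y_add, Y_smul, Y_smul, Y_one, Y_zeta, hy]; ring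
      rw [e]; exact three_mem hC v0 v1 v2 ha hb (by linarith)
    · have e : z = (-(x + 2 * y)) • (1 - ζ) + (2 * x + y) • (1 : ℂ) := by
        apply ext_XY
        · rw [X_add, X_smul, X_smul, X_sub, X_one, X_zeta, hx]; ring
        · rw [Y_add, Y_smul, Y_smul, Y_sub, Y_one, Y_zeta, hy]; ring
      rw [e]; exact three_mem hC v0 v6 v1 (by linarith) hc (by linarith)
    · have e : z = (x - y) • (1 - ζ) + (-(2 * x + y)) • (-ζ) := by
        apply ext_XY
        · rw [X_add, X_smul, X_smul, X_sub, X_neg, X_one, X_zeta, hx]; ring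
        · rw [Y_add, Y_smul, Y_smul, Y_sub, Y_neg, Y_one, Y_zeta, hy]; ring
      rw [e]; exact three_mem hC v0 v6 v5 ha (by linarith) (by linarith)
    · have e : z = (2 * x + y) • ζ + (-(x - y)) • (ζ - 1) := by
        apply ext_XY
        · rw [X_add, X_smul, X_smul, X_sub, X_one, X_zeta, hx]; ring
        · rw [Y_add, Y_smul, Y_smul, Y_sub, Y_one, Y_zeta, hy]; ring
      rw [e]; exact three_mem hC v0 v2 v3 hc (by linarith) (by linarith)
    · have e : z = (x + 2 * y) • (ζ - 1) + (-(2 * x + y)) • (-1 : ℂ) := by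
        apply ext_XY
        · rw [X_add, X_smul, X_smul, X_sub, X_neg, X_one, X_zeta, hx]; ring
        · rw [Y_add, Y_smul, Y_smul, Y_sub, Y_neg, Y_one, Y_zeta, hy]; ring
      rw [e]; exact three_mem hC v0 v3 v4 hb (by linarith) (by linarith)
    · have e : z = (-(x - y)) • (-1 : ℂ) + (-(x + 2 * y)) • (-ζ) := by
        apply ext_XY
        · rw [X_add, X_smul, X_smul, X_neg, X_neg, X_one, X_zeta, hx]; ring
        · rw [Y_add, Y_smul, Y_smul, Y_neg, Y_neg, Y_one, Y_zeta, hy]; ring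
      rw [e]; exact three_mem hC v0 v4 v5 (by linarith) (by linarith) (by linarith)
    · have e : z = (-(x - y)) • (-1 : ℂ) + (-(x + 2 * y)) • (-ζ) := by
        apply ext_XY
        · rw [X_add, X_smul, X_smul, X_neg, X_neg, X_one, X_zeta, hx]; ring
        · rw [Y_add, Y_smul, Y_smul, Y_neg, Y_neg, Y_one, Y_zeta, hy]; ring
      rw [e]; exact three_mem hC v0 v4 v5 (by linarith) (by linarith) (by linarith)

/-- The tile of the hexagonal tiling with lower left lattice point `p`. -/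
def tile (p : ℤ × ℤ) : Set ℂ := {z | z - (pt p + ζ) ∈ hexagon}

theorem rot_hexagon (u : ℂ) (hu : u ^ 6 = 1) : (fun z => u * z) '' hexagon = hexagon := by
  have hl : (fun z => u * z) '' hexagon = convexHull ℝ ((fun z => u * z) '' {z : ℂ | z ^ 6 = 1}) :=
    LinearMap.image_convexHull (LinearMap.mulLeft ℝ u) _
  rw [hl]
  have hu0 : u ≠ 0 := by rintro rfl; norm_num at hu
  have : (fun z => u * z) '' {z : ℂ | z ^ 6 = 1} = {z : ℂ | z ^ 6 = 1} := by
    ext z
    constructor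
    · rintro ⟨w, hw, rfl⟩
      change (u * w) ^ 6 = 1
      rw [mul_pow, hu, one_mul]; exact hw
    · intro hz
      refine ⟨z / u, ?_, by field_simp⟩
      change (z / u) ^ 6 = 1
      rw [div_pow, hu, div_one]; exact hz
  rw [this]; rfl

/-- The types of short diagonals. -/
inductive Dg
  | A
  | B
  | C
deriving DecidableEq

/-- The placement of the tile `p` that carries the diagonal from `-ζ` to `1` to the diagonal of the given
type. -/
noncomputable def place (p : ℤ × ℤ) : Dg → (ℂ ≃ᵢ ℂ)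
  | Dg.A => rt 1 (pt p + ζ) (by simp)
  | Dg.B => rt (-ζ) (pt p + ζ) (by rw [norm_neg, zeta_norm])
  | Dg.C => rt (ζ * ζ) (pt p + ζ) (by rw [norm_mul, zeta_norm, one_mul])

theorem rt_hexagon (u c : ℂ) (hu : ‖u‖ = 1) (h6 : u ^ 6 = 1) : rt u c hu '' hexagon = {z | z - c ∈ hexagon} := by
  ext z
  constructor
  · rintro ⟨w, hw, rfl⟩
    change u * w + c - c ∈ hexagon
    rw [add_sub_cancel_right, ← rot_hexagon u h6]
    exact ⟨w, hw, rfl⟩
  · intro hz
    change z - c ∈ hexagon at hz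
    rw [← rot_hexagon u h6] at hz
    obtain ⟨w, hw, he⟩ := hz
    refine ⟨w, hw, ?_⟩
    rw [rt_apply]
    dsimp only at he
    rw [he]; ring

theorem zeta6 : ζ ^ 6 = 1 := by
  have : ζ ∈ {z : ℂ | z ^ 6 = 1} := by rw [roots]; simp
  exact this

theorem place_hexagon (p : ℤ × ℤ) (s : Dg) : place p s '' hexagon = tile p := by
  cases s
  · exact rt_hexagon 1 (pt p + ζ) (by simp) (by ring)
  · exact rt_hexagon (-ζ) (pt p + ζ) (by rw [norm_neg, zeta_norm]) (by
      have : (-ζ) ^ 6 = ζ ^ 6 := by ring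
      rw [this, zeta6])
  · exact rt_hexagon (ζ * ζ) (pt p + ζ) (by rw [norm_mul, zeta_norm, one_mul]) (by
      have : (ζ * ζ) ^ 6 = ζ ^ 6 * ζ ^ 6 := by ring
      rw [this, zeta6]; ring)

/-- The marked diagonal of the hexagon. -/
def diag : Set ℂ := segment ℝ (-ζ) 1

theorem diag_sub : diag ⊆ hexagon := by
  apply (convex_convexHull ℝ _).segment_subset
  · apply subset_convexHull; rw [roots]; simp
  · apply subset_convexHull; rw [roots]; simp

theorem segment_arc {a b : ℂ} (hab : a ≠ b) : IsArc (segment ℝ a b) := by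
  refine ⟨fun t => a + (t : ℝ) • (b - a), ?_, ?_⟩
  · apply Topology.IsClosedEmbedding.isEmbedding
    apply Continuous.isClosedEmbedding
    · fun_prop
    · intro s t h
      have h1 : ((s : ℝ) - t) • (b - a) = 0 := by
        rw [sub_smul]
        linear_combination h
      rcases smul_eq_zero.1 h1 with h2 | h2
      · exact Subtype.ext (by linarith)
      · exact absurd (sub_eq_zero.1 h2).symm hab
  · ext z
    rw [segment_eq_image']
    constructor
    · rintro ⟨t, rfl⟩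
      exact ⟨t, t.2, rfl⟩
    · rintro ⟨t, ht, rfl⟩
      exact ⟨⟨t, ht⟩, rfl⟩

theorem diag_arc : IsArc diag := by
  apply segment_arc
  intro h
  have := congrArg Complex.re h
  simp [ζ] at this
  norm_num at this

/-- First end of the diagonal. -/
def e1 (p : ℤ × ℤ) : Dg → ℤ × ℤ
  | Dg.A => p
  | Dg.B => (p.1, p.2 + 1)
  | Dg.C => (p.1 + 1, p.2)

/-- Second end of the diagonal. -/
def e2 (p : ℤ × ℤ) : Dg → ℤ × ℤ
  | Dg.A => (p.1 + 1, p.2)
  | Dg.B => p
  | Dg.C => (p.1, p.2 + 1)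

theorem rt_diag (u c : ℂ) (hu : ‖u‖ = 1) : rt u c hu '' diag = segment ℝ (u * (-ζ) + c) (u + c) := by
  unfold diag
  rw [segment_eq_image', segment_eq_image', image_image]
  congr 1
  ext t
  rw [rt_apply]
  simp
  ring

theorem pt_add (p : ℤ × ℤ) : pt (p.1 + 1, p.2) = pt p + (1 + ζ) ∧ pt (p.1, p.2 + 1) = pt p + (ζ + ζ - 1) := by
  constructor
  · unfold pt; push_cast; module
  · unfold pt; push_cast; module

theorem place_diag (p : ℤ × ℤ) (s : Dg) : place p s '' diag = segment ℝ (pt (e1 p s)) (pt (e2 p s)) := by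
  have z2 := zeta_sq
  have z3 := zeta3
  cases s
  · refine (rt_diag 1 (pt p + ζ) (by simp)).trans ?_
    congr 1
    · change 1 * (-ζ) + (pt p + ζ) = pt p
      ring
    · change 1 + (pt p + ζ) = pt (p.1 + 1, p.2)
      rw [(pt_add p).1]; ring
  · refine (rt_diag (-ζ) (pt p + ζ) (by rw [norm_neg, zeta_norm])).trans ?_
    congr 1
    · change (-ζ) * (-ζ) + (pt p + ζ) = pt (p.1, p.2 + 1)
      rw [(pt_add p).2]
      linear_combination z2
    · change -ζ + (pt p + ζ) = pt p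
      ring
  · refine (rt_diag (ζ * ζ) (pt p + ζ) (by rw [norm_mul, zeta_norm, one_mul])).trans ?_
    congr 1
    · change (ζ * ζ) * (-ζ) + (pt p + ζ) = pt (p.1 + 1, p.2)
      rw [(pt_add p).1]
      linear_combination -z3
    · change (ζ * ζ) + (pt p + ζ) = pt (p.1, p.2 + 1)
      rw [(pt_add p).2]
      linear_combination z2

theorem union_marks (s : ℤ × ℤ → Dg) : ⋃ p, ⋃ m ∈ ({diag} : Set (Set ℂ)), place p (s p) '' m =
    ⋃ p, segment ℝ (pt (e1 p (s p))) (pt (e2 p (s p))) := by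
  apply iUnion_congr
  intro p
  rw [biUnion_singleton, place_diag]

/-! ### The tiling -/

theorem mem_tile (p : ℤ × ℤ) (z : ℂ) : z ∈ tile p ↔
    (-1 ≤ (X z - 1 / 3 - p.1) - (Y z - 1 / 3 - p.2) ∧ (X z - 1 / 3 - p.1) - (Y z - 1 / 3 - p.2) ≤ 1) ∧
    (-1 ≤ (X z - 1 / 3 - p.1) + 2 * (Y z - 1 / 3 - p.2) ∧ (X z - 1 / 3 - p.1) + 2 * (Y z - 1 / 3 - p.2) ≤ 1) ∧
    (-1 ≤ 2 * (X z - 1 / 3 - p.1) + (Y z - 1 / 3 - p.2) ∧ 2 * (X z - 1 / 3 - p.1) + (Y z - 1 / 3 - p.2) ≤ 1) := by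
  unfold tile
  rw [hexagon_eq]
  unfold ineq
  simp only [mem_ofPred_eq, X_sub, Y_sub, X_add, Y_add, X_pt, Y_pt, X_zeta, Y_zeta]
  have e1 : X z - (p.1 + 1 / 3) = X z - 1 / 3 - p.1 := by ring
  have e2 : Y z - (p.2 + 1 / 3) = Y z - 1 / 3 - p.2 := by ring
  rw [e1, e2]

theorem cover_aux (x y : ℝ) : ∃ m n : ℤ, (-1 ≤ (x - m) - (y - n) ∧ (x - m) - (y - n) ≤ 1) ∧
    (-1 ≤ (x - m) + 2 * (y - n) ∧ (x - m) + 2 * (y - n) ≤ 1) ∧
    (-1 ≤ 2 * (x - m) + (y - n) ∧ 2 * (x - m) + (y - n) ≤ 1) := by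
  have f0 := Int.floor_le x
  have f1 := Int.lt_floor_add_one x
  have g0 := Int.floor_le y
  have g1 := Int.lt_floor_add_one y
  generalize ⌊x⌋ = a at *
  generalize ⌊y⌋ = b at *
  rcases le_total (y - b) (x - a) with h | h
  · rcases le_total (2 * (x - a) + (y - b)) 1 with h1 | h1
    · exact ⟨a, b, ⟨by linarith, by linarith⟩, ⟨by linarith, by linarith⟩, by linarith, by linarith⟩
    · rcases le_total ((x - a) + 2 * (y - b)) 2 with h2 | h2
      · refine ⟨a + 1, b, ?_⟩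
        push_cast
        exact ⟨⟨by linarith, by linarith⟩, ⟨by linarith, by linarith⟩, by linarith, by linarith⟩
      · refine ⟨a + 1, b + 1, ?_⟩
        push_cast
        exact ⟨⟨by linarith, by linarith⟩, ⟨by linarith, by linarith⟩, by linarith, by linarith⟩
  · rcases le_total ((x - a) + 2 * (y - b)) 1 with h1 | h1
    · exact ⟨a, b, ⟨by linarith, by linarith⟩, ⟨by linarith, by linarith⟩, by linarith, by linarith⟩
    · rcases le_total (2 * (x - a) + (y - b)) 2 with h2 | h2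
      · refine ⟨a, b + 1, ?_⟩
        push_cast
        exact ⟨⟨by linarith, by linarith⟩, ⟨by linarith, by linarith⟩, by linarith, by linarith⟩
      · refine ⟨a + 1, b + 1, ?_⟩
        push_cast
        exact ⟨⟨by linarith, by linarith⟩, ⟨by linarith, by linarith⟩, by linarith, by linarith⟩

theorem tiles_cover : ⋃ p, tile p = univ := by
  rw [eq_univ_iff_forall]
  intro z
  rw [mem_iUnion]
  obtain ⟨m, n, h⟩ := cover_aux (X z - 1 / 3) (Y z - 1 / 3)
  exact ⟨(m, n), (mem_tile _ _).2 h⟩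

theorem exists_move {S : Set ℂ} {z : ℂ} (hz : z ∈ interior S) (v : ℂ) : ∃ t : ℝ, 0 < t ∧ z + t * v ∈ S := by
  rw [mem_interior_iff_mem_nhds] at hz
  have hc : Filter.Tendsto (fun t : ℝ => z + t * v) (nhds 0) (nhds z) := by
    have : Continuous (fun t : ℝ => z + t * v) := by fun_prop
    have := this.tendsto 0
    simpa using this
  have h := hc hz
  obtain ⟨ε, hε, hb⟩ := Metric.mem_nhds_iff.1 h
  refine ⟨ε / 2, by positivity, hb ?_⟩
  rw [Metric.mem_ball, dist_zero_right, Real.norm_of_nonneg (by positivity)]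
  linarith

theorem interior_tile {p : ℤ × ℤ} {z : ℂ} (hz : z ∈ interior (tile p)) :
    (-1 < (X z - 1 / 3 - p.1) - (Y z - 1 / 3 - p.2) ∧ (X z - 1 / 3 - p.1) - (Y z - 1 / 3 - p.2) < 1) ∧
    (-1 < (X z - 1 / 3 - p.1) + 2 * (Y z - 1 / 3 - p.2) ∧ (X z - 1 / 3 - p.1) + 2 * (Y z - 1 / 3 - p.2) < 1) ∧
    (-1 < 2 * (X z - 1 / 3 - p.1) + (Y z - 1 / 3 - p.2) ∧ 2 * (X z - 1 / 3 - p.1) + (Y z - 1 / 3 - p.2) < 1) := by
  have hr := r3_pos
  have hX1 : ∀ t : ℝ, X (z + t * 1) = X z + t * (2 / 3) := by intro t; simp [X]; ring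
  have hY1 : ∀ t : ℝ, Y (z + t * 1) = Y z - t * (1 / 3) := by intro t; simp [Y]; ring
  have hX2 : ∀ t : ℝ, X (z + t * (-1)) = X z - t * (2 / 3) := by intro t; simp [X]; ring
  have hY2 : ∀ t : ℝ, Y (z + t * (-1)) = Y z + t * (1 / 3) := by intro t; simp [Y]; ring
  have hX3 : ∀ t : ℝ, X (z + t * Complex.I) = X z := by intro t; simp [X]
  have hY3 : ∀ t : ℝ, Y (z + t * Complex.I) = Y z + t * (r3 / 3) := by intro t; simp [Y]; ring
  have hX4 : ∀ t : ℝ, X (z + t * (-Complex.I)) = X z := by intro t; simp [X]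
  have hY4 : ∀ t : ℝ, Y (z + t * (-Complex.I)) = Y z - t * (r3 / 3) := by intro t; simp [Y]; ring
  obtain ⟨t1, p1, q1⟩ := exists_move hz 1
  obtain ⟨t2, p2, q2⟩ := exists_move hz (-1)
  obtain ⟨t3, p3, q3⟩ := exists_move hz Complex.I
  obtain ⟨t4, p4, q4⟩ := exists_move hz (-Complex.I)
  rw [mem_tile, hX1, hY1] at q1
  rw [mem_tile, hX2, hY2] at q2
  rw [mem_tile, hX3, hY3] at q3
  rw [mem_tile, hX4, hY4] at q4
  obtain ⟨⟨a1, a2⟩, ⟨a3, a4⟩, a5, a6⟩ := q1
  obtain ⟨⟨b1, b2⟩, ⟨b3, b4⟩, b5, b6⟩ := q2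
  obtain ⟨⟨c1, c2⟩, ⟨c3, c4⟩, c5, c6⟩ := q3
  obtain ⟨⟨d1, d2⟩, ⟨d3, d4⟩, d5, d6⟩ := q4
  have w3 : 0 < t3 * (r3 / 3) := by positivity
  have w4 : 0 < t4 * (r3 / 3) := by positivity
  refine ⟨⟨?_, ?_⟩, ⟨?_, ?_⟩, ?_, ?_⟩ <;> linarith

theorem tiles_disjoint (p q : ℤ × ℤ) (h : p ≠ q) : Disjoint (interior (tile p)) (interior (tile q)) := by
  rw [disjoint_left]
  intro z hz hz'
  apply h
  obtain ⟨⟨a1, a2⟩, ⟨a3, a4⟩, a5, a6⟩ := interior_tile hz
  obtain ⟨⟨b1, b2⟩, ⟨b3, b4⟩, b5, b6⟩ := interior_tile hz'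
  have k1 : ((p.1 - q.1 - (p.2 - q.2) : ℤ) : ℝ) < 2 := by push_cast; linarith
  have k2 : (-2 : ℝ) < ((p.1 - q.1 - (p.2 - q.2) : ℤ) : ℝ) := by push_cast; linarith
  have k3 : ((p.1 - q.1 + 2 * (p.2 - q.2) : ℤ) : ℝ) < 2 := by push_cast; linarith
  have k4 : (-2 : ℝ) < ((p.1 - q.1 + 2 * (p.2 - q.2) : ℤ) : ℝ) := by push_cast; linarith
  have k5 : ((2 * (p.1 - q.1) + (p.2 - q.2) : ℤ) : ℝ) < 2 := by push_cast; linarith
  have k6 : (-2 : ℝ) < ((2 * (p.1 - q.1) + (p.2 - q.2) : ℤ) : ℝ) := by push_cast; linarith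
  have l1 : p.1 - q.1 - (p.2 - q.2) < 2 := by exact_mod_cast k1
  have l2 : -2 < p.1 - q.1 - (p.2 - q.2) := by exact_mod_cast k2
  have l3 : p.1 - q.1 + 2 * (p.2 - q.2) < 2 := by exact_mod_cast k3
  have l4 : -2 < p.1 - q.1 + 2 * (p.2 - q.2) := by exact_mod_cast k4
  have l5 : 2 * (p.1 - q.1) + (p.2 - q.2) < 2 := by exact_mod_cast k5
  have l6 : -2 < 2 * (p.1 - q.1) + (p.2 - q.2) := by exact_mod_cast k6
  apply Prod.ext <;> omega

theorem hexagon_finite : {z : ℂ | z ^ 6 = 1}.Finite := by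
  rw [roots]
  simp

theorem hexagon_compact : IsCompact hexagon := hexagon_finite.isCompact_convexHull ℝ

theorem hexagon_closed : IsClosed hexagon := hexagon_compact.isClosed

theorem hexagon_interior : (interior hexagon).Nonempty := by
  refine ⟨0, ?_⟩
  rw [mem_interior]
  refine ⟨Metric.ball 0 (1 / 3), ?_, Metric.isOpen_ball, Metric.mem_ball_self (by norm_num)⟩
  intro z hz
  rw [mem_ball_zero_iff] at hz
  have h1 := abs_le.1 (abs_X_le z)
  have h2 := abs_le.1 (abs_Y_le z)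
  rw [hexagon_eq]
  exact ⟨⟨by linarith, by linarith⟩, ⟨by linarith, by linarith⟩, by linarith, by linarith⟩

theorem hexagon_disk : Nonempty (hexagon ≃ₜ Metric.closedBall (0 : ℂ) 1) := by
  obtain ⟨h, -, h2, -⟩ := exists_homeomorph_image_interior_closure_frontier_eq_unitBall
    (convex_convexHull ℝ _) hexagon_interior hexagon_compact.isBounded
  change h '' closure hexagon = _ at h2
  rw [hexagon_closed.closure_eq] at h2
  exact ⟨(h.image _).trans (Homeomorph.setCongr h2)⟩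

end Pool.Agent.R175.HexTile
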