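import Mathlib
import Pool.Agent.R175.TriGeo
import Pool.Agent.R175.HexTile

/-!
# Regular triangles and hexagons with sides of length one
-/

set_option autoImplicit false

namespace Pool.Agent.R175.HexTri

open Set Pool.Agent.R175.TriGeo Pool.Agent.R175.HexTile

/-- The triangle with corners `a`, `a + u`, `a + ζ u` (counterclockwise), where `ζ = exp (π i / 3)`; it is
regular with sides of length one if `‖u‖ = 1`. -/
def tri (a u : ℂ) : Set ℂ := convexHull ℝ {a, a + u, a + ζ * u}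

/-- The hexagon whose first side is `[a, a + u]` and which lies to the left of this side, where
`ζ = exp (π i / 3)`; it is regular with sides of length one if `‖u‖ = 1`. -/
def hex (a u : ℂ) : Set ℂ :=
  convexHull ℝ {a, a + u, a + (1 + ζ) * u, a + 2 * ζ * u, a + (2 * ζ - 1) * u, a + (ζ - 1) * u}

/-- `T` is a regular triangle with sides of length one. -/
def IsTri (T : Set ℂ) : Prop := ∃ a u, ‖u‖ = 1 ∧ T = tri a u

/-- `T` is a regular hexagon with sides of length one. -/
def IsHex (T : Set ℂ) : Prop := ∃ a u, ‖u‖ = 1 ∧ T = hex a u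

/-- `v` is a corner of the tile `T`: listing the corners of `T` can start at `v`. -/
def IsCorner (T : Set ℂ) (v : ℂ) : Prop := ∃ u, ‖u‖ = 1 ∧ (T = tri v u ∨ T = hex v u)

/-- `e` is a side of the tile `T`: listing the corners of `T` can start with the side `e`. -/
def IsSide (T : Set ℂ) (e : Set ℂ) : Prop :=
  ∃ a u, ‖u‖ = 1 ∧ (T = tri a u ∨ T = hex a u) ∧ e = segment ℝ a (a + u)

/-! ### Coordinates -/

/-- First coordinate with respect to the basis `1`, `ζ`. -/
noncomputable def A (z : ℂ) : ℝ := X z - Y z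
/-- Second coordinate with respect to the basis `1`, `ζ`. -/
noncomputable def B (z : ℂ) : ℝ := X z + 2 * Y z

theorem A_add (z w : ℂ) : A (z + w) = A z + A w := by unfold A; rw [X_add, Y_add]; ring
theorem B_add (z w : ℂ) : B (z + w) = B z + B w := by unfold B; rw [X_add, Y_add]; ring
theorem A_sub (z w : ℂ) : A (z - w) = A z - A w := by unfold A; rw [X_sub, Y_sub]; ring
theorem B_sub (z w : ℂ) : B (z - w) = B z - B w := by unfold B; rw [X_sub, Y_sub]; ring
theorem A_neg (z : ℂ) : A (-z) = -A z := by unfold A; rw [X_neg, Y_neg]; ring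
theorem B_neg (z : ℂ) : B (-z) = -B z := by unfold B; rw [X_neg, Y_neg]; ring
theorem A_smul (c : ℝ) (z : ℂ) : A (c • z) = c * A z := by unfold A; rw [X_smul, Y_smul]; ring
theorem B_smul (c : ℝ) (z : ℂ) : B (c • z) = c * B z := by unfold B; rw [X_smul, Y_smul]; ring
theorem A_mul (c : ℝ) (z : ℂ) : A ((c : ℂ) * z) = c * A z := by rw [← A_smul, Complex.real_smul]
theorem B_mul (c : ℝ) (z : ℂ) : B ((c : ℂ) * z) = c * B z := by rw [← B_smul, Complex.real_smul]
theorem A_zero : A 0 = 0 := by simp [A, X, Y]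
theorem B_zero : B 0 = 0 := by simp [B, X, Y]
theorem A_one : A 1 = 1 := by unfold A; rw [X_one, Y_one]; norm_num
theorem B_one : B 1 = 0 := by unfold B; rw [X_one, Y_one]; norm_num
theorem A_zeta : A ζ = 0 := by unfold A; rw [X_zeta, Y_zeta]; norm_num
theorem B_zeta : B ζ = 1 := by unfold B; rw [X_zeta, Y_zeta]; norm_num

theorem ext_AB {z w : ℂ} (h1 : A z = A w) (h2 : B z = B w) : z = w := by
  unfold A at h1
  unfold B at h2
  exact ext_XY (by linarith) (by linarith)

theorem A_cont : Continuous A := by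
  unfold A X Y; fun_prop
theorem B_cont : Continuous B := by
  unfold B X Y; fun_prop

theorem zeta_ne : ζ ≠ 0 := by
  intro h
  have := zeta_norm
  rw [h] at this; simp at this

/-- The point with given coordinates. -/
theorem eq_of (z : ℂ) : z = (A z : ℂ) + (B z : ℂ) * ζ := by
  apply ext_AB
  · rw [A_add]
    have h1 : A ((A z : ℂ)) = A z := by
      have := A_mul (A z) 1
      rw [mul_one, A_one, mul_one] at this; exact this
    rw [h1, A_mul, A_zeta]; ring
  · rw [B_add]
    have h1 : B ((A z : ℂ)) = 0 := by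
      have := B_mul (A z) 1
      rw [mul_one, B_one, mul_zero] at this; exact this
    rw [h1, B_mul, B_zeta]; ring

theorem A_real (x : ℝ) : A (x : ℂ) = x := by
  have := A_mul x 1
  rw [mul_one, A_one, mul_one] at this; exact this
theorem B_real (x : ℝ) : B (x : ℂ) = 0 := by
  have := B_mul x 1
  rw [mul_one, B_one, mul_zero] at this; exact this

theorem A_zmul (z : ℂ) : A (ζ * z) = -B z := by
  conv_lhs => rw [eq_of z]
  have : ζ * ((A z : ℂ) + (B z : ℂ) * ζ) = (A z : ℂ) * ζ + (B z : ℂ) * (ζ - 1) := by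
    rw [← zeta_sq]; ring
  rw [this, A_add, A_mul, A_mul, A_sub, A_zeta, A_one]; ring
theorem B_zmul (z : ℂ) : B (ζ * z) = A z + B z := by
  conv_lhs => rw [eq_of z]
  have : ζ * ((A z : ℂ) + (B z : ℂ) * ζ) = (A z : ℂ) * ζ + (B z : ℂ) * (ζ - 1) := by
    rw [← zeta_sq]; ring
  rw [this, B_add, B_mul, B_mul, B_sub, B_zeta, B_one]; ring

theorem A_zdiv (z : ℂ) : A (z / ζ) = A z + B z := by
  have h : z = ζ * (z / ζ) := by field_simp [zeta_ne]
  have h1 := A_zmul (z / ζ)
  have h2 := B_zmul (z / ζ)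
  rw [← h] at h1 h2
  linarith
theorem B_zdiv (z : ℂ) : B (z / ζ) = -A z := by
  have h : z = ζ * (z / ζ) := by field_simp [zeta_ne]
  have h1 := A_zmul (z / ζ)
  rw [← h] at h1
  linarith

theorem A_ndiv (z w : ℂ) : A (z / (-w)) = -A (z / w) := by rw [div_neg, A_neg]
theorem B_ndiv (z w : ℂ) : B (z / (-w)) = -B (z / w) := by rw [div_neg, B_neg]
theorem A_zzdiv (z : ℂ) : A (z / (ζ * ζ)) = B z := by
  rw [← div_div, A_zdiv, A_zdiv, B_zdiv]; ring
theorem B_zzdiv (z : ℂ) : B (z / (ζ * ζ)) = -(A z + B z) := by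
  rw [← div_div, B_zdiv, A_zdiv]
theorem A_odiv (z : ℂ) : A (z / 1) = A z := by rw [div_one]
theorem B_odiv (z : ℂ) : B (z / 1) = B z := by rw [div_one]

/-! ### The tiles by inequalities -/

theorem combo {C : Set ℂ} (hC : Convex ℝ C) {x y : ℂ} (hx : x ∈ C) (hy : y ∈ C) {t : ℝ} (h0 : 0 ≤ t)
    (h1 : t ≤ 1) {z : ℂ} (hA : A z = (1 - t) * A x + t * A y) (hB : B z = (1 - t) * B x + t * B y) : z ∈ C := by
  have h := hC hx hy (by linarith : 0 ≤ 1 - t) h0 (by ring)
  have : z = (1 - t) • x + t • y := by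
    apply ext_AB
    · rw [A_add, A_smul, A_smul, hA]
    · rw [B_add, B_smul, B_smul, hB]
  rwa [this]

theorem half_convex (f : ℂ → ℝ) (hadd : ∀ z w, f (z + w) = f z + f w) (hs : ∀ (c : ℝ) z, f (c • z) = c * f z)
    (r : ℝ) : Convex ℝ {z | r ≤ f z} := by
  intro x hx y hy a b ha hb hab
  simp only [mem_ofPred_eq] at *
  rw [hadd, hs, hs]
  have : r = a * r + b * r := by rw [← add_mul, hab, one_mul]
  rw [this]
  have h1 := mul_le_mul_of_nonneg_left hx ha
  have h2 := mul_le_mul_of_nonneg_left hy hb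
  linarith

theorem tri0 : convexHull ℝ {(0 : ℂ), 1, ζ} = {w | 0 ≤ A w ∧ 0 ≤ B w ∧ A w + B w ≤ 1} := by
  apply Subset.antisymm
  · apply convexHull_min
    · rintro z (rfl | rfl | rfl)
      · simp [A_zero, B_zero]
      · simp [A_one, B_one]
      · simp [A_zeta, B_zeta]
    · have e : {w : ℂ | 0 ≤ A w ∧ 0 ≤ B w ∧ A w + B w ≤ 1} =
          {w | 0 ≤ A w} ∩ {w | 0 ≤ B w} ∩ {w | -1 ≤ -(A w + B w)} := by
        ext w; simp only [mem_ofPred_eq, mem_inter_iff]
        constructor
        · rintro ⟨h1, h2, h3⟩; exact ⟨⟨h1, h2⟩, by linarith⟩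
        · rintro ⟨⟨h1, h2⟩, h3⟩; exact ⟨h1, h2, by linarith⟩
      rw [e]
      refine ((half_convex A A_add A_smul 0).inter (half_convex B B_add B_smul 0)).inter
        (half_convex (fun w => -(A w + B w)) ?_ ?_ (-1))
      · intro z w; simp only [A_add, B_add]; ring
      · intro c z; simp only [A_smul, B_smul]; ring
  · rintro w ⟨h1, h2, h3⟩
    set K := convexHull ℝ {(0 : ℂ), 1, ζ} with hK
    have hc : Convex ℝ K := convex_convexHull ℝ _
    have m0 : (0 : ℂ) ∈ K := subset_convexHull ℝ _ (by simp)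
    have m1 : (1 : ℂ) ∈ K := subset_convexHull ℝ _ (by simp)
    have m2 : ζ ∈ K := subset_convexHull ℝ _ (by simp)
    have h := three_mem hc m0 m1 m2 h1 h2 h3
    convert h using 1
    apply ext_AB
    · rw [A_add, A_smul, A_smul, A_one, A_zeta]; ring
    · rw [B_add, B_smul, B_smul, B_one, B_zeta]; ring

theorem hex0 : convexHull ℝ {(0 : ℂ), 1, 1 + ζ, 2 * ζ, 2 * ζ - 1, ζ - 1} =
    {w | (-1 ≤ A w ∧ A w ≤ 1) ∧ (0 ≤ B w ∧ B w ≤ 2) ∧ (0 ≤ A w + B w ∧ A w + B w ≤ 2)} := by
  have e2 : (2 : ℂ) * ζ = ζ + ζ := by ring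
  apply Subset.antisymm
  · apply convexHull_min
    · rw [e2]
      rintro z (rfl | rfl | rfl | rfl | rfl | rfl) <;>
        simp only [mem_ofPred_eq, A_add, B_add, A_sub, B_sub, A_zero, B_zero, A_one, B_one, A_zeta, B_zeta] <;>
        norm_num
    · have e : {w : ℂ | (-1 ≤ A w ∧ A w ≤ 1) ∧ (0 ≤ B w ∧ B w ≤ 2) ∧ (0 ≤ A w + B w ∧ A w + B w ≤ 2)} =
          {w | -1 ≤ A w} ∩ {w | -1 ≤ -A w} ∩ {w | 0 ≤ B w} ∩ {w | -2 ≤ -B w} ∩ {w | 0 ≤ A w + B w} ∩
            {w | -2 ≤ -(A w + B w)} := by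
        ext w; simp only [mem_ofPred_eq, mem_inter_iff]
        constructor
        · rintro ⟨⟨h1, h2⟩, ⟨h3, h4⟩, ⟨h5, h6⟩⟩
          exact ⟨⟨⟨⟨⟨h1, by linarith⟩, h3⟩, by linarith⟩, h5⟩, by linarith⟩
        · rintro ⟨⟨⟨⟨⟨h1, h2⟩, h3⟩, h4⟩, h5⟩, h6⟩
          exact ⟨⟨h1, by linarith⟩, ⟨h3, by linarith⟩, ⟨h5, by linarith⟩⟩
      rw [e]
      refine (((((half_convex A A_add A_smul (-1)).inter (half_convex (fun w => -A w) ?_ ?_ (-1))).inter
        (half_convex B B_add B_smul 0)).inter (half_convex (fun w => -B w) ?_ ?_ (-2))).inter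
        (half_convex (fun w => A w + B w) ?_ ?_ 0)).inter (half_convex (fun w => -(A w + B w)) ?_ ?_ (-2))
      · intro z w; simp only [A_add]; ring
      · intro c z; simp only [A_smul]; ring
      · intro z w; simp only [B_add]; ring
      · intro c z; simp only [B_smul]; ring
      · intro z w; simp only [A_add, B_add]; ring
      · intro c z; simp only [A_smul, B_smul]; ring
      · intro z w; simp only [A_add, B_add]; ring
      · intro c z; simp only [A_smul, B_smul]; ring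
  · rintro w ⟨⟨h1, h2⟩, ⟨h3, h4⟩, ⟨h5, h6⟩⟩
    set K := convexHull ℝ {(0 : ℂ), 1, 1 + ζ, 2 * ζ, 2 * ζ - 1, ζ - 1} with hK
    have hc : Convex ℝ K := convex_convexHull ℝ _
    have m0 : (0 : ℂ) ∈ K := subset_convexHull ℝ _ (by simp)
    have m1 : (1 : ℂ) ∈ K := subset_convexHull ℝ _ (by simp)
    have m2 : 1 + ζ ∈ K := subset_convexHull ℝ _ (by simp)
    have m3 : 2 * ζ ∈ K := subset_convexHull ℝ _ (by simp)
    have m4 : 2 * ζ - 1 ∈ K := subset_convexHull ℝ _ (by simp)
    have m5 : ζ - 1 ∈ K := subset_convexHull ℝ _ (by simp)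
    rcases le_total (B w) 1 with hB | hB
    · -- lower half
      have p1 : (-(B w : ℂ) + (B w : ℂ) * ζ) ∈ K := by
        apply combo hc m0 m5 h3 hB
        · rw [A_add, A_neg, A_real, A_mul, A_zeta, A_zero, A_sub, A_zeta, A_one]; ring
        · rw [B_add, B_neg, B_real, B_mul, B_zeta, B_zero, B_sub, B_zeta, B_one]; ring
      have p2 : (1 + (B w : ℂ) * ζ) ∈ K := by
        apply combo hc m1 m2 h3 hB
        · rw [A_add, A_mul, A_zeta, A_one, A_add, A_zeta, A_one]; ring
        · rw [B_add, B_mul, B_zeta, B_one, B_add, B_zeta, B_one]; ring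
      have hpos : 0 < 1 + B w := by linarith
      apply combo hc p1 p2 (t := (A w + B w) / (1 + B w)) (by positivity)
        ((div_le_one hpos).2 (by linarith))
      · rw [A_add, A_neg, A_real, A_mul, A_zeta, A_add, A_one, A_mul, A_zeta]
        field_simp
        ring
      · rw [B_add, B_neg, B_real, B_mul, B_zeta, B_add, B_one, B_mul, B_zeta]
        field_simp
        ring
    · -- upper half
      have p1 : (-1 + (B w : ℂ) * ζ) ∈ K := by
        apply combo hc m5 m4 (t := B w - 1) (by linarith) (by linarith)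
        · rw [A_add, A_neg, A_one, A_mul, A_zeta, A_sub, A_zeta, A_one, e2, A_sub, A_add, A_zeta, A_one]; ring
        · rw [B_add, B_neg, B_one, B_mul, B_zeta, B_sub, B_zeta, B_one, e2, B_sub, B_add, B_zeta, B_one]; ring
      have p2 : ((2 - B w : ℝ) + (B w : ℂ) * ζ) ∈ K := by
        apply combo hc m2 m3 (t := B w - 1) (by linarith) (by linarith)
        · rw [A_add, A_mul, A_zeta, A_real, A_add, A_zeta, A_one, e2, A_add, A_zeta]; ring
        · rw [B_add, B_mul, B_zeta, B_real, B_add, B_zeta, B_one, e2, B_add, B_zeta]; ring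
      have hpos : 0 < 3 - B w := by linarith
      apply combo hc p1 p2 (t := (A w + 1) / (3 - B w)) (div_nonneg (by linarith) hpos.le)
        ((div_le_one hpos).2 (by linarith))
      · rw [A_add, A_neg, A_one, A_mul, A_zeta, A_add, A_real, A_mul, A_zeta]
        field_simp
        ring
      · rw [B_add, B_neg, B_one, B_mul, B_zeta, B_add, B_real, B_mul, B_zeta]
        field_simp
        ring

/-- The affine map `w ↦ a + w u`. -/
noncomputable def aff (a u : ℂ) : ℂ →ᵃ[ℝ] ℂ :=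
  (LinearMap.mulRight ℝ u).toAffineMap + AffineMap.const ℝ ℂ a

theorem aff_apply (a u w : ℂ) : aff a u w = a + w * u := by
  simp [aff]; ring

theorem mem_tri {a u : ℂ} (hu : u ≠ 0) (z : ℂ) :
    z ∈ tri a u ↔ 0 ≤ A ((z - a) / u) ∧ 0 ≤ B ((z - a) / u) ∧ A ((z - a) / u) + B ((z - a) / u) ≤ 1 := by
  have e : tri a u = aff a u '' convexHull ℝ {(0 : ℂ), 1, ζ} := by
    rw [AffineMap.image_convexHull]
    unfold tri
    congr 1
    simp only [image_insert_eq, image_singleton, aff_apply]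
    simp
  rw [e, tri0]
  constructor
  · rintro ⟨w, hw, rfl⟩
    have : (aff a u w - a) / u = w := by rw [aff_apply]; field_simp; ring
    rw [this]; exact hw
  · intro h
    refine ⟨(z - a) / u, h, ?_⟩
    rw [aff_apply]; field_simp; ring

theorem mem_hex {a u : ℂ} (hu : u ≠ 0) (z : ℂ) :
    z ∈ hex a u ↔ (-1 ≤ A ((z - a) / u) ∧ A ((z - a) / u) ≤ 1) ∧ (0 ≤ B ((z - a) / u) ∧ B ((z - a) / u) ≤ 2) ∧
      (0 ≤ A ((z - a) / u) + B ((z - a) / u) ∧ A ((z - a) / u) + B ((z - a) / u) ≤ 2) := by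
  have e : hex a u = aff a u '' convexHull ℝ {(0 : ℂ), 1, 1 + ζ, 2 * ζ, 2 * ζ - 1, ζ - 1} := by
    rw [AffineMap.image_convexHull]
    unfold hex
    congr 1
    simp only [image_insert_eq, image_singleton, aff_apply]
    simp
  rw [e, hex0]
  constructor
  · rintro ⟨w, hw, rfl⟩
    have : (aff a u w - a) / u = w := by rw [aff_apply]; field_simp; ring
    rw [this]; exact hw
  · intro h
    refine ⟨(z - a) / u, h, ?_⟩
    rw [aff_apply]; field_simp; ring

end Pool.Agent.R175.HexTri
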