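import Mathlib
import Pool.Agent.R175.HexTri
import Pool.Agent.R175.Disk

/-!
# A tiling of the plane by a chevron of eight unit triangles
-/

set_option autoImplicit false

namespace Pool.Agent.R175.Chevron

open Set Pool.Agent.R175.TriGeo Pool.Agent.R175.HexTile Pool.Agent.R175.HexTri

/-- The three orientations of the chevron. -/
def Sh : Fin 3 → Set ℂ
  | 0 => {z | (-1 ≤ B z ∧ B z ≤ 0 ∧ 0 ≤ A z + B z ∧ A z + B z ≤ 2) ∨
      (0 ≤ A z ∧ A z ≤ 1 ∧ -2 ≤ A z + B z ∧ A z + B z ≤ 0)}
  | 1 => {z | (-1 ≤ A z + B z ∧ A z + B z ≤ 0 ∧ 0 ≤ A z ∧ A z ≤ 2) ∨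
      (-1 ≤ B z ∧ B z ≤ 0 ∧ -2 ≤ A z ∧ A z ≤ 0)}
  | 2 => {z | (0 ≤ A z ∧ A z ≤ 1 ∧ 0 ≤ B z ∧ B z ≤ 2) ∨
      (0 ≤ A z + B z ∧ A z + B z ≤ 1 ∧ -2 ≤ B z ∧ B z ≤ 0)}

/-- The unit triangles of the three orientations. -/
def cells : Fin 3 → List (ℤ × ℤ × Bool)
  | 0 => [(0, -3, true), (0, -2, false), (0, -2, true), (0, -1, false), (0, -1, true), (1, -1, false),
      (1, -1, true), (2, -1, false)]
  | 1 => [(-2, -1, false), (-2, -1, true), (-1, -1, false), (-1, -1, true), (0, -2, true), (0, -1, false),
      (1, -3, true), (1, -2, false)]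
  | 2 => [(0, -1, true), (0, 0, false), (0, 0, true), (0, 1, false), (0, 1, true), (1, -2, true),
      (1, -1, false), (2, -2, false)]

/-- The closed unit triangle with index `c`. -/
def cell (c : ℤ × ℤ × Bool) : Set ℂ := {z | (c.1 : ℝ) ≤ A z ∧ A z ≤ c.1 + 1 ∧ (c.2.1 : ℝ) ≤ B z ∧
  B z ≤ c.2.1 + 1 ∧ (c.2.2 = false → A z + B z ≤ c.1 + c.2.1 + 1) ∧
  (c.2.2 = true → (c.1 : ℝ) + c.2.1 + 1 ≤ A z + B z)}

/-- The open unit triangle with index `c`. -/
def ocell (c : ℤ × ℤ × Bool) : Set ℂ := {z | (c.1 : ℝ) < A z ∧ A z < c.1 + 1 ∧ (c.2.1 : ℝ) < B z ∧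
  B z < c.2.1 + 1 ∧ (c.2.2 = false → A z + B z < c.1 + c.2.1 + 1) ∧
  (c.2.2 = true → (c.1 : ℝ) + c.2.1 + 1 < A z + B z)}

/-- The lattice point. -/
noncomputable def pt (x y : ℤ) : ℂ := (x : ℂ) + (y : ℂ) * ζ

theorem A_pt (x y : ℤ) : A (pt x y) = x := by
  unfold pt
  have h1 : A ((x : ℂ)) = x := by have := A_real (x : ℝ); push_cast at this; exact this
  have h2 : A ((y : ℂ) * ζ) = 0 := by
    have := A_mul (y : ℝ) ζ; push_cast at this; rw [this, A_zeta, mul_zero]
  rw [A_add, h1, h2, add_zero]
theorem B_pt (x y : ℤ) : B (pt x y) = y := by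
  unfold pt
  have h1 : B ((x : ℂ)) = 0 := by have := B_real (x : ℝ); push_cast at this; exact this
  have h2 : B ((y : ℂ) * ζ) = y := by
    have := B_mul (y : ℝ) ζ; push_cast at this; rw [this, B_zeta, mul_one]
  rw [B_add, h1, h2, zero_add]

/-- The tile of orientation `k` with offset `(x, y)`. -/
def tile (k : Fin 3) (x y : ℤ) : Set ℂ := {z | z - pt x y ∈ Sh k}

theorem cell_sub {k : Fin 3} {c : ℤ × ℤ × Bool} (hc : c ∈ cells k) {z : ℂ} (hz : z ∈ cell c) : z ∈ Sh k := by
  fin_cases k
  · simp only [cells, Fin.zero_eta, Fin.isValue] at hc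
    simp only [Sh, Fin.zero_eta, Fin.isValue, mem_ofPred_eq]
    simp only [List.mem_cons, List.not_mem_nil, or_false] at hc
    rcases hc with rfl | rfl | rfl | rfl | rfl | rfl | rfl | rfl <;>
      simp only [cell, mem_ofPred_eq, reduceCtorEq, false_implies, true_implies, true_and, and_true] at hz <;>
      push_cast at hz <;> obtain ⟨h1, h2, h3, h4, h5⟩ := hz
    · right; exact ⟨by linarith, by linarith, by linarith, by linarith⟩
    · right; exact ⟨by linarith, by linarith, by linarith, by linarith⟩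
    · right; exact ⟨by linarith, by linarith, by linarith, by linarith⟩
    · right; exact ⟨by linarith, by linarith, by linarith, by linarith⟩
    · left; exact ⟨by linarith, by linarith, by linarith, by linarith⟩
    · left; exact ⟨by linarith, by linarith, by linarith, by linarith⟩
    · left; exact ⟨by linarith, by linarith, by linarith, by linarith⟩
    · left; exact ⟨by linarith, by linarith, by linarith, by linarith⟩
  · simp only [cells, Fin.mk_one, Fin.isValue] at hc
    simp only [Sh, Fin.mk_one, Fin.isValue, mem_ofPred_eq]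
    simp only [List.mem_cons, List.not_mem_nil, or_false] at hc
    rcases hc with rfl | rfl | rfl | rfl | rfl | rfl | rfl | rfl <;>
      simp only [cell, mem_ofPred_eq, reduceCtorEq, false_implies, true_implies, true_and, and_true] at hz <;>
      push_cast at hz <;> obtain ⟨h1, h2, h3, h4, h5⟩ := hz
    · right; exact ⟨by linarith, by linarith, by linarith, by linarith⟩
    · right; exact ⟨by linarith, by linarith, by linarith, by linarith⟩
    · right; exact ⟨by linarith, by linarith, by linarith, by linarith⟩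
    · right; exact ⟨by linarith, by linarith, by linarith, by linarith⟩
    · left; exact ⟨by linarith, by linarith, by linarith, by linarith⟩
    · left; exact ⟨by linarith, by linarith, by linarith, by linarith⟩
    · left; exact ⟨by linarith, by linarith, by linarith, by linarith⟩
    · left; exact ⟨by linarith, by linarith, by linarith, by linarith⟩
  · simp only [cells, Fin.reduceFinMk, Fin.isValue] at hc
    simp only [Sh, Fin.reduceFinMk, Fin.isValue, mem_ofPred_eq]
    simp only [List.mem_cons, List.not_mem_nil, or_false] at hc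
    rcases hc with rfl | rfl | rfl | rfl | rfl | rfl | rfl | rfl <;>
      simp only [cell, mem_ofPred_eq, reduceCtorEq, false_implies, true_implies, true_and, and_true] at hz <;>
      push_cast at hz <;> obtain ⟨h1, h2, h3, h4, h5⟩ := hz
    · right; exact ⟨by linarith, by linarith, by linarith, by linarith⟩
    · left; exact ⟨by linarith, by linarith, by linarith, by linarith⟩
    · left; exact ⟨by linarith, by linarith, by linarith, by linarith⟩
    · left; exact ⟨by linarith, by linarith, by linarith, by linarith⟩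
    · left; exact ⟨by linarith, by linarith, by linarith, by linarith⟩
    · right; exact ⟨by linarith, by linarith, by linarith, by linarith⟩
    · right; exact ⟨by linarith, by linarith, by linarith, by linarith⟩
    · right; exact ⟨by linarith, by linarith, by linarith, by linarith⟩

/-- An open triangle that meets a chevron is one of its triangles. -/
theorem ocell_mem {k : Fin 3} {i j : ℤ} {b : Bool} {z : ℂ} (hz : z ∈ ocell (i, j, b)) (hk : z ∈ Sh k) :
    (i, j, b) ∈ cells k := by
  obtain ⟨h1, h2, h3, h4, h5, h6⟩ := hz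
  simp only at h1 h2 h3 h4 h5 h6
  have key : ∀ {p q : ℤ} {x : ℝ}, (p : ℝ) < x → x ≤ q → p < q := by
    intro p q x hp hq
    have : (p : ℝ) < q := lt_of_lt_of_le hp hq
    exact_mod_cast this
  have key' : ∀ {p q : ℤ} {x : ℝ}, (p : ℝ) ≤ x → x < q → p < q := by
    intro p q x hp hq
    have : (p : ℝ) < q := lt_of_le_of_lt hp hq
    exact_mod_cast this
  have h7 : b = false → ((i + j : ℤ) : ℝ) < A z + B z ∧ A z + B z < ((i + j + 1 : ℤ) : ℝ) := by
    intro hb
    have := h5 hb
    push_cast
    exact ⟨by linarith, by linarith⟩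
  have h8 : b = true → ((i + j + 1 : ℤ) : ℝ) < A z + B z ∧ A z + B z < ((i + j + 2 : ℤ) : ℝ) := by
    intro hb
    have := h6 hb
    push_cast
    exact ⟨by linarith, by linarith⟩
  have h2' : A z < ((i + 1 : ℤ) : ℝ) := by push_cast; exact h2
  have h4' : B z < ((j + 1 : ℤ) : ℝ) := by push_cast; exact h4
  fin_cases k
  · simp only [Sh, Fin.zero_eta, Fin.isValue, mem_ofPred_eq] at hk
    simp only [cells, Fin.zero_eta, Fin.isValue]
    simp only [List.mem_cons, Prod.mk.injEq, List.not_mem_nil, or_false]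
    rcases hk with ⟨g1, g2, g3, g4⟩ | ⟨g1, g2, g3, g4⟩
    · have a1 : (-1 : ℤ) < j + 1 := key' (x := B z) (by push_cast; linarith) h4'
      have a2 : j < (0 : ℤ) := key h3 (by push_cast; linarith)
      cases b
      · obtain ⟨e1, e2⟩ := h7 rfl
        have a3 : (0 : ℤ) < i + j + 1 := key' (x := A z + B z) (by push_cast; linarith) e2
        have a4 : i + j < (2 : ℤ) := key e1 (by push_cast; linarith)
        simp only [reduceCtorEq, and_false, and_true, false_or, or_false]
        omega
      · obtain ⟨e1, e2⟩ := h8 rfl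
        have a3 : (0 : ℤ) < i + j + 2 := key' (x := A z + B z) (by push_cast; linarith) e2
        have a4 : i + j + 1 < (2 : ℤ) := key e1 (by push_cast; linarith)
        simp only [reduceCtorEq, and_false, and_true, false_or, or_false]
        omega
    · have a1 : (0 : ℤ) < i + 1 := key' (x := A z) (by push_cast; linarith) h2'
      have a2 : i < (1 : ℤ) := key h1 (by push_cast; linarith)
      cases b
      · obtain ⟨e1, e2⟩ := h7 rfl
        have a3 : (-2 : ℤ) < i + j + 1 := key' (x := A z + B z) (by push_cast; linarith) e2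
        have a4 : i + j < (0 : ℤ) := key e1 (by push_cast; linarith)
        simp only [reduceCtorEq, and_false, and_true, false_or, or_false]
        omega
      · obtain ⟨e1, e2⟩ := h8 rfl
        have a3 : (-2 : ℤ) < i + j + 2 := key' (x := A z + B z) (by push_cast; linarith) e2
        have a4 : i + j + 1 < (0 : ℤ) := key e1 (by push_cast; linarith)
        simp only [reduceCtorEq, and_false, and_true, false_or, or_false]
        omega
  · simp only [Sh, Fin.mk_one, Fin.isValue, mem_ofPred_eq] at hk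
    simp only [cells, Fin.mk_one, Fin.isValue]
    simp only [List.mem_cons, Prod.mk.injEq, List.not_mem_nil, or_false]
    rcases hk with ⟨g1, g2, g3, g4⟩ | ⟨g1, g2, g3, g4⟩
    · have a1 : (0 : ℤ) < i + 1 := key' (x := A z) (by push_cast; linarith) h2'
      have a2 : i < (2 : ℤ) := key h1 (by push_cast; linarith)
      cases b
      · obtain ⟨e1, e2⟩ := h7 rfl
        have a3 : (-1 : ℤ) < i + j + 1 := key' (x := A z + B z) (by push_cast; linarith) e2
        have a4 : i + j < (0 : ℤ) := key e1 (by push_cast; linarith)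
        simp only [reduceCtorEq, and_false, and_true, false_or, or_false]
        omega
      · obtain ⟨e1, e2⟩ := h8 rfl
        have a3 : (-1 : ℤ) < i + j + 2 := key' (x := A z + B z) (by push_cast; linarith) e2
        have a4 : i + j + 1 < (0 : ℤ) := key e1 (by push_cast; linarith)
        simp only [reduceCtorEq, and_false, and_true, false_or, or_false]
        omega
    · have a1 : (-2 : ℤ) < i + 1 := key' (x := A z) (by push_cast; linarith) h2'
      have a2 : i < (0 : ℤ) := key h1 (by push_cast; linarith)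
      have a3 : (-1 : ℤ) < j + 1 := key' (x := B z) (by push_cast; linarith) h4'
      have a4 : j < (0 : ℤ) := key h3 (by push_cast; linarith)
      cases b
      · simp only [reduceCtorEq, and_false, and_true, false_or, or_false]
        omega
      · simp only [reduceCtorEq, and_false, and_true, false_or, or_false]
        omega
  · simp only [Sh, Fin.reduceFinMk, Fin.isValue, mem_ofPred_eq] at hk
    simp only [cells, Fin.reduceFinMk, Fin.isValue]
    simp only [List.mem_cons, Prod.mk.injEq, List.not_mem_nil, or_false]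
    rcases hk with ⟨g1, g2, g3, g4⟩ | ⟨g1, g2, g3, g4⟩
    · have a1 : (0 : ℤ) < i + 1 := key' (x := A z) (by push_cast; linarith) h2'
      have a2 : i < (1 : ℤ) := key h1 (by push_cast; linarith)
      have a3 : (0 : ℤ) < j + 1 := key' (x := B z) (by push_cast; linarith) h4'
      have a4 : j < (2 : ℤ) := key h3 (by push_cast; linarith)
      cases b
      · simp only [reduceCtorEq, and_false, and_true, false_or, or_false]
        omega
      · simp only [reduceCtorEq, and_false, and_true, false_or, or_false]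
        omega
    · have a1 : (-2 : ℤ) < j + 1 := key' (x := B z) (by push_cast; linarith) h4'
      have a2 : j < (0 : ℤ) := key h3 (by push_cast; linarith)
      cases b
      · obtain ⟨e1, e2⟩ := h7 rfl
        have a3 : (0 : ℤ) < i + j + 1 := key' (x := A z + B z) (by push_cast; linarith) e2
        have a4 : i + j < (1 : ℤ) := key e1 (by push_cast; linarith)
        simp only [reduceCtorEq, and_false, and_true, false_or, or_false]
        omega
      · obtain ⟨e1, e2⟩ := h8 rfl
        have a3 : (0 : ℤ) < i + j + 2 := key' (x := A z + B z) (by push_cast; linarith) e2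
        have a4 : i + j + 1 < (1 : ℤ) := key e1 (by push_cast; linarith)
        simp only [reduceCtorEq, and_false, and_true, false_or, or_false]
        omega

/-! ### The tiling -/

/-- Orientations of the ten tiles of a period. -/
def sh : Fin 10 → Fin 3 := ![0, 0, 0, 0, 0, 0, 1, 1, 2, 2]
/-- Offsets of the ten tiles of a period. -/
def ox : Fin 10 → ℤ := ![0, 5, 6, 7, 4, 9, 2, 2, 2, 3]
/-- Offsets of the ten tiles of a period. -/
def oy : Fin 10 → ℤ := ![0, 3, 2, 1, 0, 3, 1, 2, 2, 2]

/-- The tile with index `k` in the period `(m, n)`. -/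
def T (k : Fin 10) (m n : ℤ) : Set ℂ := tile (sh k) (ox k + 10 * m + 4 * n) (oy k + 4 * n)

/-- The tiling. -/
def tiling : Set (Set ℂ) := {S | ∃ k m n, S = T k m n}

theorem exists_table : ∀ (r : Fin 10) (s : Fin 4) (b : Bool), ∃ (k : Fin 10) (m n : Fin 5),
    (((r : ℕ) : ℤ) - (ox k + 10 * (((m : ℕ) : ℤ) - 2) + 4 * (((n : ℕ) : ℤ) - 2)),
      ((s : ℕ) : ℤ) - (oy k + 4 * (((n : ℕ) : ℤ) - 2)), b) ∈ cells (sh k) := by
  decide +kernel

theorem unique_table : ∀ k k' : Fin 10, ∀ c ∈ cells (sh k), ∀ c' ∈ cells (sh k'), c.2.2 = c'.2.2 →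
    (c.2.1 + oy k - c'.2.1 - oy k') % 4 = 0 →
    ((c.1 + ox k - c'.1 - ox k') - (c.2.1 + oy k - c'.2.1 - oy k')) % 10 = 0 → k = k' ∧ c = c' := by
  decide +kernel

theorem exists_tile (i j : ℤ) (b : Bool) : ∃ k m n, (i - (ox k + 10 * m + 4 * n), j - (oy k + 4 * n), b) ∈
    cells (sh k) := by
  have hs0 : 0 ≤ j % 4 := Int.emod_nonneg _ (by norm_num)
  have hs1 : j % 4 < 4 := Int.emod_lt_of_pos _ (by norm_num)
  have hr0 : 0 ≤ (i - 4 * (j / 4)) % 10 := Int.emod_nonneg _ (by norm_num)
  have hr1 : (i - 4 * (j / 4)) % 10 < 10 := Int.emod_lt_of_pos _ (by norm_num)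
  obtain ⟨k, m, n, h⟩ := exists_table ⟨((i - 4 * (j / 4)) % 10).toNat, by omega⟩ ⟨(j % 4).toNat, by omega⟩ b
  refine ⟨k, (((m : ℕ) : ℤ) - 2) + (i - 4 * (j / 4)) / 10, (((n : ℕ) : ℤ) - 2) + j / 4, ?_⟩
  convert h using 2
  · simp only [Int.toNat_of_nonneg hr0]
    omega
  · simp only [Int.toNat_of_nonneg hs0]
    congr 1
    omega

theorem unique_tile {i j : ℤ} {b : Bool} {k k' : Fin 10} {m n m' n' : ℤ}
    (h : (i - (ox k + 10 * m + 4 * n), j - (oy k + 4 * n), b) ∈ cells (sh k))
    (h' : (i - (ox k' + 10 * m' + 4 * n'), j - (oy k' + 4 * n'), b) ∈ cells (sh k')) :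
    k = k' ∧ m = m' ∧ n = n' := by
  obtain ⟨h1, h2⟩ := unique_table k k' _ h _ h' rfl (by simp only; omega) (by simp only; omega)
  subst h1
  simp only [Prod.mk.injEq, and_true] at h2
  refine ⟨rfl, ?_, ?_⟩ <;> omega

theorem exists_cell (z : ℂ) : ∃ i j b, z ∈ cell (i, j, b) := by
  by_cases h : A z + B z ≤ (⌊A z⌋ : ℝ) + ⌊B z⌋ + 1
  · refine ⟨⌊A z⌋, ⌊B z⌋, false, Int.floor_le _, (Int.lt_floor_add_one _).le, Int.floor_le _,
      (Int.lt_floor_add_one _).le, fun _ => h, fun h => by simp at h⟩
  · refine ⟨⌊A z⌋, ⌊B z⌋, true, Int.floor_le _, (Int.lt_floor_add_one _).le, Int.floor_le _,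
      (Int.lt_floor_add_one _).le, fun h => by simp at h, fun _ => (not_le.1 h).le⟩

theorem shift_cell {i j x y : ℤ} {b : Bool} {z : ℂ} :
    z ∈ cell (i, j, b) ↔ z - pt x y ∈ cell (i - x, j - y, b) := by
  simp only [cell, mem_ofPred_eq, A_sub, B_sub, A_pt, B_pt]
  push_cast
  constructor
  · rintro ⟨h1, h2, h3, h4, h5, h6⟩
    exact ⟨by linarith, by linarith, by linarith, by linarith, fun h => by have := h5 h; linarith,
      fun h => by have := h6 h; linarith⟩
  · rintro ⟨h1, h2, h3, h4, h5, h6⟩
    exact ⟨by linarith, by linarith, by linarith, by linarith, fun h => by have := h5 h; linarith,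
      fun h => by have := h6 h; linarith⟩

theorem shift_ocell {i j x y : ℤ} {b : Bool} {z : ℂ} :
    z ∈ ocell (i, j, b) ↔ z - pt x y ∈ ocell (i - x, j - y, b) := by
  simp only [ocell, mem_ofPred_eq, A_sub, B_sub, A_pt, B_pt]
  push_cast
  constructor
  · rintro ⟨h1, h2, h3, h4, h5, h6⟩
    exact ⟨by linarith, by linarith, by linarith, by linarith, fun h => by have := h5 h; linarith,
      fun h => by have := h6 h; linarith⟩
  · rintro ⟨h1, h2, h3, h4, h5, h6⟩
    exact ⟨by linarith, by linarith, by linarith, by linarith, fun h => by have := h5 h; linarith,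
      fun h => by have := h6 h; linarith⟩

theorem tiling_cover : ⋃₀ tiling = univ := by
  rw [eq_univ_iff_forall]
  intro z
  obtain ⟨i, j, b, hz⟩ := exists_cell z
  obtain ⟨k, m, n, h⟩ := exists_tile i j b
  refine ⟨T k m n, ⟨k, m, n, rfl⟩, ?_⟩
  exact cell_sub h (shift_cell.1 hz)

/-- A tile that meets an open triangle contains it. -/
theorem tile_ocell {i j : ℤ} {b : Bool} {z : ℂ} (hz : z ∈ ocell (i, j, b)) {k : Fin 10} {m n : ℤ}
    (h : z ∈ T k m n) : (i - (ox k + 10 * m + 4 * n), j - (oy k + 4 * n), b) ∈ cells (sh k) :=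
  ocell_mem (shift_ocell.1 hz) h

theorem tile_unique {i j : ℤ} {b : Bool} {z : ℂ} (hz : z ∈ ocell (i, j, b)) {k k' : Fin 10} {m n m' n' : ℤ}
    (h : z ∈ T k m n) (h' : z ∈ T k' m' n') : T k m n = T k' m' n' := by
  obtain ⟨h1, h2, h3⟩ := unique_tile (tile_ocell hz h) (tile_ocell hz h')
  rw [h1, h2, h3]

/-- Every open set meets an open triangle. -/
theorem open_meets {U : Set ℂ} (hU : IsOpen U) (hne : U.Nonempty) : ∃ z ∈ U, ∃ i j b, z ∈ ocell (i, j, b) := by
  obtain ⟨z, hz⟩ := hne
  -- move slightly to the inside of the triangle of `z`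
  obtain ⟨i, j, b, hc⟩ := exists_cell z
  -- the centre of the triangle
  let t : ℝ := if b then 2 / 3 else 1 / 3
  let w : ℂ := (((i : ℝ) + t : ℝ) : ℂ) + (((j : ℝ) + t : ℝ) : ℂ) * ζ
  have hwA : A w = i + t := by
    simp only [w]; rw [A_add, A_real, A_mul, A_zeta]; ring
  have hwB : B w = j + t := by
    simp only [w]; rw [B_add, B_real, B_mul, B_zeta]; ring
  have hc2 : Continuous fun s : ℝ => z + (s : ℂ) * (w - z) := by fun_prop
  have hopen := hU.preimage hc2
  have h0 : (0 : ℝ) ∈ (fun s : ℝ => z + (s : ℂ) * (w - z)) ⁻¹' U := by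
    simp only [mem_preimage, Complex.ofReal_zero, zero_mul, add_zero]; exact hz
  obtain ⟨ε, hε, hb⟩ := Metric.isOpen_iff.1 hopen 0 h0
  set s := min (ε / 2) (1 / 2) with hs
  have s0 : 0 < s := by rw [hs]; positivity
  have s1 : s ≤ 1 / 2 := min_le_right _ _
  refine ⟨z + (s : ℂ) * (w - z), ?_, i, j, b, ?_⟩
  · apply hb
    rw [Metric.mem_ball, dist_zero_right, Real.norm_eq_abs, abs_of_pos s0]
    exact lt_of_le_of_lt (min_le_left _ _) (by linarith)
  · obtain ⟨h1, h2, h3, h4, h5, h6⟩ := hc
    simp only at h1 h2 h3 h4 h5 h6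
    have eA : A (z + (s : ℂ) * (w - z)) = A z + s * (i + t - A z) := by
      rw [A_add, A_mul, A_sub, hwA]
    have eB : B (z + (s : ℂ) * (w - z)) = B z + s * (j + t - B z) := by
      rw [B_add, B_mul, B_sub, hwB]
    simp only [ocell, mem_ofPred_eq, eA, eB]
    cases b
    · have ht : t = 1 / 3 := by simp [t]
      rw [ht]
      have := h5 rfl
      refine ⟨by nlinarith, by nlinarith, by nlinarith, by nlinarith, fun _ => by nlinarith, fun h => by simp at h⟩
    · have ht : t = 2 / 3 := by simp [t]
      rw [ht]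
      have := h6 rfl
      refine ⟨by nlinarith, by nlinarith, by nlinarith, by nlinarith, fun h => by simp at h, fun _ => by nlinarith⟩

theorem tiling_disjoint : tiling.Pairwise (fun S S' => Disjoint (interior S) (interior S')) := by
  rintro S ⟨k, m, n, rfl⟩ S' ⟨k', m', n', rfl⟩ hne
  rw [Set.disjoint_iff_inter_eq_empty]
  by_contra h
  obtain ⟨z, hz, i, j, b, hc⟩ := open_meets (isOpen_interior.inter isOpen_interior)
    (nonempty_iff_ne_empty.2 h)
  exact hne (tile_unique hc (interior_subset hz.1) (interior_subset hz.2))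

end Pool.Agent.R175.Chevron
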