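import Mathlib

/-!
# A set that contains the frontier of a convex body but not a given interior point is not simply connected
-/

set_option autoImplicit false

namespace Pool.Agent.R175.Hole

open Set

/-- If `N` contains the frontier of the convex body `Q` and misses an interior point of `Q`, then `N` is not
simply connected. -/
theorem not_simply {N Q : Set ℂ} {x₀ : ℂ} (hQ : Convex ℝ Q) (hQc : IsCompact Q) (h0 : x₀ ∈ interior Q)
    (hfr : frontier Q ⊆ N) (hx : x₀ ∉ N) : ¬ IsSimplyConnected N := by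
  intro hs
  have := hs.simplyConnectedSpace
  set Q₀ : Set ℂ := (fun z => -x₀ + z) '' Q with hQ₀
  have hn : Q₀ ∈ nhds (0 : ℂ) := by
    rw [← mem_interior_iff_mem_nhds]
    have h1 : interior Q₀ = (fun z => -x₀ + z) '' interior Q :=
      ((Homeomorph.addLeft (-x₀)).image_interior Q).symm
    rw [h1]
    exact ⟨x₀, h0, by simp⟩
  have hc₀ : Convex ℝ Q₀ := hQ.translate (-x₀)
  have hk₀ : IsCompact Q₀ := hQc.image (by fun_prop)
  have hb₀ := NormedSpace.isVonNBounded_of_isBounded ℝ hk₀.isBounded
  -- the radial function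
  let E : ℝ → ℂ := fun t => Complex.exp ((2 * Real.pi * t : ℝ) * Complex.I)
  have hEc : Continuous E := by
    have : Continuous fun t : ℝ => (((2 * Real.pi * t : ℝ) : ℂ) * Complex.I) := by fun_prop
    exact Complex.continuous_exp.comp this
  have hE0 : E 0 = 1 := by simp [E]
  have hE1 : E 1 = 1 := by
    have : (((2 * Real.pi * (1 : ℝ) : ℝ) : ℂ) * Complex.I) = 2 * Real.pi * Complex.I := by push_cast; ring
    simp only [E]
    rw [this, Complex.exp_two_pi_mul_I]
  let g : ℝ → ℝ := fun t => gauge Q₀ (E t)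
  have hgc : Continuous g := (continuous_gauge hc₀ hn).comp hEc
  have hgpos : ∀ t, 0 < g t := by
    intro t
    exact (gauge_pos (absorbent_nhds_zero hn) hb₀).2 (Complex.exp_ne_zero _)
  have hg01 : g 1 = g 0 := by simp only [g]; rw [hE0, hE1]
  let c : ℝ → ℂ := fun t => x₀ + ((g t)⁻¹ : ℝ) • E t
  have hcc : Continuous c := continuous_const.add ((hgc.inv₀ fun t => (hgpos t).ne').smul hEc)
  have hcN : ∀ t, c t ∈ N := by
    intro t
    apply hfr
    have h1 : gauge Q₀ (((g t)⁻¹ : ℝ) • E t) = 1 := by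
      rw [gauge_smul_of_nonneg (inv_nonneg.2 (hgpos t).le)]
      exact inv_mul_cancel₀ (hgpos t).ne'
    rw [gauge_eq_one_iff_mem_frontier hc₀ hn] at h1
    have h2 : frontier Q₀ = (fun z => -x₀ + z) '' frontier Q :=
      ((Homeomorph.addLeft (-x₀)).image_frontier Q).symm
    rw [h2] at h1
    obtain ⟨z, hz, hz'⟩ := h1
    have : c t = z := by
      simp only [c]
      rw [← hz']; ring
    rw [this]; exact hz
  have hc01 : c 1 = c 0 := by simp only [c]; rw [hg01, hE0, hE1]
  let y : N := ⟨c 0, hcN 0⟩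
  let γ : Path y y :=
    { toFun := fun t => ⟨c t, hcN t⟩
      continuous_toFun := Continuous.subtype_mk (hcc.comp continuous_subtype_val) _
      source' := by simp [y]
      target' := by
        apply Subtype.ext
        simp only [y]
        change c ((1 : unitInterval) : ℝ) = c 0
        rw [show ((1 : unitInterval) : ℝ) = 1 from rfl, hc01] }
  have hhom : Path.Homotopic γ (Path.refl y) := SimplyConnectedSpace.paths_homotopic _ _
  -- the map to the punctured plane
  have hne : ∀ z : N, (z : ℂ) - x₀ ≠ 0 := by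
    intro z h
    apply hx
    rw [← sub_eq_zero.1 h]; exact z.2
  let φ : C(N, {z : ℂ // z ≠ 0}) :=
    ⟨fun z => ⟨(z : ℂ) - x₀, hne z⟩, Continuous.subtype_mk (by fun_prop) _⟩
  have cov := Complex.isCoveringMap_exp
  have hrel : ContinuousMap.HomotopicRel (φ.comp γ.toContinuousMap) (φ.comp (Path.refl y).toContinuousMap)
      {0, 1} := by
    obtain ⟨F⟩ := hhom
    exact ⟨F.compContinuousMap φ⟩
  let e : ℂ := ((-Real.log (g 0) : ℝ) : ℂ)
  have hexp : ∀ t : ℝ, Complex.exp (((-Real.log (g t) : ℝ) : ℂ) + ((2 * Real.pi * t : ℝ) : ℂ) * Complex.I) =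
      c t - x₀ := by
    intro t
    rw [Complex.exp_add, ← Complex.ofReal_exp, Real.exp_neg, Real.exp_log (hgpos t)]
    simp only [c, E, Complex.real_smul]
    ring
  have h₀ : (φ.comp γ.toContinuousMap) 0 = (fun z : ℂ => (⟨Complex.exp z, z.exp_ne_zero⟩ : {z : ℂ // z ≠ 0})) e := by
    apply Subtype.ext
    change c ((0 : unitInterval) : ℝ) - x₀ = Complex.exp e
    rw [show ((0 : unitInterval) : ℝ) = 0 from rfl, ← hexp 0]
    simp [e]
  have h₁ : (φ.comp (Path.refl y).toContinuousMap) 0 =
      (fun z : ℂ => (⟨Complex.exp z, z.exp_ne_zero⟩ : {z : ℂ // z ≠ 0})) e := by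
    apply Subtype.ext
    change c 0 - x₀ = Complex.exp e
    rw [← hexp 0]
    simp [e]
  have key := cov.liftPath_apply_one_eq_of_homotopicRel hrel e h₀ h₁
  -- the two lifts
  have l1 : (⟨fun t : unitInterval => ((-Real.log (g t) : ℝ) : ℂ) + ((2 * Real.pi * (t : ℝ) : ℝ) : ℂ) * Complex.I,
      by
        have h1 : Continuous fun t : unitInterval => Real.log (g t) :=
          (hgc.comp continuous_subtype_val).log fun t => (hgpos t).ne'
        fun_prop⟩ : C(unitInterval, ℂ)) = cov.liftPath (φ.comp γ.toContinuousMap) e h₀ := by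
    rw [cov.eq_liftPath_iff']
    constructor
    · funext t
      apply Subtype.ext
      change Complex.exp (((-Real.log (g t) : ℝ) : ℂ) + ((2 * Real.pi * (t : ℝ) : ℝ) : ℂ) * Complex.I) =
        c t - x₀
      exact hexp t
    · change ((-Real.log (g ((0 : unitInterval) : ℝ)) : ℝ) : ℂ) +
        ((2 * Real.pi * ((0 : unitInterval) : ℝ) : ℝ) : ℂ) * Complex.I = e
      rw [show ((0 : unitInterval) : ℝ) = 0 from rfl]
      simp [e]
  have l2 : (ContinuousMap.const unitInterval e) =
      cov.liftPath (φ.comp (Path.refl y).toContinuousMap) e h₁ := by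
    rw [cov.eq_liftPath_iff']
    constructor
    · funext t
      exact h₁.symm
    · rfl
  rw [← l1, ← l2] at key
  change ((-Real.log (g ((1 : unitInterval) : ℝ)) : ℝ) : ℂ) +
        ((2 * Real.pi * ((1 : unitInterval) : ℝ) : ℝ) : ℂ) * Complex.I = e at key
  rw [show ((1 : unitInterval) : ℝ) = 1 from rfl, hg01] at key
  have : ((2 * Real.pi * 1 : ℝ) : ℂ) * Complex.I = 0 := by
    have h2 : ((-Real.log (g 0) : ℝ) : ℂ) = e := rfl
    linear_combination key - h2
  rw [mul_eq_zero] at this
  rcases this with h | h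
  · have h3 : (2 * Real.pi * 1 : ℝ) = 0 := by exact_mod_cast h
    have := Real.pi_pos
    linarith
  · exact Complex.I_ne_zero h

end Pool.Agent.R175.Hole
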