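import Mathlib
import Pool.Agent.R175.Chevron
import Pool.Agent.R175.Hole

/-!
# A tile of the chevron tiling whose neighbourhood is not simply connected
-/

set_option autoImplicit false

namespace Pool.Agent.R175.Chevron

open Set Pool.Agent.R175.TriGeo Pool.Agent.R175.HexTile Pool.Agent.R175.HexTri Pool.Agent.R175.GridTile

/-- The rotation of the `k`-th orientation. -/
noncomputable def om : Fin 3 → ℂ := ![1, ζ⁻¹, ζ]

theorem om_norm (k : Fin 3) : ‖om k‖ = 1 := by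
  fin_cases k
  · simp [om]
  · simp [om, zeta_norm]
  · simp [om, zeta_norm]

theorem Sh_rot (k : Fin 3) (w : ℂ) : om k * w ∈ Sh k ↔ w ∈ Sh 0 := by
  fin_cases k
  · simp [om]
  · change ζ⁻¹ * w ∈ Sh 1 ↔ w ∈ Sh 0
    have e : ζ⁻¹ * w = w / ζ := by rw [div_eq_mul_inv, mul_comm]
    rw [e]
    simp only [Sh, mem_ofPred_eq, A_zdiv, B_zdiv]
    constructor
    · rintro (⟨h1, h2, h3, h4⟩ | ⟨h1, h2, h3, h4⟩)
      · left; exact ⟨by linarith, by linarith, by linarith, by linarith⟩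
      · right; exact ⟨by linarith, by linarith, by linarith, by linarith⟩
    · rintro (⟨h1, h2, h3, h4⟩ | ⟨h1, h2, h3, h4⟩)
      · left; exact ⟨by linarith, by linarith, by linarith, by linarith⟩
      · right; exact ⟨by linarith, by linarith, by linarith, by linarith⟩
  · change ζ * w ∈ Sh 2 ↔ w ∈ Sh 0
    simp only [Sh, mem_ofPred_eq, A_zmul, B_zmul]
    constructor
    · rintro (⟨h1, h2, h3, h4⟩ | ⟨h1, h2, h3, h4⟩)
      · left; exact ⟨by linarith, by linarith, by linarith, by linarith⟩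
      · right; exact ⟨by linarith, by linarith, by linarith, by linarith⟩
    · rintro (⟨h1, h2, h3, h4⟩ | ⟨h1, h2, h3, h4⟩)
      · left; exact ⟨by linarith, by linarith, by linarith, by linarith⟩
      · right; exact ⟨by linarith, by linarith, by linarith, by linarith⟩

theorem tile_eq (k : Fin 3) (x y : ℤ) : tile k x y = rt (om k) (pt x y) (om_norm k) '' Sh 0 := by
  have h0 : om k ≠ 0 := by
    intro h
    have := om_norm k
    rw [h] at this; simp at this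
  ext z
  constructor
  · intro hz
    refine ⟨(om k)⁻¹ * (z - pt x y), ?_, ?_⟩
    · rw [← Sh_rot k, mul_inv_cancel_left₀ h0]; exact hz
    · change om k * ((om k)⁻¹ * (z - pt x y)) + pt x y = z
      rw [mul_inv_cancel_left₀ h0]; ring
  · rintro ⟨w, hw, rfl⟩
    change (om k * w + pt x y) - pt x y ∈ Sh k
    rw [add_sub_cancel_right, Sh_rot]; exact hw

theorem tiling_iso : ∀ S ∈ tiling, ∃ f : ℂ ≃ᵢ ℂ, S = f '' Sh 0 := by
  rintro S ⟨k, m, n, rfl⟩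
  exact ⟨_, tile_eq _ _ _⟩

/-! ### Strips -/

theorem A_convex (r s : ℝ) : Convex ℝ {z : ℂ | r ≤ A z ∧ A z ≤ s} := by
  have e : {z : ℂ | r ≤ A z ∧ A z ≤ s} = {w | r ≤ A w} ∩ {w | -s ≤ -A w} := by
    ext w; simp only [mem_ofPred_eq, mem_inter_iff]
    constructor
    · rintro ⟨h1, h2⟩; exact ⟨h1, by linarith⟩
    · rintro ⟨h1, h2⟩; exact ⟨h1, by linarith⟩
  rw [e]
  refine (half_convex A A_add A_smul r).inter (half_convex (fun w => -A w) ?_ ?_ (-s))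
  · intro z w; simp only [A_add]; ring
  · intro c z; simp only [A_smul]; ring

theorem B_convex (r s : ℝ) : Convex ℝ {z : ℂ | r ≤ B z ∧ B z ≤ s} := by
  have e : {z : ℂ | r ≤ B z ∧ B z ≤ s} = {w | r ≤ B w} ∩ {w | -s ≤ -B w} := by
    ext w; simp only [mem_ofPred_eq, mem_inter_iff]
    constructor
    · rintro ⟨h1, h2⟩; exact ⟨h1, by linarith⟩
    · rintro ⟨h1, h2⟩; exact ⟨h1, by linarith⟩
  rw [e]
  refine (half_convex B B_add B_smul r).inter (half_convex (fun w => -B w) ?_ ?_ (-s))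
  · intro z w; simp only [B_add]; ring
  · intro c z; simp only [B_smul]; ring

theorem C_convex (r s : ℝ) : Convex ℝ {z : ℂ | r ≤ A z + B z ∧ A z + B z ≤ s} := by
  have e : {z : ℂ | r ≤ A z + B z ∧ A z + B z ≤ s} = {w | r ≤ A w + B w} ∩ {w | -s ≤ -(A w + B w)} := by
    ext w; simp only [mem_ofPred_eq, mem_inter_iff]
    constructor
    · rintro ⟨h1, h2⟩; exact ⟨h1, by linarith⟩
    · rintro ⟨h1, h2⟩; exact ⟨h1, by linarith⟩
  rw [e]
  refine (half_convex (fun w => A w + B w) ?_ ?_ r).inter (half_convex (fun w => -(A w + B w)) ?_ ?_ (-s))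
  · intro z w; simp only [A_add, B_add]; ring
  · intro c z; simp only [A_smul, B_smul]; ring
  · intro z w; simp only [A_add, B_add]; ring
  · intro c z; simp only [A_smul, B_smul]; ring

theorem A_closed (r s : ℝ) : IsClosed {z : ℂ | r ≤ A z ∧ A z ≤ s} :=
  (isClosed_le continuous_const A_cont).inter (isClosed_le A_cont continuous_const)
theorem B_closed (r s : ℝ) : IsClosed {z : ℂ | r ≤ B z ∧ B z ≤ s} :=
  (isClosed_le continuous_const B_cont).inter (isClosed_le B_cont continuous_const)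
theorem C_closed (r s : ℝ) : IsClosed {z : ℂ | r ≤ A z + B z ∧ A z + B z ≤ s} :=
  (isClosed_le continuous_const (A_cont.add B_cont)).inter (isClosed_le (A_cont.add B_cont) continuous_const)

theorem bounded_of {S : Set ℂ} {r : ℝ} (h : ∀ z ∈ S, |A z| ≤ r ∧ |B z| ≤ r) : Bornology.IsBounded S := by
  rw [isBounded_iff_forall_norm_le]
  refine ⟨r + r, fun z hz => ?_⟩
  obtain ⟨h1, h2⟩ := h z hz
  rw [eq_of z]
  calc ‖(A z : ℂ) + (B z : ℂ) * ζ‖ ≤ ‖(A z : ℂ)‖ + ‖(B z : ℂ) * ζ‖ := norm_add_le _ _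
    _ = |A z| + |B z| := by
      rw [norm_mul, zeta_norm, mul_one, Complex.norm_real, Complex.norm_real]; rfl
    _ ≤ r + r := by linarith

/-- The two arms. -/
def R1 : Set ℂ := {z | -1 ≤ B z ∧ B z ≤ 0} ∩ {z | 0 ≤ A z + B z ∧ A z + B z ≤ 2}
/-- The two arms. -/
def R2 : Set ℂ := {z | 0 ≤ A z ∧ A z ≤ 1} ∩ {z | -2 ≤ A z + B z ∧ A z + B z ≤ 0}
/-- A triangle of the first arm. -/
def R3 : Set ℂ := {z | 0 ≤ A z ∧ A z ≤ 1} ∩ {z | -1 ≤ B z ∧ B z ≤ 0} ∩ {z | 0 ≤ A z + B z ∧ A z + B z ≤ 1}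
/-- The second arm with the triangle. -/
def R4 : Set ℂ := {z | 0 ≤ A z ∧ A z ≤ 1} ∩ {z | -3 ≤ B z ∧ B z ≤ 0} ∩ {z | -2 ≤ A z + B z ∧ A z + B z ≤ 1}

theorem Sh0 : Sh 0 = R2 ∪ R1 := by
  ext z
  simp only [Sh, R1, R2, mem_union, mem_inter_iff, mem_ofPred_eq]
  tauto

theorem R24 : R2 ∪ R3 = R4 := by
  ext z
  simp only [R2, R3, R4, mem_union, mem_inter_iff, mem_ofPred_eq]
  constructor
  · rintro (⟨⟨h1, h2⟩, ⟨h3, h4⟩⟩ | ⟨⟨⟨h1, h2⟩, ⟨h3, h4⟩⟩, ⟨h5, h6⟩⟩)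
    · exact ⟨⟨⟨h1, h2⟩, ⟨by linarith, by linarith⟩⟩, ⟨by linarith, by linarith⟩⟩
    · exact ⟨⟨⟨h1, h2⟩, ⟨by linarith, by linarith⟩⟩, ⟨by linarith, by linarith⟩⟩
  · rintro ⟨⟨⟨h1, h2⟩, ⟨h3, h4⟩⟩, ⟨h5, h6⟩⟩
    rcases le_total (A z + B z) 0 with h | h
    · left; exact ⟨⟨h1, h2⟩, ⟨h5, h⟩⟩
    · right; exact ⟨⟨⟨h1, h2⟩, ⟨by linarith, h4⟩⟩, ⟨h, h6⟩⟩

theorem R1_compact : IsCompact R1 := by
  refine Metric.isCompact_of_isClosed_isBounded ((B_closed _ _).inter (C_closed _ _)) (bounded_of (r := 3) ?_)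
  rintro z ⟨⟨h1, h2⟩, ⟨h3, h4⟩⟩
  exact ⟨abs_le.2 ⟨by linarith, by linarith⟩, abs_le.2 ⟨by linarith, by linarith⟩⟩
theorem R2_compact : IsCompact R2 := by
  refine Metric.isCompact_of_isClosed_isBounded ((A_closed _ _).inter (C_closed _ _)) (bounded_of (r := 3) ?_)
  rintro z ⟨⟨h1, h2⟩, ⟨h3, h4⟩⟩
  exact ⟨abs_le.2 ⟨by linarith, by linarith⟩, abs_le.2 ⟨by linarith, by linarith⟩⟩
theorem R3_compact : IsCompact R3 := by
  refine Metric.isCompact_of_isClosed_isBounded (((A_closed _ _).inter (B_closed _ _)).inter (C_closed _ _))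
    (bounded_of (r := 3) ?_)
  rintro z ⟨⟨⟨h1, h2⟩, ⟨h3, h4⟩⟩, -⟩
  exact ⟨abs_le.2 ⟨by linarith, by linarith⟩, abs_le.2 ⟨by linarith, by linarith⟩⟩

theorem not_interior {S : Set ℂ} {z v : ℂ} (h : ∀ t : ℝ, 0 < t → z + t * v ∉ S) : z ∉ interior S := by
  intro hi
  obtain ⟨t, ht, hz⟩ := exists_move hi v
  exact h t ht hz

theorem Sh0_disk : Pool.Agent.R175.Disk.IsDisk (Sh 0) := by
  rw [Sh0]
  have hint : ((((1 / 2 : ℝ) : ℂ)) + ((-1 / 4 : ℝ) : ℂ) * ζ) ∈ interior R3 := by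
    rw [mem_interior]
    refine ⟨{z | 0 < A z} ∩ {z | A z < 1} ∩ {z | B z < 0} ∩ {z | 0 < A z + B z}, ?_, ?_, ?_⟩
    · rintro z ⟨⟨⟨h1, h2⟩, h3⟩, h4⟩
      simp only [mem_ofPred_eq] at h1 h2 h3 h4
      exact ⟨⟨⟨by linarith, by linarith⟩, ⟨by linarith, by linarith⟩⟩, ⟨by linarith, by linarith⟩⟩
    · exact (((isOpen_lt continuous_const A_cont).inter (isOpen_lt A_cont continuous_const)).inter
        (isOpen_lt B_cont continuous_const)).inter (isOpen_lt continuous_const (A_cont.add B_cont))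
    · simp only [mem_inter_iff, mem_ofPred_eq, A_add, B_add, A_real, B_real, A_mul, B_mul, A_zeta, B_zeta]
      norm_num
  refine Pool.Agent.R175.Disk.glue (C := R3) R2_compact.isClosed ((B_convex _ _).inter (C_convex _ _))
    R1_compact (((A_convex _ _).inter (B_convex _ _)).inter (C_convex _ _)) R3_compact hint ?_ ?_ ?_
  · rintro z ⟨⟨⟨h1, h2⟩, ⟨h3, h4⟩⟩, ⟨h5, h6⟩⟩
    exact ⟨⟨h3, h4⟩, ⟨h5, by linarith⟩⟩
  · rintro z ⟨⟨h1, h2⟩, ⟨h3, h4⟩⟩ ⟨⟨g1, g2⟩, ⟨g3, g4⟩⟩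
    have hC : A z + B z = 0 := le_antisymm h4 g3
    have hz1 : z ∈ R1 := ⟨⟨g1, g2⟩, ⟨g3, g4⟩⟩
    have hz3 : z ∈ R3 := ⟨⟨⟨h1, h2⟩, ⟨g1, g2⟩⟩, ⟨g3, by linarith⟩⟩
    have hmove : ∀ t : ℝ, A (z + t * (-1)) + B (z + t * (-1)) = -t := by
      intro t
      simp only [A_add, B_add, A_mul, B_mul, A_neg, B_neg, A_one, B_one]
      linarith
    constructor
    · rw [R1_compact.isClosed.frontier_eq]
      refine ⟨hz1, not_interior (v := -1) fun t ht hm => ?_⟩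
      have := hm.2.1
      rw [hmove] at this
      linarith
    · rw [R3_compact.isClosed.frontier_eq]
      refine ⟨hz3, not_interior (v := -1) fun t ht hm => ?_⟩
      have := hm.2.1
      rw [hmove] at this
      linarith
  · rw [R24]
    apply Pool.Agent.R175.Disk.disk_of_convex
    · exact ((A_convex _ _).inter (B_convex _ _)).inter (C_convex _ _)
    · rw [← R24]; exact R2_compact.union R3_compact
    · rw [← R24]; exact ⟨_, interior_mono subset_union_right hint⟩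

/-! ### The tile with the hole -/

/-- The tile. -/
noncomputable def T0 : Set ℂ := T 2 0 (-1)
/-- The tile in the hole. -/
noncomputable def X0 : Set ℂ := T 0 0 0
/-- The right neighbour. -/
noncomputable def Y1 : Set ℂ := T 6 0 0
/-- The left neighbour. -/
noncomputable def Y2 : Set ℂ := T 9 0 (-1)

theorem mem_T0 (z : ℂ) : z ∈ T0 ↔ (-3 ≤ B z ∧ B z ≤ -2 ∧ 0 ≤ A z + B z ∧ A z + B z ≤ 2) ∨
    (2 ≤ A z ∧ A z ≤ 3 ∧ -2 ≤ A z + B z ∧ A z + B z ≤ 0) := by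
  change z - pt (6 + 10 * 0 + 4 * (-1)) (2 + 4 * (-1)) ∈ Sh 0 ↔ _
  simp only [Sh, mem_ofPred_eq, A_sub, B_sub, A_pt, B_pt]
  push_cast
  constructor
  · rintro (⟨h1, h2, h3, h4⟩ | ⟨h1, h2, h3, h4⟩)
    · left; exact ⟨by linarith, by linarith, by linarith, by linarith⟩
    · right; exact ⟨by linarith, by linarith, by linarith, by linarith⟩
  · rintro (⟨h1, h2, h3, h4⟩ | ⟨h1, h2, h3, h4⟩)
    · left; exact ⟨by linarith, by linarith, by linarith, by linarith⟩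
    · right; exact ⟨by linarith, by linarith, by linarith, by linarith⟩

theorem mem_X0 (z : ℂ) : z ∈ X0 ↔ (-1 ≤ B z ∧ B z ≤ 0 ∧ 0 ≤ A z + B z ∧ A z + B z ≤ 2) ∨
    (0 ≤ A z ∧ A z ≤ 1 ∧ -2 ≤ A z + B z ∧ A z + B z ≤ 0) := by
  change z - pt (0 + 10 * 0 + 4 * 0) (0 + 4 * 0) ∈ Sh 0 ↔ _
  simp only [Sh, mem_ofPred_eq, A_sub, B_sub, A_pt, B_pt]
  push_cast
  constructor
  · rintro (⟨h1, h2, h3, h4⟩ | ⟨h1, h2, h3, h4⟩)
    · left; exact ⟨by linarith, by linarith, by linarith, by linarith⟩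
    · right; exact ⟨by linarith, by linarith, by linarith, by linarith⟩
  · rintro (⟨h1, h2, h3, h4⟩ | ⟨h1, h2, h3, h4⟩)
    · left; exact ⟨by linarith, by linarith, by linarith, by linarith⟩
    · right; exact ⟨by linarith, by linarith, by linarith, by linarith⟩

theorem mem_Y1 (z : ℂ) : z ∈ Y1 ↔ (2 ≤ A z + B z ∧ A z + B z ≤ 3 ∧ 2 ≤ A z ∧ A z ≤ 4) ∨
    (0 ≤ B z ∧ B z ≤ 1 ∧ 0 ≤ A z ∧ A z ≤ 2) := by
  change z - pt (2 + 10 * 0 + 4 * 0) (1 + 4 * 0) ∈ Sh 1 ↔ _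
  simp only [Sh, mem_ofPred_eq, A_sub, B_sub, A_pt, B_pt]
  push_cast
  constructor
  · rintro (⟨h1, h2, h3, h4⟩ | ⟨h1, h2, h3, h4⟩)
    · left; exact ⟨by linarith, by linarith, by linarith, by linarith⟩
    · right; exact ⟨by linarith, by linarith, by linarith, by linarith⟩
  · rintro (⟨h1, h2, h3, h4⟩ | ⟨h1, h2, h3, h4⟩)
    · left; exact ⟨by linarith, by linarith, by linarith, by linarith⟩
    · right; exact ⟨by linarith, by linarith, by linarith, by linarith⟩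

theorem mem_Y2 (z : ℂ) : z ∈ Y2 ↔ (-1 ≤ A z ∧ A z ≤ 0 ∧ -2 ≤ B z ∧ B z ≤ 0) ∨
    (-3 ≤ A z + B z ∧ A z + B z ≤ -2 ∧ -4 ≤ B z ∧ B z ≤ -2) := by
  change z - pt (3 + 10 * 0 + 4 * (-1)) (2 + 4 * (-1)) ∈ Sh 2 ↔ _
  simp only [Sh, mem_ofPred_eq, A_sub, B_sub, A_pt, B_pt]
  push_cast
  constructor
  · rintro (⟨h1, h2, h3, h4⟩ | ⟨h1, h2, h3, h4⟩)
    · left; exact ⟨by linarith, by linarith, by linarith, by linarith⟩
    · right; exact ⟨by linarith, by linarith, by linarith, by linarith⟩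
  · rintro (⟨h1, h2, h3, h4⟩ | ⟨h1, h2, h3, h4⟩)
    · left; exact ⟨by linarith, by linarith, by linarith, by linarith⟩
    · right; exact ⟨by linarith, by linarith, by linarith, by linarith⟩

theorem X0_T0 : ¬ (X0 ∩ T0).Nonempty := by
  rintro ⟨z, h1, h2⟩
  rw [mem_X0] at h1
  rw [mem_T0] at h2
  rcases h1 with ⟨a1, a2, a3, a4⟩ | ⟨a1, a2, a3, a4⟩ <;>
    rcases h2 with ⟨b1, b2, b3, b4⟩ | ⟨b1, b2, b3, b4⟩ <;> linarith

theorem pt_mem_T (x y : ℤ) : A (pt x y) = x ∧ B (pt x y) = y := ⟨A_pt x y, B_pt x y⟩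

theorem Y1_T0 : (Y1 ∩ T0).Nonempty := by
  refine ⟨pt 4 (-2), ?_, ?_⟩
  · rw [mem_Y1, A_pt, B_pt]; left; push_cast; norm_num
  · rw [mem_T0, A_pt, B_pt]; left; push_cast; norm_num

theorem Y2_T0 : (Y2 ∩ T0).Nonempty := by
  refine ⟨pt 2 (-4), ?_, ?_⟩
  · rw [mem_Y2, A_pt, B_pt]; right; push_cast; norm_num
  · rw [mem_T0, A_pt, B_pt]; right; push_cast; norm_num

theorem T0_T0 : (T0 ∩ T0).Nonempty := by
  refine ⟨pt 2 (-4), ?_, ?_⟩ <;>
  · rw [mem_T0, A_pt, B_pt]; right; push_cast; norm_num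

/-- The neighbourhood of a tile. -/
def nbhd (S : Set ℂ) : Set ℂ := ⋃₀ {S' | S' ∈ tiling ∧ (S' ∩ S).Nonempty}

/-- The convex pentagon around the hole. -/
def Q : Set ℂ := {z | 0 ≤ A z ∧ B z ≤ 0 ∧ (-2 ≤ A z + B z ∧ A z + B z ≤ 2) ∧ A z - B z ≤ 6}

theorem Q_convex : Convex ℝ Q := by
  have e : Q = {w | 0 ≤ A w} ∩ {w | 0 ≤ -B w} ∩ {w | -2 ≤ A w + B w ∧ A w + B w ≤ 2} ∩
      {w | -6 ≤ -(A w - B w)} := by
    ext w; simp only [Q, mem_ofPred_eq, mem_inter_iff]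
    constructor
    · rintro ⟨h1, h2, h3, h4⟩; exact ⟨⟨⟨h1, by linarith⟩, h3⟩, by linarith⟩
    · rintro ⟨⟨⟨h1, h2⟩, h3⟩, h4⟩; exact ⟨h1, by linarith, h3, by linarith⟩
  rw [e]
  refine (((half_convex A A_add A_smul 0).inter (half_convex (fun w => -B w) ?_ ?_ 0)).inter
    (C_convex _ _)).inter (half_convex (fun w => -(A w - B w)) ?_ ?_ (-6))
  · intro z w; simp only [B_add]; ring
  · intro c z; simp only [B_smul]; ring
  · intro z w; simp only [A_add, B_add]; ring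
  · intro c z; simp only [A_smul, B_smul]; ring

theorem Q_closed : IsClosed Q :=
  (isClosed_le continuous_const A_cont).inter ((isClosed_le B_cont continuous_const).inter
    ((C_closed _ _).inter (isClosed_le (A_cont.sub B_cont) continuous_const)))

theorem Q_compact : IsCompact Q := by
  refine Metric.isCompact_of_isClosed_isBounded Q_closed (bounded_of (r := 6) ?_)
  rintro z ⟨h1, h2, h3, h4⟩
  exact ⟨abs_le.2 ⟨by linarith, by linarith⟩, abs_le.2 ⟨by linarith, by linarith⟩⟩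

theorem Q_interior {z : ℂ} (h1 : 0 < A z) (h2 : B z < 0) (h3 : -2 < A z + B z) (h4 : A z + B z < 2)
    (h5 : A z - B z < 6) : z ∈ interior Q := by
  rw [mem_interior]
  refine ⟨{z | 0 < A z} ∩ {z | B z < 0} ∩ {z | -2 < A z + B z} ∩ {z | A z + B z < 2} ∩ {z | A z - B z < 6},
    ?_, ?_, ⟨⟨⟨⟨h1, h2⟩, h3⟩, h4⟩, h5⟩⟩
  · rintro w ⟨⟨⟨⟨g1, g2⟩, g3⟩, g4⟩, g5⟩
    exact ⟨le_of_lt g1, le_of_lt g2, ⟨le_of_lt g3, le_of_lt g4⟩, le_of_lt g5⟩
  · exact ((((isOpen_lt continuous_const A_cont).inter (isOpen_lt B_cont continuous_const)).inter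
      (isOpen_lt continuous_const (A_cont.add B_cont))).inter
      (isOpen_lt (A_cont.add B_cont) continuous_const)).inter (isOpen_lt (A_cont.sub B_cont) continuous_const)

theorem Q_frontier : frontier Q ⊆ nbhd T0 := by
  intro z hz
  rw [Q_closed.frontier_eq] at hz
  obtain ⟨⟨h1, h2, ⟨h3, h4⟩, h5⟩, hi⟩ := hz
  by_cases e1 : A z = 0
  · refine ⟨Y2, ⟨⟨_, _, _, rfl⟩, Y2_T0⟩, (mem_Y2 z).2 (Or.inl ⟨by linarith, by linarith, by linarith, by linarith⟩)⟩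
  by_cases e2 : B z = 0
  · refine ⟨Y1, ⟨⟨_, _, _, rfl⟩, Y1_T0⟩, (mem_Y1 z).2 (Or.inr ⟨by linarith, by linarith, by linarith, by linarith⟩)⟩
  by_cases e3 : A z + B z = 2
  · refine ⟨Y1, ⟨⟨_, _, _, rfl⟩, Y1_T0⟩, (mem_Y1 z).2 (Or.inl ⟨by linarith, by linarith, by linarith, by linarith⟩)⟩
  by_cases e4 : A z + B z = -2
  · refine ⟨Y2, ⟨⟨_, _, _, rfl⟩, Y2_T0⟩, (mem_Y2 z).2 (Or.inr ⟨by linarith, by linarith, by linarith, by linarith⟩)⟩
  by_cases e5 : A z - B z = 6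
  · refine ⟨T0, ⟨⟨_, _, _, rfl⟩, T0_T0⟩, (mem_T0 z).2 ?_⟩
    rcases le_total 0 (A z + B z) with h | h
    · left; exact ⟨by linarith, by linarith, by linarith, by linarith⟩
    · right; exact ⟨by linarith, by linarith, by linarith, by linarith⟩
  · exfalso
    exact hi (Q_interior (lt_of_le_of_ne h1 (Ne.symm e1)) (lt_of_le_of_ne h2 e2)
      (lt_of_le_of_ne h3 (Ne.symm e4)) (lt_of_le_of_ne h4 e3) (lt_of_le_of_ne h5 e5))

/-- A point of the hole. -/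
noncomputable def x0 : ℂ := ((3 / 2 : ℝ) : ℂ) + ((-3 / 4 : ℝ) : ℂ) * ζ

theorem A_x0 : A x0 = 3 / 2 := by unfold x0; rw [A_add, A_real, A_mul, A_zeta]; ring
theorem B_x0 : B x0 = -3 / 4 := by unfold x0; rw [B_add, B_real, B_mul, B_zeta]; ring

theorem x0_ocell : x0 ∈ ocell (1, -1, false) := by
  simp only [ocell, mem_ofPred_eq, A_x0, B_x0]
  norm_num

theorem x0_not : x0 ∉ nbhd T0 := by
  rintro ⟨S, ⟨⟨k, m, n, rfl⟩, hne⟩, hx⟩
  have hX : x0 ∈ X0 := by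
    rw [mem_X0, A_x0, B_x0]; left; norm_num
  have := tile_unique x0_ocell hx hX
  rw [this] at hne
  exact X0_T0 hne

theorem nbhd_not_simply : ¬ IsSimplyConnected (nbhd T0) := by
  apply Pool.Agent.R175.Hole.not_simply Q_convex Q_compact (x₀ := x0) _ Q_frontier x0_not
  apply Q_interior <;> simp only [A_x0, B_x0] <;> norm_num

/-! ### Transfer to the Euclidean plane -/

/-- The isometry between the complex numbers and the Euclidean plane. -/
noncomputable def eu : ℂ ≃ₗᵢ[ℝ] EuclideanSpace ℝ (Fin 2) := Complex.orthonormalBasisOneI.repr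

theorem final :
    ¬ (∀ (C : Set (EuclideanSpace ℝ (Fin 2))) (𝒯 : Set (Set (EuclideanSpace ℝ (Fin 2)))),
      Nonempty (C ≃ₜ Metric.closedBall (0 : EuclideanSpace ℝ (Fin 2)) 1) →
      (∀ T ∈ 𝒯, ∃ f : EuclideanSpace ℝ (Fin 2) ≃ᵢ EuclideanSpace ℝ (Fin 2), T = f '' C) →
      ⋃₀ 𝒯 = Set.univ →
      𝒯.Pairwise (fun A B => Disjoint (interior A) (interior B)) →
      ∀ T ∈ 𝒯, SimplyConnectedSpace (⋃₀ {T' ∈ 𝒯 | (T' ∩ T).Nonempty})) := by
  intro H
  let e : ℂ ≃ᵢ EuclideanSpace ℝ (Fin 2) := eu.toIsometryEquiv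
  have hdisk : Nonempty ((e '' Sh 0 : Set _) ≃ₜ Metric.closedBall (0 : EuclideanSpace ℝ (Fin 2)) 1) := by
    obtain ⟨-, ⟨h⟩⟩ := Sh0_disk
    have hball : e '' Metric.closedBall (0 : ℂ) 1 = Metric.closedBall (0 : EuclideanSpace ℝ (Fin 2)) 1 := by
      have := e.image_closedBall (0 : ℂ) 1
      rw [this]
      congr 1
      exact eu.map_zero
    exact ⟨((e.toHomeomorph.image (Sh 0)).symm.trans h).trans
      ((e.toHomeomorph.image (Metric.closedBall (0 : ℂ) 1)).trans (Homeomorph.setCongr hball))⟩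
  have hiso : ∀ S ∈ (fun S : Set ℂ => e '' S) '' tiling,
      ∃ f : EuclideanSpace ℝ (Fin 2) ≃ᵢ EuclideanSpace ℝ (Fin 2), S = f '' (e '' Sh 0) := by
    rintro _ ⟨S, hS, rfl⟩
    obtain ⟨f, rfl⟩ := tiling_iso S hS
    refine ⟨(e.symm.trans f).trans e, ?_⟩
    change e '' (f '' Sh 0) = _
    rw [image_image, image_image]
    congr 1
    funext z
    simp
  have hcov : ⋃₀ ((fun S : Set ℂ => e '' S) '' tiling) = Set.univ := by
    rw [eq_univ_iff_forall]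
    intro y
    have : e.symm y ∈ ⋃₀ tiling := by rw [tiling_cover]; trivial
    obtain ⟨S, hS, hy⟩ := this
    exact ⟨e '' S, ⟨S, hS, rfl⟩, ⟨e.symm y, hy, by simp⟩⟩
  have hdis : ((fun S : Set ℂ => e '' S) '' tiling).Pairwise (fun A B => Disjoint (interior A) (interior B)) := by
    rintro _ ⟨S, hS, rfl⟩ _ ⟨S', hS', rfl⟩ hne
    have h1 : S ≠ S' := fun h => hne (by rw [h])
    have h2 := tiling_disjoint hS hS' h1
    have e1 : interior (e '' S) = e '' interior S := (e.toHomeomorph.image_interior S).symm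
    have e2 : interior (e '' S') = e '' interior S' := (e.toHomeomorph.image_interior S').symm
    change Disjoint (interior (e '' S)) (interior (e '' S'))
    rw [e1, e2, Set.disjoint_image_iff e.injective]
    exact h2
  have key := H (e '' Sh 0) _ hdisk hiso hcov hdis (e '' T0) ⟨T0, ⟨_, _, _, rfl⟩, rfl⟩
  have hN : ⋃₀ {T' ∈ (fun S : Set ℂ => e '' S) '' tiling | (T' ∩ e '' T0).Nonempty} = e '' nbhd T0 := by
    ext y
    constructor
    · rintro ⟨_, ⟨⟨S, hS, rfl⟩, hne⟩, hy⟩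
      obtain ⟨z, hz, rfl⟩ := hy
      refine ⟨z, ⟨S, ⟨hS, ?_⟩, hz⟩, rfl⟩
      change (e '' S ∩ e '' T0).Nonempty at hne
      rw [← image_inter e.injective] at hne
      exact hne.of_image
    · rintro ⟨z, ⟨S, ⟨hS, hne⟩, hz⟩, rfl⟩
      refine ⟨e '' S, ⟨⟨S, hS, rfl⟩, ?_⟩, ⟨z, hz, rfl⟩⟩
      rw [← image_inter e.injective]
      exact hne.image _
  apply nbhd_not_simply
  have h1 : IsSimplyConnected (e '' nbhd T0) := by
    rw [← hN]; exact key
  exact (e.toHomeomorph.isSimplyConnected_image).1 h1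

end Pool.Agent.R175.Chevron
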