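import Mathlib
import Pool.Agent.R175.GridPath
import Pool.Agent.R175.GridTile

/-!
# A simple path through all lattice points of a half-plane
-/

set_option autoImplicit false

namespace Pool.Agent.R175.HalfSnake

open Set Pool.Agent.R175.GridPath Pool.Agent.R175.GridTile

/-- The successor of a lattice point of the right half-plane on the snake. -/
def Z (p : ℤ × ℤ) : ℤ × ℤ :=
  if p.1 = 0 ∧ 0 ≤ p.2 ∧ p.2 % 2 = 0 then (p.1, p.2 + 1)
  else if p.1 = 0 ∧ p.2 < 0 ∧ p.2 % 2 = 1 then (p.1, p.2 - 1)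
  else if p.1 ≤ p.2 ∧ p.2 % 2 = 0 then (p.1 - 1, p.2)
  else if p.1 ≤ -p.2 ∧ p.2 % 2 = 1 then (p.1 - 1, p.2)
  else if p.1 < -p.2 ∧ p.2 % 2 = 0 then (p.1 + 1, p.2)
  else if p.1 < p.2 ∧ p.2 % 2 = 1 then (p.1 + 1, p.2)
  else if p.1 % 2 = 0 then (p.1, p.2 + 1)
  else (p.1, p.2 - 1)

theorem Zb {x y : ℤ} (h0 : x = 0) (h1 : 0 ≤ y) (h2 : y % 2 = 0) : Z (x, y) = (x, y + 1) := by
  unfold Z; rw [if_pos ⟨h0, h1, h2⟩]

theorem Zh {x y : ℤ} (h0 : x = 0) (h1 : y < 0) (h2 : y % 2 = 1) : Z (x, y) = (x, y - 1) := by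
  unfold Z; rw [if_neg (by dsimp only; omega), if_pos ⟨h0, h1, h2⟩]

theorem Za {x y : ℤ} (h0 : 0 < x) (h1 : x ≤ y) (h2 : y % 2 = 0) : Z (x, y) = (x - 1, y) := by
  unfold Z; rw [if_neg (by dsimp only; omega), if_neg (by dsimp only; omega), if_pos ⟨h1, h2⟩]

theorem Zg {x y : ℤ} (h0 : 0 < x) (h1 : x ≤ -y) (h2 : y % 2 = 1) : Z (x, y) = (x - 1, y) := by
  unfold Z
  rw [if_neg (by dsimp only; omega), if_neg (by dsimp only; omega), if_neg (by dsimp only; omega),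
    if_pos ⟨h1, h2⟩]

theorem Zd {x y : ℤ} (h0 : 0 ≤ x) (h1 : x < -y) (h2 : y % 2 = 0) : Z (x, y) = (x + 1, y) := by
  unfold Z
  rw [if_neg (by dsimp only; omega), if_neg (by dsimp only; omega), if_neg (by dsimp only; omega),
    if_neg (by dsimp only; omega), if_pos ⟨h1, h2⟩]

theorem Ze {x y : ℤ} (h0 : 0 ≤ x) (h1 : x < y) (h2 : y % 2 = 1) : Z (x, y) = (x + 1, y) := by
  unfold Z
  rw [if_neg (by dsimp only; omega), if_neg (by dsimp only; omega), if_neg (by dsimp only; omega),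
    if_neg (by dsimp only; omega), if_neg (by dsimp only; omega), if_pos ⟨h1, h2⟩]

theorem Zc {x y : ℤ} (h0 : -x ≤ y) (h1 : y < x) (h2 : x % 2 = 0) : Z (x, y) = (x, y + 1) := by
  unfold Z
  rw [if_neg (by dsimp only; omega), if_neg (by dsimp only; omega), if_neg (by dsimp only; omega),
    if_neg (by dsimp only; omega), if_neg (by dsimp only; omega), if_neg (by dsimp only; omega), if_pos h2]

theorem Zf {x y : ℤ} (h0 : -x < y) (h1 : y ≤ x) (h2 : x % 2 = 1) : Z (x, y) = (x, y - 1) := by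
  unfold Z
  rw [if_neg (by dsimp only; omega), if_neg (by dsimp only; omega), if_neg (by dsimp only; omega),
    if_neg (by dsimp only; omega), if_neg (by dsimp only; omega), if_neg (by dsimp only; omega),
    if_neg (by dsimp only; omega)]

/-- The eight regions. -/
theorem regions {x : ℤ} (hx : 0 ≤ x) (y : ℤ) :
    (0 < x ∧ x ≤ y ∧ y % 2 = 0) ∨ (x = 0 ∧ 0 ≤ y ∧ y % 2 = 0) ∨ (-x ≤ y ∧ y < x ∧ x % 2 = 0) ∨
    (0 ≤ x ∧ x < -y ∧ y % 2 = 0) ∨ (0 ≤ x ∧ x < y ∧ y % 2 = 1) ∨ (-x < y ∧ y ≤ x ∧ x % 2 = 1) ∨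
    (0 < x ∧ x ≤ -y ∧ y % 2 = 1) ∨ (x = 0 ∧ y < 0 ∧ y % 2 = 1) := by omega

/-- The value of `Z` in each region. -/
theorem Z_val {x y : ℤ} (hx : 0 ≤ x) :
    (0 < x ∧ x ≤ y ∧ y % 2 = 0 ∧ Z (x, y) = (x - 1, y)) ∨ (x = 0 ∧ 0 ≤ y ∧ y % 2 = 0 ∧ Z (x, y) = (x, y + 1)) ∨
    (-x ≤ y ∧ y < x ∧ x % 2 = 0 ∧ Z (x, y) = (x, y + 1)) ∨
    (0 ≤ x ∧ x < -y ∧ y % 2 = 0 ∧ Z (x, y) = (x + 1, y)) ∨
    (0 ≤ x ∧ x < y ∧ y % 2 = 1 ∧ Z (x, y) = (x + 1, y)) ∨
    (-x < y ∧ y ≤ x ∧ x % 2 = 1 ∧ Z (x, y) = (x, y - 1)) ∨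
    (0 < x ∧ x ≤ -y ∧ y % 2 = 1 ∧ Z (x, y) = (x - 1, y)) ∨
    (x = 0 ∧ y < 0 ∧ y % 2 = 1 ∧ Z (x, y) = (x, y - 1)) := by
  rcases regions hx y with h | h | h | h | h | h | h | h
  · left; exact ⟨h.1, h.2.1, h.2.2, Za h.1 h.2.1 h.2.2⟩
  · right; left; exact ⟨h.1, h.2.1, h.2.2, Zb h.1 h.2.1 h.2.2⟩
  · right; right; left; exact ⟨h.1, h.2.1, h.2.2, Zc h.1 h.2.1 h.2.2⟩
  · right; right; right; left; exact ⟨h.1, h.2.1, h.2.2, Zd h.1 h.2.1 h.2.2⟩
  · right; right; right; right; left; exact ⟨h.1, h.2.1, h.2.2, Ze h.1 h.2.1 h.2.2⟩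
  · right; right; right; right; right; left; exact ⟨h.1, h.2.1, h.2.2, Zf h.1 h.2.1 h.2.2⟩
  · right; right; right; right; right; right; left; exact ⟨h.1, h.2.1, h.2.2, Zg h.1 h.2.1 h.2.2⟩
  · right; right; right; right; right; right; right; exact ⟨h.1, h.2.1, h.2.2, Zh h.1 h.2.1 h.2.2⟩

/-- Number of the shell. -/
def rk (p : ℤ × ℤ) : ℕ := max p.1.natAbs p.2.natAbs

/-- Position in the shell. -/
def pos (p : ℤ × ℤ) : ℕ :=
  if p.1 < p.2 ∧ p.2 % 2 = 0 then (4 * p.2 - p.1).toNat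
  else if p.1 < p.2 then p.1.toNat
  else if p.1 < -p.2 ∧ p.2 % 2 = 0 then p.1.toNat
  else if p.1 < -p.2 then (-4 * p.2 - p.1).toNat
  else if p.1 % 2 = 0 then (2 * p.1 + p.2).toNat
  else (2 * p.1 - p.2).toNat

/-- The right half-plane. -/
def H : Set (ℤ × ℤ) := {p | 0 ≤ p.1}

theorem snake_reach : ∀ p ∈ H, ∃ n : ℕ, Z^[n] (0, 0) = p := by
  apply reach_of_rank rk pos
  rintro ⟨x, y⟩ hx hne
  change 0 ≤ x at hx
  rw [ne_eq, Prod.mk.injEq] at hne
  have hc : (x + 1 ≤ y ∧ y % 2 = 0) ∨ (x = 0 ∧ 0 ≤ y - 1 ∧ (y - 1) % 2 = 0) ∨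
    (-x ≤ y - 1 ∧ y - 1 < x ∧ x % 2 = 0) ∨ (0 ≤ x - 1 ∧ x - 1 < -y ∧ y % 2 = 0) ∨
    (0 ≤ x - 1 ∧ x - 1 < y ∧ y % 2 = 1) ∨ (-x < y + 1 ∧ y + 1 ≤ x ∧ x % 2 = 1) ∨
    (x + 1 ≤ -y ∧ y % 2 = 1) ∨ (x = 0 ∧ y + 1 < 0 ∧ (y + 1) % 2 = 1) := by omega
  rcases hc with h | h | h | h | h | h | h | h
  · refine ⟨(x + 1, y), by change 0 ≤ x + 1; omega, ?_, ?_⟩
    · rw [Za (by omega) (by omega) (by omega)]; simp
    · simp only [rk, pos]; split_ifs <;> omega
  · refine ⟨(x, y - 1), by change 0 ≤ x; omega, ?_, ?_⟩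
    · rw [Zb (by omega) (by omega) (by omega)]; simp
    · simp only [rk, pos]; split_ifs <;> omega
  · refine ⟨(x, y - 1), by change 0 ≤ x; omega, ?_, ?_⟩
    · rw [Zc (by omega) (by omega) (by omega)]; simp
    · simp only [rk, pos]; split_ifs <;> omega
  · refine ⟨(x - 1, y), by change 0 ≤ x - 1; omega, ?_, ?_⟩
    · rw [Zd (by omega) (by omega) (by omega)]; simp
    · simp only [rk, pos]; split_ifs <;> omega
  · refine ⟨(x - 1, y), by change 0 ≤ x - 1; omega, ?_, ?_⟩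
    · rw [Ze (by omega) (by omega) (by omega)]; simp
    · simp only [rk, pos]; split_ifs <;> omega
  · refine ⟨(x, y + 1), by change 0 ≤ x; omega, ?_, ?_⟩
    · rw [Zf (by omega) (by omega) (by omega)]; simp
    · simp only [rk, pos]; split_ifs <;> omega
  · refine ⟨(x + 1, y), by change 0 ≤ x + 1; omega, ?_, ?_⟩
    · rw [Zg (by omega) (by omega) (by omega)]; simp
    · simp only [rk, pos]; split_ifs <;> omega
  · refine ⟨(x, y + 1), by change 0 ≤ x; omega, ?_, ?_⟩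
    · rw [Zh (by omega) (by omega) (by omega)]; simp
    · simp only [rk, pos]; split_ifs <;> omega


theorem snake : RaySys H Z (0, 0) where
  o_mem := le_refl (0 : ℤ)
  maps := by
    rintro ⟨x, y⟩ hx
    change 0 ≤ x at hx
    change 0 ≤ (Z (x, y)).1
    rcases Z_val hx (y := y) with h | h | h | h | h | h | h | h <;> rw [h.2.2.2] <;> dsimp only <;> omega
  inj := by
    rintro ⟨x, y⟩ hx ⟨x', y'⟩ hx' heq
    change 0 ≤ x at hx
    change 0 ≤ x' at hx'
    rw [Prod.mk.injEq]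
    rcases Z_val hx (y := y) with h | h | h | h | h | h | h | h <;>
      rcases Z_val hx' (y := y') with h' | h' | h' | h' | h' | h' | h' | h' <;>
      rw [h.2.2.2, h'.2.2.2, Prod.mk.injEq] at heq <;>
      obtain ⟨a1, a2, a3, -⟩ := h <;> obtain ⟨b1, b2, b3, -⟩ := h' <;> omega
  no := by
    rintro ⟨x, y⟩ hx heq
    change 0 ≤ x at hx
    rcases Z_val hx (y := y) with h | h | h | h | h | h | h | h <;> rw [h.2.2.2, Prod.mk.injEq] at heq <;>
      obtain ⟨a1, a2, a3, -⟩ := h <;> omega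
  adj := by
    rintro ⟨x, y⟩ hx
    change 0 ≤ x at hx
    rcases Z_val hx (y := y) with h | h | h | h | h | h | h | h <;> rw [h.2.2.2] <;> simp [Adj]
  reach := snake_reach

/-- The marked side of a tile of the right half-plane. -/
def sdR (p : ℤ × ℤ) : Sd :=
  if p.1 < p.2 then Sd.B
  else if p.2 = p.1 then Sd.T
  else if -p.1 ≤ p.2 then Sd.L
  else if p.2 = -1 - p.1 then Sd.B
  else Sd.T

/-- The marked side of every tile of the right half-plane is an edge of the snake. -/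
theorem sdR_edge {p : ℤ × ℤ} (hp : 0 ≤ p.1) : (0 ≤ (e1 p (sdR p)).1 ∧ Z (e1 p (sdR p)) = e2 p (sdR p)) ∨
    (0 ≤ (e2 p (sdR p)).1 ∧ Z (e2 p (sdR p)) = e1 p (sdR p)) := by
  obtain ⟨x, y⟩ := p
  change 0 ≤ x at hp
  unfold sdR
  dsimp only
  split_ifs with h1 h2 h3 h4
  · rcases Int.emod_two_eq_zero_or_one y with h | h
    · right
      refine ⟨by simp only [e2]; omega, ?_⟩
      simp only [e1, e2]
      rw [Za (by omega) (by omega) h]; simp
    · left
      refine ⟨by simp only [e1]; omega, ?_⟩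
      simp only [e1, e2]
      rw [Ze (by omega) (by omega) h]
  · rcases Int.emod_two_eq_zero_or_one (y + 1) with h | h
    · left
      refine ⟨by simp only [e1]; omega, ?_⟩
      simp only [e1, e2]
      rw [Za (by omega) (by omega) h]; simp
    · right
      refine ⟨by simp only [e2]; omega, ?_⟩
      simp only [e1, e2]
      rw [Ze (by omega) (by omega) h]
  · rcases Int.emod_two_eq_zero_or_one x with h | h
    · right
      refine ⟨by simp only [e2]; omega, ?_⟩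
      simp only [e1, e2]
      rw [Zc (by omega) (by omega) h]
    · left
      refine ⟨by simp only [e1]; omega, ?_⟩
      simp only [e1, e2]
      rw [Zf (by omega) (by omega) h]; simp
  · rcases Int.emod_two_eq_zero_or_one y with h | h
    · left
      refine ⟨by simp only [e1]; omega, ?_⟩
      simp only [e1, e2]
      rw [Zd (by omega) (by omega) h]
    · right
      refine ⟨by simp only [e2]; omega, ?_⟩
      simp only [e1, e2]
      rw [Zg (by omega) (by omega) h]; simp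
  · rcases Int.emod_two_eq_zero_or_one (y + 1) with h | h
    · right
      refine ⟨by simp only [e2]; omega, ?_⟩
      simp only [e1, e2]
      rw [Zd (by omega) (by omega) h]
    · left
      refine ⟨by simp only [e1]; omega, ?_⟩
      simp only [e1, e2]
      rw [Zg (by omega) (by omega) h]; simp

/-- Every edge of the snake is marked, except the edges on the vertical axis. -/
theorem edge_sdR {p : ℤ × ℤ} (hp : 0 ≤ p.1) :
    (∃ q : ℤ × ℤ, 0 ≤ q.1 ∧ ((e1 q (sdR q) = p ∧ e2 q (sdR q) = Z p) ∨ (e2 q (sdR q) = p ∧ e1 q (sdR q) = Z p))) ∨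
    (∃ Y : ℤ, Y % 2 = 0 ∧ ((p = (0, Y) ∧ Z p = (0, Y + 1)) ∨ (p = (0, Y + 1) ∧ Z p = (0, Y)))) := by
  obtain ⟨x, y⟩ := p
  change 0 ≤ x at hp
  rcases Z_val hp (y := y) with h | h | h | h | h | h | h | h
  · left
    refine ⟨(x - 1, y), by change 0 ≤ x - 1; omega, Or.inr ?_⟩
    have : sdR (x - 1, y) = Sd.B := by
      unfold sdR; rw [if_pos (by dsimp only; omega)]
    rw [this, h.2.2.2]; simp [e1, e2]
  · right
    refine ⟨y, h.2.2.1, Or.inl ⟨by rw [h.1], ?_⟩⟩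
    rw [h.2.2.2, h.1]
  · left
    refine ⟨(x, y), hp, Or.inr ?_⟩
    have : sdR (x, y) = Sd.L := by
      unfold sdR
      rw [if_neg (by dsimp only; omega), if_neg (by dsimp only; omega), if_pos (by dsimp only; omega)]
    rw [this, h.2.2.2]; simp [e1, e2]
  · left
    refine ⟨(x, y - 1), hp, Or.inr ?_⟩
    have : sdR (x, y - 1) = Sd.T := by
      unfold sdR
      rw [if_neg (by dsimp only; omega), if_neg (by dsimp only; omega), if_neg (by dsimp only; omega),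
        if_neg (by dsimp only; omega)]
    rw [this, h.2.2.2]; simp [e1, e2]
  · left
    refine ⟨(x, y), hp, Or.inl ?_⟩
    have : sdR (x, y) = Sd.B := by
      unfold sdR; rw [if_pos (by dsimp only; omega)]
    rw [this, h.2.2.2]; simp [e1, e2]
  · left
    refine ⟨(x, y - 1), hp, Or.inl ?_⟩
    have : sdR (x, y - 1) = Sd.L := by
      unfold sdR
      rw [if_neg (by dsimp only; omega), if_neg (by dsimp only; omega), if_pos (by dsimp only; omega)]
    rw [this, h.2.2.2]; simp [e1, e2]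
  · left
    refine ⟨(x - 1, y - 1), by change 0 ≤ x - 1; omega, Or.inl ?_⟩
    have : sdR (x - 1, y - 1) = Sd.T := by
      unfold sdR
      rw [if_neg (by dsimp only; omega), if_neg (by dsimp only; omega), if_neg (by dsimp only; omega),
        if_neg (by dsimp only; omega)]
    rw [this, h.2.2.2]; simp [e1, e2]
  · right
    refine ⟨y - 1, by omega, Or.inr ⟨by rw [h.1]; simp, ?_⟩⟩
    rw [h.2.2.2, h.1]

end Pool.Agent.R175.HalfSnake
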