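import Mathlib
import Pool.Agent.R175.HexTri

/-!
# Regular triangles and hexagons with sides of length one: sides, corners and neighbours
-/

set_option autoImplicit false

namespace Pool.Agent.R175.HexTri

open Set Pool.Agent.R175.TriGeo Pool.Agent.R175.HexTile

theorem ne_of_norm {u : ℂ} (h : ‖u‖ = 1) : u ≠ 0 := by
  rintro rfl; simp at h

/-- The tile `T` stands on the side `[a, a + u]`. -/
def Std (T : Set ℂ) (a u : ℂ) : Prop := T = tri a u ∨ T = hex a u

theorem Std.B_nonneg {T : Set ℂ} {a u : ℂ} (hu : u ≠ 0) (h : Std T a u) {z : ℂ} (hz : z ∈ T) :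
    0 ≤ B ((z - a) / u) := by
  rcases h with rfl | rfl
  · exact ((mem_tri hu z).1 hz).2.1
  · exact ((mem_hex hu z).1 hz).2.1.1

theorem Std.AB_nonneg {T : Set ℂ} {a u : ℂ} (hu : u ≠ 0) (h : Std T a u) {z : ℂ} (hz : z ∈ T) :
    0 ≤ A ((z - a) / u) + B ((z - a) / u) := by
  rcases h with rfl | rfl
  · have := (mem_tri hu z).1 hz
    linarith [this.1, this.2.1]
  · exact ((mem_hex hu z).1 hz).2.2.1

theorem mem_seg {a u : ℂ} (hu : u ≠ 0) (z : ℂ) : z ∈ segment ℝ a (a + u) ↔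
    B ((z - a) / u) = 0 ∧ 0 ≤ A ((z - a) / u) ∧ A ((z - a) / u) ≤ 1 := by
  rw [segment_eq_image']
  constructor
  · rintro ⟨t, ⟨h0, h1⟩, rfl⟩
    have : (a + t • (a + u - a) - a) / u = t := by
      rw [Complex.real_smul]; field_simp; ring
    rw [this, A_real, B_real]
    exact ⟨rfl, h0, h1⟩
  · rintro ⟨hB, h0, h1⟩
    refine ⟨A ((z - a) / u), ⟨h0, h1⟩, ?_⟩
    have h := eq_of ((z - a) / u)
    rw [hB] at h
    have h2 : z = a + (z - a) / u * u := by field_simp; ring
    simp only [Complex.real_smul]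
    conv_rhs => rw [h2, h]
    push_cast
    ring

theorem Std.mem_seg_of {T : Set ℂ} {a u : ℂ} (hu : u ≠ 0) (h : Std T a u) {z : ℂ} (hz : z ∈ T)
    (hB : B ((z - a) / u) = 0) : z ∈ segment ℝ a (a + u) := by
  rw [mem_seg hu]
  refine ⟨hB, ?_⟩
  rcases h with rfl | rfl
  · have := (mem_tri hu z).1 hz
    rw [hB] at this
    exact ⟨this.1, by linarith [this.2.2]⟩
  · have := (mem_hex hu z).1 hz
    rw [hB] at this
    exact ⟨by linarith [this.2.2.1], this.1.2⟩

theorem Std.eq_corner {T : Set ℂ} {a u : ℂ} (hu : u ≠ 0) (h : Std T a u) {z : ℂ} (hz : z ∈ T)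
    (h0 : A ((z - a) / u) + 2 * B ((z - a) / u) ≤ 0) : z = a := by
  have h1 := h.B_nonneg hu hz
  have h2 := h.AB_nonneg hu hz
  have hB : B ((z - a) / u) = 0 := by linarith
  have hA : A ((z - a) / u) = 0 := by linarith
  have h3 : (z - a) / u = 0 := by
    apply ext_AB
    · rw [hA, A_zero]
    · rw [hB, B_zero]
  have h4 := (div_eq_zero_iff.1 h3).resolve_right hu
  linear_combination h4

theorem tri_corner (a u : ℂ) : a ∈ tri a u ∧ a + u ∈ tri a u ∧ a + ζ * u ∈ tri a u := by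
  refine ⟨?_, ?_, ?_⟩ <;> apply subset_convexHull <;> simp

theorem hex_corner (a u : ℂ) : a ∈ hex a u ∧ a + u ∈ hex a u ∧ a + (1 + ζ) * u ∈ hex a u ∧
    a + 2 * ζ * u ∈ hex a u ∧ a + (2 * ζ - 1) * u ∈ hex a u ∧ a + (ζ - 1) * u ∈ hex a u := by
  refine ⟨?_, ?_, ?_, ?_, ?_, ?_⟩ <;> apply subset_convexHull <;> simp

theorem tri_sub_hex {a u : ℂ} (hu : u ≠ 0) : tri a u ⊆ hex a u := by
  intro z hz
  rw [mem_tri hu] at hz
  rw [mem_hex hu]
  obtain ⟨h1, h2, h3⟩ := hz
  refine ⟨⟨by linarith, by linarith⟩, ⟨by linarith, by linarith⟩, ⟨by linarith, by linarith⟩⟩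

theorem Std.corners {T : Set ℂ} {a u : ℂ} (hu : u ≠ 0) (h : Std T a u) : a ∈ T ∧ a + u ∈ T ∧ a + ζ * u ∈ T := by
  rcases h with rfl | rfl
  · exact tri_corner a u
  · have := tri_corner a u
    exact ⟨tri_sub_hex hu this.1, tri_sub_hex hu this.2.1, tri_sub_hex hu this.2.2⟩

theorem Std.compact {T : Set ℂ} {a u : ℂ} (h : Std T a u) : IsCompact T := by
  rcases h with rfl | rfl
  · exact (Set.toFinite _).isCompact_convexHull ℝ
  · exact (Set.toFinite _).isCompact_convexHull ℝ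

theorem Std.convex {T : Set ℂ} {a u : ℂ} (h : Std T a u) : Convex ℝ T := by
  rcases h with rfl | rfl
  · exact convex_convexHull ℝ _
  · exact convex_convexHull ℝ _

/-! ### Reading the corners from another starting point -/

theorem rot_tri {a u : ℂ} (hu : u ≠ 0) : tri a u = tri (a + u) (ζ * ζ * u) := by
  have h2 : ζ * ζ * u ≠ 0 := mul_ne_zero (mul_ne_zero zeta_ne zeta_ne) hu
  ext z
  rw [mem_tri hu, mem_tri h2]
  have e : (z - (a + u)) / (ζ * ζ * u) = ((z - a) / u - 1) / (ζ * ζ) := by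
    field_simp; ring
  rw [e, A_zzdiv, B_zzdiv, A_sub, B_sub, A_one, B_one]
  constructor
  · rintro ⟨h1, h2, h3⟩; refine ⟨by linarith, by linarith, by linarith⟩
  · rintro ⟨h1, h2, h3⟩; refine ⟨by linarith, by linarith, by linarith⟩

theorem rot_hex {a u : ℂ} (hu : u ≠ 0) : hex a u = hex (a + u) (ζ * u) := by
  have h2 : ζ * u ≠ 0 := mul_ne_zero zeta_ne hu
  ext z
  rw [mem_hex hu, mem_hex h2]
  have e : (z - (a + u)) / (ζ * u) = ((z - a) / u - 1) / ζ := by
    have := zeta_ne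
    field_simp; ring
  rw [e, A_zdiv, B_zdiv, A_sub, B_sub, A_one, B_one]
  constructor
  · rintro ⟨⟨h1, h2⟩, ⟨h3, h4⟩, ⟨h5, h6⟩⟩
    refine ⟨⟨by linarith, by linarith⟩, ⟨by linarith, by linarith⟩, ⟨by linarith, by linarith⟩⟩
  · rintro ⟨⟨h1, h2⟩, ⟨h3, h4⟩, ⟨h5, h6⟩⟩
    refine ⟨⟨by linarith, by linarith⟩, ⟨by linarith, by linarith⟩, ⟨by linarith, by linarith⟩⟩

theorem norm_zmul {u : ℂ} (hu : ‖u‖ = 1) : ‖ζ * u‖ = 1 := by
  rw [norm_mul, zeta_norm, hu, one_mul]

theorem hex_opp {a u : ℂ} (hu : u ≠ 0) : hex a u = hex (a + 2 * ζ * u) (-u) := by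
  have h1 : ζ * u ≠ 0 := mul_ne_zero zeta_ne hu
  have h2 : ζ * (ζ * u) ≠ 0 := mul_ne_zero zeta_ne h1
  rw [rot_hex hu, rot_hex h1, rot_hex h2]
  have e1 : ζ * (ζ * (ζ * u)) = -u := by linear_combination u * zeta3
  have e2 : a + u + ζ * u + ζ * (ζ * u) = a + 2 * ζ * u := by linear_combination u * zeta_sq
  rw [e1, e2]

/-! ### Sides -/

theorem seg_unit {a u a' u' : ℂ} (hu : ‖u‖ = 1) (hu' : ‖u'‖ = 1) (h1 : a ∈ segment ℝ a' (a' + u'))
    (h2 : a + u ∈ segment ℝ a' (a' + u')) : (a' = a ∧ u' = u) ∨ (a' = a + u ∧ u' = -u) := by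
  rw [segment_eq_image'] at h1 h2
  obtain ⟨s, ⟨hs0, hs1⟩, hs⟩ := h1
  obtain ⟨t, ⟨ht0, ht1⟩, ht⟩ := h2
  simp only [add_sub_cancel_left, Complex.real_smul] at hs ht
  have e : u = ((t - s : ℝ) : ℂ) * u' := by
    push_cast
    linear_combination ht.symm - hs.symm
  have hn : |t - s| = 1 := by
    have := congrArg norm e
    rw [hu, norm_mul, hu', mul_one, Complex.norm_real, Real.norm_eq_abs] at this
    exact this.symm
  rcases abs_cases (t - s) with ⟨h, -⟩ | ⟨h, -⟩
  · have hs' : s = 0 := by linarith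
    have ht' : t = 1 := by linarith
    subst hs'; subst ht'
    left
    constructor
    · rw [← hs]; simp
    · rw [e]; simp
  · have hs' : s = 1 := by linarith
    have ht' : t = 0 := by linarith
    subst hs'; subst ht'
    right
    constructor
    · rw [← ht]; simp
    · rw [e]; simp

theorem B_pos_combo {f : ℂ → ℝ} (hadd : ∀ z w, f (z + w) = f z + f w) (hs : ∀ (c : ℝ) z, f (c • z) = c * f z)
    {a u x y m : ℂ} (hm : m ∈ openSegment ℝ x y) (hx : 0 ≤ f ((x - a) / u)) (hy : 0 ≤ f ((y - a) / u))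
    (h0 : f ((m - a) / u) ≤ 0) : f ((x - a) / u) = 0 ∧ f ((y - a) / u) = 0 := by
  obtain ⟨s, t, hs0, ht0, hst, rfl⟩ := hm
  have e : (s • x + t • y - a) / u = s • ((x - a) / u) + t • ((y - a) / u) := by
    have : (s : ℂ) + t = 1 := by exact_mod_cast hst
    simp only [Complex.real_smul]
    linear_combination (-a / u) * (-this)
  rw [e, hadd, hs, hs] at h0
  have h1 : 0 ≤ s * f ((x - a) / u) := mul_nonneg hs0.le hx
  have h2 : 0 ≤ t * f ((y - a) / u) := mul_nonneg ht0.le hy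
  have h3 : s * f ((x - a) / u) = 0 := by linarith
  have h4 : t * f ((y - a) / u) = 0 := by linarith
  exact ⟨(mul_eq_zero.1 h3).resolve_left hs0.ne', (mul_eq_zero.1 h4).resolve_left ht0.ne'⟩

/-- The tile on the other side of a side of a tile. -/
theorem across {F : Set (Set ℂ)} (hfin : F.Finite) (htile : ∀ T ∈ F, IsTri T ∨ IsHex T)
    (hedge : ∀ S ∈ F, ∀ T ∈ F, S ≠ T → S ∩ T = ∅ ∨ (∃ v, IsCorner S v ∧ IsCorner T v ∧ S ∩ T = {v}) ∨
      (∃ e, IsSide S e ∧ IsSide T e ∧ S ∩ T = e))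
    {T : Set ℂ} (hT : T ∈ F) {a u : ℂ} (hu : ‖u‖ = 1) (hTs : Std T a u) {m : ℂ}
    (hm : m ∈ openSegment ℝ a (a + u)) (hmK : m ∈ interior (⋃₀ F)) :
    ∃ T' ∈ F, Std T' (a + u) (-u) := by
  have hu0 := ne_of_norm hu
  have hstd : ∀ T ∈ F, ∃ a u, ‖u‖ = 1 ∧ Std T a u := by
    intro T hT
    rcases htile T hT with ⟨a, u, h1, h2⟩ | ⟨a, u, h1, h2⟩
    · exact ⟨a, u, h1, Or.inl h2⟩
    · exact ⟨a, u, h1, Or.inr h2⟩
  have hmB : B ((m - a) / u) = 0 := ((mem_seg hu0 m).1 (openSegment_subset_segment ℝ _ _ hm)).1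
  -- another tile contains `m`
  obtain ⟨T', hT', hne, hmT'⟩ : ∃ T' ∈ F, T ≠ T' ∧ m ∈ T' := by
    by_contra hcon
    push Not at hcon
    have hcl : IsClosed (⋃₀ (F \ {T})) := by
      rw [sUnion_eq_biUnion]
      apply Set.Finite.isClosed_biUnion (hfin.subset sdiff_subset)
      intro S hS
      obtain ⟨b, w, -, h⟩ := hstd S hS.1
      exact h.compact.isClosed
    have hmem : m ∈ interior T := by
      rw [mem_interior]
      refine ⟨interior (⋃₀ F) ∩ (⋃₀ (F \ {T}))ᶜ, ?_, isOpen_interior.inter hcl.isOpen_compl, hmK, ?_⟩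
      · rintro z ⟨hz1, hz2⟩
        obtain ⟨S, hS, hzS⟩ := interior_subset hz1
        by_cases hST : S = T
        · rw [← hST]; exact hzS
        · exact absurd ⟨S, ⟨hS, hST⟩, hzS⟩ hz2
      · rintro ⟨S, ⟨hS, hST⟩, hmS⟩
        exact hcon S hS (fun h => hST h.symm) hmS
    obtain ⟨t, ht, hz⟩ := exists_move hmem (-(ζ * u))
    have := hTs.B_nonneg hu0 hz
    have e : (m + t * -(ζ * u) - a) / u = (m - a) / u - ((t : ℝ) : ℂ) * ζ := by field_simp; ring
    rw [e, B_sub, B_mul, B_zeta, hmB] at this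
    linarith
  have hmT : m ∈ T := hTs.convex.segment_subset (hTs.corners hu0).1 (hTs.corners hu0).2.1
    (openSegment_subset_segment ℝ _ _ hm)
  have c1 := (hTs.corners hu0).1
  have c2 := (hTs.corners hu0).2.1
  rcases hedge T hT T' hT' hne with h | ⟨v, ⟨w, hw, hv⟩, -, h⟩ | ⟨e, ⟨b, w, hw, hb, he⟩, ⟨b', w', hw', hb', he'⟩, h⟩
  · exact absurd (h ▸ (⟨hmT, hmT'⟩ : m ∈ T ∩ T') : m ∈ (∅ : Set ℂ)) (by simp)
  · exfalso
    have hw0 := ne_of_norm hw
    have hmv : m = v := by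
      have : m ∈ T ∩ T' := ⟨hmT, hmT'⟩
      rw [h] at this; exact this
    subst hmv
    have hv' : Std T m w := hv
    have g1 := hv'.B_nonneg hw0 c1
    have g2 := hv'.B_nonneg hw0 c2
    have g3 := hv'.AB_nonneg hw0 c1
    have g4 := hv'.AB_nonneg hw0 c2
    have h0 := B_pos_combo (f := fun z => A z + 2 * B z) (a := m) (u := w)
      (by intro z w; simp only [A_add, B_add]; ring) (by intro c z; simp only [A_smul, B_smul]; ring)
      hm (by linarith) (by linarith) (by simp [A_zero, B_zero])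
    have e1 := hv'.eq_corner hw0 c1 h0.1.le
    have e2 := hv'.eq_corner hw0 c2 h0.2.le
    apply hu0
    linear_combination e2 - e1
  · have hw0 := ne_of_norm hw
    have hb2 : Std T b w := hb
    have hme : m ∈ e := by rw [← h]; exact ⟨hmT, hmT'⟩
    have hmB' : B ((m - b) / w) = 0 := by rw [he] at hme; exact ((mem_seg hw0 m).1 hme).1
    have h0 := B_pos_combo (f := B) B_add B_smul (a := b) (u := w) hm (hb2.B_nonneg hw0 c1)
      (hb2.B_nonneg hw0 c2) hmB'.le
    have k1 : a ∈ e := by rw [he]; exact hb2.mem_seg_of hw0 c1 h0.1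
    have k2 : a + u ∈ e := by rw [he]; exact hb2.mem_seg_of hw0 c2 h0.2
    have hsub : e = segment ℝ a (a + u) := by
      have k1' := k1
      have k2' := k2
      rw [he] at k1' k2' ⊢
      rcases seg_unit hu hw k1' k2' with ⟨r1, r2⟩ | ⟨r1, r2⟩
      · rw [r1, r2]
      · rw [r1, r2, segment_symm]; congr 1; ring
    rw [he'] at k1 k2
    refine ⟨T', hT', ?_⟩
    rcases seg_unit hu hw' k1 k2 with ⟨r1, r2⟩ | ⟨r1, r2⟩
    · exfalso
      have hb3 : Std T' a u := by rw [← r1, ← r2]; exact hb'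
      have : a + ζ * u ∈ e := by rw [← h]; exact ⟨(hTs.corners hu0).2.2, (hb3.corners hu0).2.2⟩
      rw [hsub, mem_seg hu0] at this
      have e3 : (a + ζ * u - a) / u = ζ := by field_simp; ring
      rw [e3, B_zeta] at this
      exact one_ne_zero this.1
    · rw [← r1, ← r2]; exact hb'

/-- A variant: it suffices that an end of the side is interior to the patch. -/
theorem across_end {F : Set (Set ℂ)} (hfin : F.Finite) (htile : ∀ T ∈ F, IsTri T ∨ IsHex T)
    (hedge : ∀ S ∈ F, ∀ T ∈ F, S ≠ T → S ∩ T = ∅ ∨ (∃ v, IsCorner S v ∧ IsCorner T v ∧ S ∩ T = {v}) ∨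
      (∃ e, IsSide S e ∧ IsSide T e ∧ S ∩ T = e))
    {T : Set ℂ} (hT : T ∈ F) {a u : ℂ} (hu : ‖u‖ = 1) (hTs : Std T a u)
    (hK : a ∈ interior (⋃₀ F) ∨ a + u ∈ interior (⋃₀ F)) :
    ∃ T' ∈ F, Std T' (a + u) (-u) := by
  have key : ∀ (x v : ℂ), x ∈ interior (⋃₀ F) → ∃ t : ℝ, 0 < t ∧ t < 1 ∧ x + t * v ∈ interior (⋃₀ F) := by
    intro x v hx
    have hx' : x ∈ interior (interior (⋃₀ F)) := by rw [interior_interior]; exact hx
    have hc : Continuous fun t : ℝ => x + (t : ℂ) * v := by fun_prop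
    have hopen := (isOpen_interior (s := ⋃₀ F)).preimage hc
    have h0 : (0 : ℝ) ∈ (fun t : ℝ => x + (t : ℂ) * v) ⁻¹' interior (⋃₀ F) := by
      simp only [mem_preimage, Complex.ofReal_zero, zero_mul, add_zero]; exact hx
    obtain ⟨ε, hε, hb⟩ := Metric.isOpen_iff.1 hopen 0 h0
    refine ⟨min (ε / 2) (1 / 2), by positivity, lt_of_le_of_lt (min_le_right _ _) (by norm_num), ?_⟩
    apply hb
    rw [Metric.mem_ball, dist_zero_right, Real.norm_eq_abs, abs_of_pos (by positivity)]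
    exact lt_of_le_of_lt (min_le_left _ _) (by linarith)
  rcases hK with h | h
  · obtain ⟨t, h0, h1, ht⟩ := key a u h
    refine across hfin htile hedge hT hu hTs ?_ ht
    rw [openSegment_eq_image']
    refine ⟨t, ⟨h0, h1⟩, ?_⟩
    simp [Complex.real_smul]
  · obtain ⟨t, h0, h1, ht⟩ := key (a + u) (-u) h
    refine across hfin htile hedge hT hu hTs ?_ ht
    rw [openSegment_symm, openSegment_eq_image']
    refine ⟨t, ⟨h0, h1⟩, ?_⟩
    simp [Complex.real_smul]

/-! ### How two tiles can meet -/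

/-- The possible relations of two different tiles of an edge-to-edge family. -/
def Meets (S T : Set ℂ) : Prop := S ∩ T = ∅ ∨ (∃ v, IsCorner S v ∧ IsCorner T v ∧ S ∩ T = {v}) ∨
    (∃ e, IsSide S e ∧ IsSide T e ∧ S ∩ T = e)

theorem Meets.symm {S T : Set ℂ} (h : Meets S T) : Meets T S := by
  rcases h with h | ⟨v, h1, h2, h3⟩ | ⟨e, h1, h2, h3⟩
  · left; rw [inter_comm]; exact h
  · right; left; exact ⟨v, h2, h1, by rw [inter_comm]; exact h3⟩
  · right; right; exact ⟨e, h2, h1, by rw [inter_comm]; exact h3⟩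

theorem meets_side {S T : Set ℂ} {a u : ℂ} (hu : ‖u‖ = 1) (hS : Std S a u) (hT : Std T (a + u) (-u)) :
    Meets S T := by
  have hu0 := ne_of_norm hu
  have hu0' : -u ≠ 0 := neg_ne_zero.2 hu0
  right; right
  refine ⟨segment ℝ a (a + u), ⟨a, u, hu, hS, rfl⟩, ⟨a + u, -u, by rw [norm_neg]; exact hu, hT, ?_⟩, ?_⟩
  · rw [segment_symm]; congr 1; ring
  · apply Subset.antisymm
    · rintro z ⟨h1, h2⟩
      apply hS.mem_seg_of hu0 h1
      have g1 := hS.B_nonneg hu0 h1
      have g2 := hT.B_nonneg hu0' h2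
      have e : (z - (a + u)) / -u = -((z - a) / u - 1) := by field_simp; ring
      rw [e, B_neg, B_sub, B_one] at g2
      linarith
    · have c := hT.corners hu0'
      have e : a + u + -u = a := by ring
      rw [e] at c
      exact subset_inter (hS.convex.segment_subset (hS.corners hu0).1 (hS.corners hu0).2.1)
        (hT.convex.segment_subset c.2.1 c.1)

theorem meets_corner {S T : Set ℂ} {v u : ℂ} (hu : ‖u‖ = 1) (hS : Std S v u) (hT : Std T v (-u)) :
    Meets S T := by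
  have hu0 := ne_of_norm hu
  have hu0' : -u ≠ 0 := neg_ne_zero.2 hu0
  right; left
  refine ⟨v, ⟨u, hu, hS⟩, ⟨-u, by rw [norm_neg]; exact hu, hT⟩, ?_⟩
  apply Subset.antisymm
  · rintro z ⟨h1, h2⟩
    apply hS.eq_corner hu0 h1
    have g2 := hT.B_nonneg hu0' h2
    have g3 := hT.AB_nonneg hu0' h2
    rw [A_ndiv, B_ndiv] at g3
    rw [B_ndiv] at g2
    linarith
  · rintro z rfl
    exact ⟨(hS.corners hu0).1, (hT.corners hu0').1⟩

theorem meets_corner' {S : Set ℂ} {v u : ℂ} (hu : ‖u‖ = 1) (hS : Std S v u) :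
    Meets S (tri v (-(ζ * u))) := by
  have hu0 := ne_of_norm hu
  have hn : ‖-(ζ * u)‖ = 1 := by rw [norm_neg]; exact norm_zmul hu
  have hu0' : -(ζ * u) ≠ 0 := ne_of_norm hn
  right; left
  refine ⟨v, ⟨u, hu, hS⟩, ⟨-(ζ * u), hn, Or.inl rfl⟩, ?_⟩
  apply Subset.antisymm
  · rintro z ⟨h1, h2⟩
    apply hS.eq_corner hu0 h1
    rw [mem_tri hu0'] at h2
    have e : (z - v) / -(ζ * u) = -(((z - v) / u) / ζ) := by
      have := zeta_ne
      field_simp
    rw [e, A_neg, B_neg, A_zdiv, B_zdiv] at h2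
    linarith [h2.1, h2.2.1]
  · rintro z rfl
    exact ⟨(hS.corners hu0).1, (tri_corner _ _).1⟩

/-- Two tiles that meet properly meet in a null set. -/
theorem Meets.volume {S T : Set ℂ} (h : Meets S T) : MeasureTheory.volume (S ∩ T) = 0 := by
  rcases h with h | ⟨v, h1, h2, h3⟩ | ⟨e, ⟨a, u, hu, -, he⟩, h2, h3⟩
  · rw [h]; simp
  · rw [h3]; simp
  · rw [h3, he]
    have hsub : segment ℝ a (a + u) ⊆ (line[ℝ, a, a + u] : Set ℂ) := by
      rw [← convexHull_pair]
      exact convexHull_subset_affineSpan _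
    apply MeasureTheory.measure_mono_null hsub
    apply MeasureTheory.Measure.addHaar_affineSubspace
    intro htop
    have h1 : Collinear ℝ {a, a + u} := collinear_pair ℝ _ _
    have h2 := h1.finrank_le_one
    have h3 : vectorSpan ℝ {a, a + u} = ⊤ := by
      rw [← direction_affineSpan, htop, AffineSubspace.direction_top]
    rw [h3, finrank_top, Complex.finrank_real_complex] at h2
    omega

/-! ### Corners -/

theorem corner_extreme {T : Set ℂ} {v : ℂ} (h : IsCorner T v) : v ∈ T.extremePoints ℝ := by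
  obtain ⟨u, hu, hT⟩ := h
  have hu0 := ne_of_norm hu
  have hT' : Std T v u := hT
  rw [mem_extremePoints]
  refine ⟨(hT'.corners hu0).1, ?_⟩
  intro x hx y hy hv
  have g1 := hT'.B_nonneg hu0 hx
  have g2 := hT'.B_nonneg hu0 hy
  have g3 := hT'.AB_nonneg hu0 hx
  have g4 := hT'.AB_nonneg hu0 hy
  have h0 := B_pos_combo (f := fun z => A z + 2 * B z) (a := v) (u := u)
    (by intro z w; simp only [A_add, B_add]; ring) (by intro c z; simp only [A_smul, B_smul]; ring)
    hv (by linarith) (by linarith) (by simp [A_zero, B_zero])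
  exact ⟨hT'.eq_corner hu0 hx h0.1.le, hT'.eq_corner hu0 hy h0.2.le⟩

theorem corner_tri {a u v : ℂ} (h : IsCorner (tri a u) v) : v = a ∨ v = a + u ∨ v = a + ζ * u := by
  have := extremePoints_convexHull_subset (corner_extreme h)
  simpa using this

theorem corner_hex {a u v : ℂ} (h : IsCorner (hex a u) v) : v = a ∨ v = a + u ∨ v = a + (1 + ζ) * u ∨
    v = a + 2 * ζ * u ∨ v = a + (2 * ζ - 1) * u ∨ v = a + (ζ - 1) * u := by
  have := extremePoints_convexHull_subset (corner_extreme h)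
  simpa using this

theorem tri_not_hex {a u : ℂ} (hu : ‖u‖ = 1) : ¬ IsHex (tri a u) := by
  rintro ⟨b, w, hw, h⟩
  have hw0 := ne_of_norm hw
  have c1 : IsCorner (tri a u) b := ⟨w, hw, Or.inr h⟩
  have c2 : IsCorner (tri a u) (b + 2 * ζ * w) := by
    refine ⟨-w, by rw [norm_neg]; exact hw, Or.inr ?_⟩
    rw [h]; exact hex_opp hw0
  have hn : ‖2 * ζ * w‖ = 2 := by
    rw [norm_mul, norm_mul, zeta_norm, hw]; simp
  have hz : ‖ζ * u‖ = 1 := norm_zmul hu
  have hz2 : ‖ζ * u - u‖ = 1 := by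
    have : ζ * u - u = ζ * (ζ * u) := by linear_combination (-u) * zeta_sq
    rw [this]; exact norm_zmul hz
  have hz3 : ‖u - ζ * u‖ = 1 := by rw [norm_sub_rev]; exact hz2
  rcases corner_tri c1 with h1 | h1 | h1 <;> rcases corner_tri c2 with h2 | h2 | h2 <;> exfalso
  · have e : 2 * ζ * w = 0 := by linear_combination h2 - h1
    rw [e] at hn; simp at hn
  · have e : 2 * ζ * w = u := by linear_combination h2 - h1
    rw [e] at hn; linarith
  · have e : 2 * ζ * w = ζ * u := by linear_combination h2 - h1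
    rw [e] at hn; linarith
  · have e : 2 * ζ * w = -u := by linear_combination h2 - h1
    rw [e, norm_neg] at hn; linarith
  · have e : 2 * ζ * w = 0 := by linear_combination h2 - h1
    rw [e] at hn; simp at hn
  · have e : 2 * ζ * w = ζ * u - u := by linear_combination h2 - h1
    rw [e] at hn; linarith
  · have e : 2 * ζ * w = -(ζ * u) := by linear_combination h2 - h1
    rw [e, norm_neg] at hn; linarith
  · have e : 2 * ζ * w = u - ζ * u := by linear_combination h2 - h1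
    rw [e] at hn; linarith
  · have e : 2 * ζ * w = 0 := by linear_combination h2 - h1
    rw [e] at hn; simp at hn

theorem hex_not_tri {a u : ℂ} (hu : ‖u‖ = 1) : ¬ IsTri (hex a u) := by
  rintro ⟨b, w, hw, h⟩
  exact tri_not_hex hw ⟨a, u, hu, h.symm⟩

end Pool.Agent.R175.HexTri
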