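import Mathlib
import Pool.Agent.R175.Disk
import Pool.Agent.R175.GridPath
import Pool.Agent.R175.GridTile

/-!
# Polyominoes: edge-connectivity, skeleton, area
-/

set_option autoImplicit false

namespace Pool.Agent.R175.Poly

open Set MeasureTheory Pool.Agent.R175.Disk
open Pool.Agent.R175.GridPath (Adj)
open Pool.Agent.R175.GridTile (cell)

/-- The union of the closed cells with indices in `S`. -/
def region (S : Finset (ℤ × ℤ)) : Set ℂ := ⋃ c ∈ S, cell c

/-- The centre of a cell. -/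
noncomputable def ctr (c : ℤ × ℤ) : ℂ := ⟨c.1 + 1 / 2, c.2 + 1 / 2⟩

theorem mem_cell {c : ℤ × ℤ} {z : ℂ} : z ∈ cell c ↔
    ((c.1 : ℝ) ≤ z.re ∧ z.re ≤ c.1 + 1) ∧ ((c.2 : ℝ) ≤ z.im ∧ z.im ≤ c.2 + 1) := by
  rw [cell, Complex.mem_reProdIm]; rfl

theorem mem_region {S : Finset (ℤ × ℤ)} {z : ℂ} : z ∈ region S ↔ ∃ c ∈ S, z ∈ cell c := by
  unfold region; simp only [mem_iUnion, exists_prop]

theorem cell_closed (c : ℤ × ℤ) : IsClosed (cell c) := IsClosed.reProdIm isClosed_Icc isClosed_Icc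

theorem cell_convex (c : ℤ × ℤ) : Convex ℝ (cell c) := by
  intro z hz w hw a b ha hb hab
  rw [cell, Complex.mem_reProdIm] at hz hw ⊢
  have e1 : (a • z + b • w).re = a • z.re + b • w.re := by simp
  have e2 : (a • z + b • w).im = a • z.im + b • w.im := by simp
  rw [e1, e2]
  exact ⟨convex_Icc _ _ hz.1 hw.1 ha hb hab, convex_Icc _ _ hz.2 hw.2 ha hb hab⟩

theorem region_closed (S : Finset (ℤ × ℤ)) : IsClosed (region S) :=
  S.finite_toSet.isClosed_biUnion (fun c _ => cell_closed c)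

theorem interior_cell {c : ℤ × ℤ} {z : ℂ} : z ∈ interior (cell c) ↔
    ((c.1 : ℝ) < z.re ∧ z.re < c.1 + 1) ∧ ((c.2 : ℝ) < z.im ∧ z.im < c.2 + 1) := by
  rw [cell, Complex.interior_reProdIm, interior_Icc, interior_Icc, Complex.mem_reProdIm]; rfl

theorem ctr_mem (c : ℤ × ℤ) : ctr c ∈ interior (cell c) := by
  rw [interior_cell]
  unfold ctr
  dsimp only
  exact ⟨⟨by linarith, by linarith⟩, by linarith, by linarith⟩

/-- An interior point of a cell lies in no other cell. -/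
theorem cell_unique {c d : ℤ × ℤ} {z : ℂ} (h1 : z ∈ interior (cell c)) (h2 : z ∈ cell d) : c = d := by
  rw [interior_cell] at h1
  rw [mem_cell] at h2
  obtain ⟨⟨a1, a2⟩, a3, a4⟩ := h1
  obtain ⟨⟨b1, b2⟩, b3, b4⟩ := h2
  have k1 : (c.1 : ℝ) < d.1 + 1 := by linarith
  have k2 : (d.1 : ℝ) < c.1 + 1 := by linarith
  have k3 : (c.2 : ℝ) < d.2 + 1 := by linarith
  have k4 : (d.2 : ℝ) < c.2 + 1 := by linarith
  have l1 : c.1 < d.1 + 1 := by exact_mod_cast k1
  have l2 : d.1 < c.1 + 1 := by exact_mod_cast k2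
  have l3 : c.2 < d.2 + 1 := by exact_mod_cast k3
  have l4 : d.2 < c.2 + 1 := by exact_mod_cast k4
  apply Prod.ext <;> omega

/-- Distinct cells that are not adjacent share at most one point. -/
theorem cell_inter_subsingleton {c d : ℤ × ℤ} (hne : c ≠ d) (hadj : ¬ Adj c d) :
    (cell c ∩ cell d).Subsingleton := by
  rintro z ⟨hz, hz'⟩ w ⟨hw, hw'⟩
  rw [mem_cell] at hz hz' hw hw'
  obtain ⟨⟨a1, a2⟩, a3, a4⟩ := hz
  obtain ⟨⟨b1, b2⟩, b3, b4⟩ := hz'
  obtain ⟨⟨c1, c2⟩, c3, c4⟩ := hw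
  obtain ⟨⟨d1, d2⟩, d3, d4⟩ := hw'
  have k1 : (c.1 : ℝ) ≤ d.1 + 1 := by linarith
  have k2 : (d.1 : ℝ) ≤ c.1 + 1 := by linarith
  have k3 : (c.2 : ℝ) ≤ d.2 + 1 := by linarith
  have k4 : (d.2 : ℝ) ≤ c.2 + 1 := by linarith
  have l1 : c.1 ≤ d.1 + 1 := by exact_mod_cast k1
  have l2 : d.1 ≤ c.1 + 1 := by exact_mod_cast k2
  have l3 : c.2 ≤ d.2 + 1 := by exact_mod_cast k3
  have l4 : d.2 ≤ c.2 + 1 := by exact_mod_cast k4
  have hne' : ¬ (c.1 = d.1 ∧ c.2 = d.2) := fun h => hne (Prod.ext h.1 h.2)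
  unfold Adj at hadj
  have h1 : c.1 = d.1 + 1 ∨ d.1 = c.1 + 1 := by omega
  have h2 : c.2 = d.2 + 1 ∨ d.2 = c.2 + 1 := by omega
  apply Complex.ext
  · rcases h1 with h | h
    · have : (c.1 : ℝ) = d.1 + 1 := by exact_mod_cast h
      linarith
    · have : (d.1 : ℝ) = c.1 + 1 := by exact_mod_cast h
      linarith
  · rcases h2 with h | h
    · have : (c.2 : ℝ) = d.2 + 1 := by exact_mod_cast h
      linarith
    · have : (d.2 : ℝ) = c.2 + 1 := by exact_mod_cast h
      linarith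

/-- The cells of a disk are connected via edges. -/
theorem edge_connected {S : Finset (ℤ × ℤ)} (h : IsDisk (region S)) {a b : ℤ × ℤ} (ha : a ∈ S) (hb : b ∈ S) :
    Relation.ReflTransGen (fun c d => Adj c d ∧ c ∈ S ∧ d ∈ S) a b := by
  classical
  by_contra hcon
  let r := Relation.ReflTransGen (fun c d => Adj c d ∧ c ∈ S ∧ d ∈ S) a
  let A := S.filter r
  let B := S.filter (fun c => ¬ r c)
  have hAB : ∀ c ∈ A, ∀ d ∈ B, c ≠ d ∧ ¬ Adj c d := by
    intro c hc d hd
    rw [Finset.mem_filter] at hc hd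
    constructor
    · rintro rfl; exact hd.2 hc.2
    · intro hadj
      exact hd.2 (hc.2.tail ⟨hadj, hc.1, hd.1⟩)
  have hF : (region A ∩ region B).Finite := by
    have : region A ∩ region B ⊆ ⋃ c ∈ A, ⋃ d ∈ B, (cell c ∩ cell d) := by
      rintro z ⟨h1, h2⟩
      obtain ⟨c, hc, hzc⟩ := mem_region.1 h1
      obtain ⟨d, hd, hzd⟩ := mem_region.1 h2
      simp only [mem_iUnion]
      exact ⟨c, hc, d, hd, hzc, hzd⟩
    apply Set.Finite.subset _ this
    apply A.finite_toSet.biUnion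
    intro c hc
    apply B.finite_toSet.biUnion
    intro d hd
    obtain ⟨h1, h2⟩ := hAB c hc d hd
    exact (cell_inter_subsingleton h1 h2).finite
  have hpre := h.diff_finite hF
  rw [isPreconnected_closed_iff] at hpre
  have haA : a ∈ A := Finset.mem_filter.2 ⟨ha, Relation.ReflTransGen.refl⟩
  have hbB : b ∈ B := Finset.mem_filter.2 ⟨hb, hcon⟩
  have hsub : ∀ z ∈ region S, z ∈ region A ∪ region B := by
    intro z hz
    obtain ⟨c, hc, hzc⟩ := mem_region.1 hz
    by_cases hr : r c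
    · exact Or.inl (mem_region.2 ⟨c, Finset.mem_filter.2 ⟨hc, hr⟩, hzc⟩)
    · exact Or.inr (mem_region.2 ⟨c, Finset.mem_filter.2 ⟨hc, hr⟩, hzc⟩)
  obtain ⟨z, ⟨-, hz1⟩, hz2⟩ := hpre (region A) (region B) (region_closed A) (region_closed B)
    (fun z hz => hsub z hz.1)
    ⟨ctr a, ⟨mem_region.2 ⟨a, ha, interior_subset (ctr_mem a)⟩, by
      rintro ⟨-, h2⟩
      obtain ⟨d, hd, hz⟩ := mem_region.1 h2
      exact (hAB a haA d hd).1 (cell_unique (ctr_mem a) hz)⟩,
      mem_region.2 ⟨a, haA, interior_subset (ctr_mem a)⟩⟩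
    ⟨ctr b, ⟨mem_region.2 ⟨b, hb, interior_subset (ctr_mem b)⟩, by
      rintro ⟨h2, -⟩
      obtain ⟨d, hd, hz⟩ := mem_region.1 h2
      exact (hAB d hd b hbB).1 (cell_unique (ctr_mem b) hz).symm⟩,
      mem_region.2 ⟨b, hbB, interior_subset (ctr_mem b)⟩⟩
  exact hz1 hz2

/-! ### The skeleton -/

/-- The star of a cell: the segments from its centre to the centres of the adjacent cells of `S`. -/
def star (S : Finset (ℤ × ℤ)) (c : ℤ × ℤ) : Set ℂ :=
  ⋃ d : {d : ℤ × ℤ // d = c ∨ (d ∈ S ∧ Adj c d)}, segment ℝ (ctr c) (ctr d)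

/-- The skeleton of a polyomino. -/
def skel (S : Finset (ℤ × ℤ)) : Set ℂ := ⋃ c ∈ S, star S c

theorem ctr_mem_star (S : Finset (ℤ × ℤ)) (c : ℤ × ℤ) : ctr c ∈ star S c :=
  mem_iUnion.2 ⟨⟨c, Or.inl rfl⟩, left_mem_segment ℝ _ _⟩

theorem ctr_mem_skel {S : Finset (ℤ × ℤ)} {c : ℤ × ℤ} (hc : c ∈ S) : ctr c ∈ skel S :=
  mem_iUnion₂.2 ⟨c, hc, ctr_mem_star S c⟩

theorem star_connected (S : Finset (ℤ × ℤ)) (c : ℤ × ℤ) : IsPreconnected (star S c) := by
  apply isPreconnected_iUnion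
  · exact ⟨ctr c, mem_iInter.2 fun d => left_mem_segment ℝ _ _⟩
  · intro d
    exact (convex_segment _ _).isPreconnected

theorem skel_connected {S : Finset (ℤ × ℤ)} (h : IsDisk (region S)) : IsPreconnected (skel S) := by
  apply IsPreconnected.biUnion_of_reflTransGen
  · intro c _
    exact star_connected S c
  · intro a ha b hb
    have h1 := edge_connected h ha hb
    refine Relation.ReflTransGen.mono ?_ a b h1
    rintro c d ⟨hadj, hc, hd⟩
    refine ⟨⟨ctr d, ?_, ctr_mem_star S d⟩, hc⟩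
    exact mem_iUnion.2 ⟨⟨d, Or.inr ⟨hd, hadj⟩⟩, right_mem_segment ℝ _ _⟩

/-- The open disk of radius `1/2` around a point of the skeleton lies in the polyomino. -/
theorem ball_skel {S : Finset (ℤ × ℤ)} {z : ℂ} (hz : z ∈ skel S) : Metric.ball z (1 / 2) ⊆ region S := by
  obtain ⟨c, hc, hz⟩ := mem_iUnion₂.1 hz
  obtain ⟨⟨d, hd⟩, hz⟩ := mem_iUnion.1 hz
  intro w hw
  rw [Metric.mem_ball, dist_eq_norm] at hw
  have h1 := abs_lt.1 ((Complex.abs_re_le_norm (w - z)).trans_lt hw)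
  have h2 := abs_lt.1 ((Complex.abs_im_le_norm (w - z)).trans_lt hw)
  rw [Complex.sub_re] at h1
  rw [Complex.sub_im] at h2
  rw [segment_eq_image'] at hz
  obtain ⟨t, ⟨ht0, ht1⟩, rfl⟩ := hz
  have e1 : (ctr c + t • (ctr d - ctr c)).re = c.1 + 1 / 2 + t * (d.1 - c.1) := by
    simp [ctr]
  have e2 : (ctr c + t • (ctr d - ctr c)).im = c.2 + 1 / 2 + t * (d.2 - c.2) := by
    simp [ctr]
  change (-(1 / 2) < w.re - (ctr c + t • (ctr d - ctr c)).re ∧ _) at h1
  change (-(1 / 2) < w.im - (ctr c + t • (ctr d - ctr c)).im ∧ _) at h2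
  dsimp only at h1 h2
  rw [e1] at h1
  rw [e2] at h2
  obtain ⟨a1, a2⟩ := h1
  obtain ⟨b1, b2⟩ := h2
  rw [mem_region]
  rcases hd with rfl | ⟨hdS, hadj⟩
  · refine ⟨d, hc, ?_⟩
    rw [mem_cell]
    rw [sub_self, mul_zero] at a1 a2 b1 b2
    exact ⟨⟨by linarith, by linarith⟩, by linarith, by linarith⟩
  · rcases hadj with ⟨g1, g2 | g2⟩ | ⟨g1, g2 | g2⟩
    · have f1 : (c.1 : ℝ) = d.1 := by exact_mod_cast g1
      have f2 : (d.2 : ℝ) = c.2 + 1 := by exact_mod_cast g2
      rw [f1] at a1 a2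
      rw [f2] at b1 b2
      have b3 : c.2 + 1 / 2 + t * ((c.2 : ℝ) + 1 - c.2) = c.2 + 1 / 2 + t := by ring
      rw [b3] at b1 b2
      rw [sub_self, mul_zero] at a1 a2
      by_cases h : w.im ≤ c.2 + 1
      · exact ⟨c, hc, mem_cell.2 ⟨⟨by linarith, by linarith⟩, by linarith, h⟩⟩
      · exact ⟨d, hdS, mem_cell.2 ⟨⟨by linarith, by linarith⟩, by linarith, by linarith⟩⟩
    · have f1 : (c.1 : ℝ) = d.1 := by exact_mod_cast g1
      have f2 : (c.2 : ℝ) = d.2 + 1 := by exact_mod_cast g2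
      rw [f1] at a1 a2
      rw [f2] at b1 b2
      have b3 : (d.2 : ℝ) + 1 + 1 / 2 + t * (d.2 - (d.2 + 1)) = d.2 + 1 + 1 / 2 - t := by ring
      rw [b3] at b1 b2
      rw [sub_self, mul_zero] at a1 a2
      by_cases h : c.2 ≤ w.im
      · exact ⟨c, hc, mem_cell.2 ⟨⟨by linarith, by linarith⟩, h, by linarith⟩⟩
      · exact ⟨d, hdS, mem_cell.2 ⟨⟨by linarith, by linarith⟩, by linarith, by linarith⟩⟩
    · have f1 : (c.2 : ℝ) = d.2 := by exact_mod_cast g1
      have f2 : (d.1 : ℝ) = c.1 + 1 := by exact_mod_cast g2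
      rw [f1] at b1 b2
      rw [f2] at a1 a2
      have b3 : c.1 + 1 / 2 + t * ((c.1 : ℝ) + 1 - c.1) = c.1 + 1 / 2 + t := by ring
      rw [b3] at a1 a2
      rw [sub_self, mul_zero] at b1 b2
      by_cases h : w.re ≤ c.1 + 1
      · exact ⟨c, hc, mem_cell.2 ⟨⟨by linarith, h⟩, by linarith, by linarith⟩⟩
      · exact ⟨d, hdS, mem_cell.2 ⟨⟨by linarith, by linarith⟩, by linarith, by linarith⟩⟩
    · have f1 : (c.2 : ℝ) = d.2 := by exact_mod_cast g1
      have f2 : (c.1 : ℝ) = d.1 + 1 := by exact_mod_cast g2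
      rw [f1] at b1 b2
      rw [f2] at a1 a2
      have b3 : (d.1 : ℝ) + 1 + 1 / 2 + t * (d.1 - (d.1 + 1)) = d.1 + 1 + 1 / 2 - t := by ring
      rw [b3] at a1 a2
      rw [sub_self, mul_zero] at b1 b2
      by_cases h : c.1 ≤ w.re
      · exact ⟨c, hc, mem_cell.2 ⟨⟨h, by linarith⟩, by linarith, by linarith⟩⟩
      · exact ⟨d, hdS, mem_cell.2 ⟨⟨by linarith, by linarith⟩, by linarith, by linarith⟩⟩

theorem near_ctr {c : ℤ × ℤ} {z : ℂ} (hz : z ∈ cell c) : dist z (ctr c) ≤ 3 / 4 := by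
  rw [mem_cell] at hz
  obtain ⟨⟨a1, a2⟩, a3, a4⟩ := hz
  rw [dist_eq_norm]
  have h : ‖z - ctr c‖ ^ 2 ≤ 1 / 2 := by
    rw [← Complex.normSq_eq_norm_sq, Complex.normSq_apply, Complex.sub_re, Complex.sub_im]
    unfold ctr
    dsimp only
    nlinarith
  have h0 := norm_nonneg (z - ctr c)
  nlinarith

/-! ### Area -/

/-- The union of the open cells. -/
def openRegion (S : Finset (ℤ × ℤ)) : Set ℂ := ⋃ c ∈ S, interior (cell c)

theorem openRegion_open (S : Finset (ℤ × ℤ)) : IsOpen (openRegion S) :=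
  isOpen_biUnion fun _ _ => isOpen_interior

theorem openRegion_sub (S : Finset (ℤ × ℤ)) : openRegion S ⊆ region S :=
  iUnion₂_mono fun _ _ => interior_subset

theorem volume_rect (a b c d : ℝ) : volume (Icc a b ×ℂ Icc c d) = ENNReal.ofReal (b - a) * ENNReal.ofReal (d - c) := by
  have h : (Icc a b ×ℂ Icc c d) = Complex.measurableEquivRealProd ⁻¹' (Icc a b ×ˢ Icc c d) := by
    ext z; rw [Complex.mem_reProdIm]; rfl
  rw [h, Complex.volume_preserving_equiv_real_prod.measure_preimage_equiv, Measure.volume_eq_prod,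
    Measure.prod_prod, Real.volume_Icc, Real.volume_Icc]

theorem volume_rect_open (a b c d : ℝ) :
    volume (Ioo a b ×ℂ Ioo c d) = ENNReal.ofReal (b - a) * ENNReal.ofReal (d - c) := by
  have h : (Ioo a b ×ℂ Ioo c d) = Complex.measurableEquivRealProd ⁻¹' (Ioo a b ×ˢ Ioo c d) := by
    ext z; rw [Complex.mem_reProdIm]; rfl
  rw [h, Complex.volume_preserving_equiv_real_prod.measure_preimage_equiv, Measure.volume_eq_prod,
    Measure.prod_prod, Real.volume_Ioo, Real.volume_Ioo]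

theorem volume_cell (c : ℤ × ℤ) : volume (cell c) = 1 := by
  unfold cell
  rw [volume_rect]; simp

theorem volume_cell_open (c : ℤ × ℤ) : volume (interior (cell c)) = 1 := by
  unfold cell
  rw [Complex.interior_reProdIm, interior_Icc, interior_Icc, volume_rect_open]; simp

theorem volume_region_le (S : Finset (ℤ × ℤ)) : volume (region S) ≤ S.card := by
  unfold region
  refine (measure_biUnion_finset_le S _).trans ?_
  simp [volume_cell]

theorem volume_openRegion (S : Finset (ℤ × ℤ)) : volume (openRegion S) = S.card := by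
  unfold openRegion
  rw [measure_biUnion_finset]
  · simp [volume_cell_open]
  · intro c _ d _ hcd
    change Disjoint (interior (cell c)) (interior (cell d))
    rw [disjoint_left]
    intro z hz hz'
    exact hcd (cell_unique hz (interior_subset hz'))
  · intro c _
    exact isOpen_interior.measurableSet

theorem volume_image (g : ℂ ≃ᵢ ℂ) (A : Set ℂ) : volume (g '' A) = volume A := by
  have h1 : g '' A = (fun z => z + g 0) '' (g.toRealLinearIsometryEquiv '' A) := by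
    rw [image_image]
    apply image_congr
    intro z _
    rw [IsometryEquiv.toRealLinearIsometryEquiv_apply]; ring
  rw [h1]
  have h2 : (fun z => z + g 0) '' (g.toRealLinearIsometryEquiv '' A) =
      (fun z => z + (-g 0)) ⁻¹' (g.toRealLinearIsometryEquiv '' A) := by
    ext z
    constructor
    · rintro ⟨w, hw, rfl⟩
      rw [mem_preimage, add_neg_cancel_right]; exact hw
    · intro hz
      exact ⟨z + -g 0, hz, by ring⟩
  rw [h2, measure_preimage_add_right]
  have h3 : g.toRealLinearIsometryEquiv '' A = g.toRealLinearIsometryEquiv.symm ⁻¹' A :=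
    g.toRealLinearIsometryEquiv.toEquiv.image_eq_preimage_symm A
  rw [h3]
  have h4 := g.toRealLinearIsometryEquiv.symm.measurePreserving
  exact h4.measure_preimage_emb g.toRealLinearIsometryEquiv.symm.toHomeomorph.measurableEmbedding A

end Pool.Agent.R175.Poly
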