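import Mathlib

/-!
# Multiple tilings of the plane by convex polygons: definitions (MP_5dc1dd_co)
-/

set_option autoImplicit false

namespace Pool.Agent.R175.MultiTiling

open Set

/-- A closed convex polygon: the convex hull of finitely many points, with nonempty interior. -/
def IsConvexPolygon (P : Set ℂ) : Prop :=
  (interior P).Nonempty ∧ ∃ s : Set ℂ, s.Finite ∧ P = convexHull ℝ s

/-- `F` is a multiple tiling of density `d`: a countable family of closed convex polygons such that every
point of the plane that lies on the boundary of no member lies in the interiors of exactly `d` members. -/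
structure IsMultipleTiling {ι : Type} (F : ι → Set ℂ) (d : ℕ) : Prop where
  countable : Countable ι
  polygon : ∀ i, IsConvexPolygon (F i)
  density : ∀ z : ℂ, (∀ i, z ∉ frontier (F i)) → {i | z ∈ interior (F i)}.encard = d

/-- Monohedral with prototile `P`: every member is congruent to `P` (reflections allowed). -/
def Monohedral {ι : Type} (F : ι → Set ℂ) (P : Set ℂ) : Prop := ∀ i, ∃ g : ℂ ≃ᵢ ℂ, F i = g '' P

/-- Reducible: the family can be split into `k ≥ 2` nonempty subfamilies (the colour classes of a
colouring `c`), each of which is a multiple tiling of some positive density. -/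
def Reducible {ι : Type} (F : ι → Set ℂ) : Prop :=
  ∃ (k : ℕ) (c : ι → Fin k), 2 ≤ k ∧ ∀ j : Fin k, (∃ i, c i = j) ∧
    ∃ d' : ℕ, 1 ≤ d' ∧ IsMultipleTiling (fun i : {i // c i = j} => F i) d'

/-- If exactly two tiles `a ≠ b` contain a point `z` (lying on no boundary) in their interiors, then in a
splitting there are exactly two classes and `a`, `b` lie in different ones. -/
theorem split_ne {ι : Type} {F : ι → Set ℂ} {k : ℕ} {c : ι → Fin k} (hk : 2 ≤ k)
    (h : ∀ j : Fin k, ∃ d' : ℕ, 1 ≤ d' ∧ IsMultipleTiling (fun i : {i // c i = j} => F i) d')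
    {z : ℂ} (hz : ∀ i, z ∉ frontier (F i)) {a b : ι} (hab : ∀ i, z ∈ interior (F i) → i = a ∨ i = b) :
    k = 2 ∧ c a ≠ c b := by
  have hex : ∀ j : Fin k, j = c a ∨ j = c b := by
    intro j
    obtain ⟨d', h1, hm⟩ := h j
    have hd := hm.density z (fun i => hz i)
    have hne : {i : {i // c i = j} | z ∈ interior (F i)}.Nonempty := by
      rw [← encard_ne_zero, hd]
      exact_mod_cast (by omega : d' ≠ 0)
    obtain ⟨⟨i, hi⟩, hzi⟩ := hne
    rcases hab i hzi with rfl | rfl
    · exact Or.inl hi.symm
    · exact Or.inr hi.symm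
  have hsub : (Finset.univ : Finset (Fin k)) ⊆ {c a, c b} := by
    intro j _
    simpa using hex j
  have hcard : k ≤ ({c a, c b} : Finset (Fin k)).card := by
    simpa using Finset.card_le_card hsub
  have h2 : ({c a, c b} : Finset (Fin k)).card ≤ 2 := Finset.card_le_two
  refine ⟨by omega, ?_⟩
  intro heq
  rw [heq] at hcard
  simp at hcard
  omega

/-- An odd cycle of pairs that share a point as in `split_ne` makes the tiling irreducible. -/
theorem not_reducible_of_cycle {ι : Type} {F : ι → Set ℂ} (n : ℕ) (t : ℕ → ι) (z : ℕ → ℂ)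
    (hcyc : t (2 * n + 1) = t 0)
    (hz : ∀ m < 2 * n + 1, (∀ i, z m ∉ frontier (F i)) ∧
      ∀ i, z m ∈ interior (F i) → i = t m ∨ i = t (m + 1)) : ¬ Reducible F := by
  rintro ⟨k, c, hk, h⟩
  have h' : ∀ j : Fin k, ∃ d' : ℕ, 1 ≤ d' ∧ IsMultipleTiling (fun i : {i // c i = j} => F i) d' :=
    fun j => (h j).2
  have hk2 : k = 2 := (split_ne hk h' (hz 0 (by omega)).1 (hz 0 (by omega)).2).1
  subst hk2
  have hne : ∀ m < 2 * n + 1, c (t m) ≠ c (t (m + 1)) := fun m hm =>
    (split_ne hk h' (hz m hm).1 (hz m hm).2).2
  have key : ∀ m ≤ 2 * n + 1, c (t m) = c (t 0) ↔ Even m := by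
    intro m
    induction m with
    | zero => intro _; simp
    | succ m ih =>
      intro hm
      have h1 := hne m (by omega)
      have h2 := ih (by omega)
      rw [Nat.even_add_one, ← h2]
      have gen : ∀ x y w : Fin 2, x ≠ y → (y = w ↔ ¬ x = w) := by decide
      exact gen _ _ _ h1
  have := (key (2 * n + 1) le_rfl).1 (by rw [hcyc])
  exact absurd this (by simp)

/-- A point of the interior can be moved a little in every direction. -/
theorem exists_move {S : Set ℂ} {z : ℂ} (hz : z ∈ interior S) (v : ℂ) : ∃ t : ℝ, 0 < t ∧ z + t * v ∈ S := by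
  rw [mem_interior_iff_mem_nhds] at hz
  have hc : Filter.Tendsto (fun t : ℝ => z + t * v) (nhds 0) (nhds z) := by
    have : Continuous (fun t : ℝ => z + t * v) := by fun_prop
    have := this.tendsto 0
    simpa using this
  have h := hc hz
  obtain ⟨ε, hε, hb⟩ := Metric.mem_nhds_iff.1 h
  refine ⟨ε / 2, by positivity, hb ?_⟩
  rw [Metric.mem_ball, dist_zero_right, Real.norm_of_nonneg (by positivity)]
  linarith

end Pool.Agent.R175.MultiTiling
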