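import Mathlib
import Pool.Agent.R175.Disk
import Pool.Agent.R175.GridPath
import Pool.Agent.R175.GridTile
import Pool.Agent.R175.Poly

/-!
# Polyominoes built by adding cells are disks
-/

set_option autoImplicit false

namespace Pool.Agent.R175.PolyDisk

open Set Pool.Agent.R175.Disk Pool.Agent.R175.Poly
open Pool.Agent.R175.GridPath (Adj)
open Pool.Agent.R175.GridTile (cell)

/-- A closed rectangle with integer corners. -/
def rect (x0 x1 y0 y1 : ℤ) : Set ℂ := Icc (x0 : ℝ) x1 ×ℂ Icc (y0 : ℝ) y1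

theorem mem_rect {x0 x1 y0 y1 : ℤ} {z : ℂ} : z ∈ rect x0 x1 y0 y1 ↔
    ((x0 : ℝ) ≤ z.re ∧ z.re ≤ x1) ∧ ((y0 : ℝ) ≤ z.im ∧ z.im ≤ y1) := by
  rw [rect, Complex.mem_reProdIm]; rfl

theorem rect_convex (x0 x1 y0 y1 : ℤ) : Convex ℝ (rect x0 x1 y0 y1) := by
  intro z hz w hw a b ha hb hab
  rw [rect, Complex.mem_reProdIm] at hz hw ⊢
  have e1 : (a • z + b • w).re = a • z.re + b • w.re := by simp
  have e2 : (a • z + b • w).im = a • z.im + b • w.im := by simp
  rw [e1, e2]
  exact ⟨convex_Icc _ _ hz.1 hw.1 ha hb hab, convex_Icc _ _ hz.2 hw.2 ha hb hab⟩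

theorem rect_compact (x0 x1 y0 y1 : ℤ) : IsCompact (rect x0 x1 y0 y1) :=
  IsCompact.reProdIm isCompact_Icc isCompact_Icc

theorem cell_eq_rect (c : ℤ × ℤ) : cell c = rect c.1 (c.1 + 1) c.2 (c.2 + 1) := by
  ext z; rw [mem_cell, mem_rect]; push_cast; rfl

theorem interior_rect {x0 x1 y0 y1 : ℤ} {z : ℂ} : z ∈ interior (rect x0 x1 y0 y1) ↔
    ((x0 : ℝ) < z.re ∧ z.re < x1) ∧ ((y0 : ℝ) < z.im ∧ z.im < y1) := by
  rw [rect, Complex.interior_reProdIm, interior_Icc, interior_Icc, Complex.mem_reProdIm]; rfl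

theorem cell_compact (c : ℤ × ℤ) : IsCompact (cell c) := by
  rw [cell_eq_rect]; exact rect_compact _ _ _ _

theorem glue_cell {W : Set ℂ} (hW : IsClosed W) (c : ℤ × ℤ) {x0 x1 y0 y1 : ℤ} (hx0 : x0 ≤ c.1)
    (hx1 : c.1 + 1 ≤ x1) (hy0 : y0 ≤ c.2) (hy1 : c.2 + 1 ≤ y1)
    (h : ∀ z ∈ W, z ∈ rect x0 x1 y0 y1 → z ∈ cell c ∧ z ∉ interior (cell c) ∧ z ∉ interior (rect x0 x1 y0 y1))
    (hd : IsDisk (W ∪ cell c)) : IsDisk (W ∪ rect x0 x1 y0 y1) := by
  apply glue hW (rect_convex _ _ _ _) (rect_compact _ _ _ _) (cell_convex c) (cell_compact c) (ctr_mem c) _ _ hd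
  · intro z hz
    rw [mem_cell] at hz
    rw [mem_rect]
    have h1 : (x0 : ℝ) ≤ c.1 := by exact_mod_cast hx0
    have h2 : (c.1 : ℝ) + 1 ≤ x1 := by exact_mod_cast hx1
    have h3 : (y0 : ℝ) ≤ c.2 := by exact_mod_cast hy0
    have h4 : (c.2 : ℝ) + 1 ≤ y1 := by exact_mod_cast hy1
    obtain ⟨⟨a1, a2⟩, a3, a4⟩ := hz
    exact ⟨⟨by linarith, by linarith⟩, by linarith, by linarith⟩
  · intro z hzW hzR
    obtain ⟨h1, h2, h3⟩ := h z hzW hzR
    rw [(rect_compact _ _ _ _).isClosed.frontier_eq, (cell_closed c).frontier_eq]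
    exact ⟨⟨hzR, h3⟩, h1, h2⟩

/-- The cell `d` does not touch the new cell `c'` outside the old cell `c`. -/
def Good (c c' d : ℤ × ℤ) : Prop :=
  (d.1 - c.1) * (c'.1 - c.1) + (d.2 - c.2) * (c'.2 - c.2) ≤ 0 ∨ 2 ≤ d.1 - c'.1 ∨ 2 ≤ c'.1 - d.1 ∨
    2 ≤ d.2 - c'.2 ∨ 2 ≤ c'.2 - d.2

instance (c c' d : ℤ × ℤ) : Decidable (Good c c' d) := by unfold Good; infer_instance
instance (c d : ℤ × ℤ) : Decidable (Adj c d) := by unfold Adj; infer_instance

theorem add_cell {S : Finset (ℤ × ℤ)} {c c' : ℤ × ℤ} (hc : c ∈ S) (hadj : Adj c c')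
    (hgood : ∀ d ∈ S, d ≠ c → Good c c' d) (hd : IsDisk (region S)) : IsDisk (region (insert c' S)) := by
  classical
  have hW : IsClosed (region (S.erase c)) := region_closed _
  have e1 : region S = region (S.erase c) ∪ cell c := by
    ext z
    rw [mem_union, mem_region, mem_region]
    constructor
    · rintro ⟨d, hdS, hz⟩
      by_cases h : d = c
      · right; rw [← h]; exact hz
      · left; exact ⟨d, Finset.mem_erase.2 ⟨h, hdS⟩, hz⟩
    · rintro (⟨d, hdS, hz⟩ | hz)
      · exact ⟨d, Finset.mem_of_mem_erase hdS, hz⟩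
      · exact ⟨c, hc, hz⟩
  have e2 : region (insert c' S) = region (S.erase c) ∪ (cell c ∪ cell c') := by
    ext z
    rw [← union_assoc, ← e1, mem_union, mem_region, mem_region]
    constructor
    · rintro ⟨d, hdS, hz⟩
      rcases Finset.mem_insert.1 hdS with rfl | h
      · right; exact hz
      · left; exact ⟨d, h, hz⟩
    · rintro (⟨d, hdS, hz⟩ | hz)
      · exact ⟨d, Finset.mem_insert_of_mem hdS, hz⟩
      · exact ⟨c', Finset.mem_insert_self _ _, hz⟩
  rw [e1] at hd
  rw [e2]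
  obtain ⟨a, b⟩ := c
  obtain ⟨a', b'⟩ := c'
  simp only [Adj] at hadj
  rcases hadj with ⟨rfl, rfl | rfl⟩ | ⟨rfl, rfl | rfl⟩
  · have hr : cell (a, b) ∪ cell (a, b + 1) = rect a (a + 1) b (b + 2) := by
      ext z
      rw [mem_union, mem_cell, mem_cell, mem_rect]
      push_cast
      constructor
      · rintro (⟨⟨h1, h2⟩, h3, h4⟩ | ⟨⟨h1, h2⟩, h3, h4⟩)
        · exact ⟨⟨by linarith, by linarith⟩, by linarith, by linarith⟩
        · exact ⟨⟨by linarith, by linarith⟩, by linarith, by linarith⟩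
      · rintro ⟨⟨h1, h2⟩, h3, h4⟩
        by_cases h : z.im ≤ b + 1
        · left; exact ⟨⟨by linarith, by linarith⟩, by linarith, by linarith⟩
        · right; exact ⟨⟨by linarith, by linarith⟩, by linarith, by linarith⟩
    rw [hr]
    refine glue_cell hW (a, b) le_rfl le_rfl le_rfl (by dsimp only; omega) ?_ hd
    intro z hz hzR
    obtain ⟨⟨k, l⟩, hdS, hzd⟩ := mem_region.1 hz
    rw [Finset.mem_erase] at hdS
    have hg := hgood _ hdS.2 hdS.1
    have hne : ¬ (k = a ∧ l = b) := fun h => hdS.1 (Prod.ext h.1 h.2)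
    simp only [Good] at hg
    rw [mem_cell] at hzd ⊢
    rw [interior_cell, interior_rect]
    rw [mem_rect] at hzR
    dsimp only at hzd ⊢
    push_cast at hzR ⊢
    obtain ⟨⟨p1, p2⟩, p3, p4⟩ := hzd
    obtain ⟨⟨q1, q2⟩, q3, q4⟩ := hzR
    have m1 : k ≤ a + 1 := by exact_mod_cast (by linarith : (k : ℝ) ≤ a + 1)
    have m2 : a ≤ k + 1 := by exact_mod_cast (by linarith : (a : ℝ) ≤ k + 1)
    have m3 : l ≤ b + 2 := by exact_mod_cast (by linarith : (l : ℝ) ≤ b + 2)
    have m4 : b ≤ l + 1 := by exact_mod_cast (by linarith : (b : ℝ) ≤ l + 1)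
    have hl : l ≤ b := by
      rcases hg with h | h | h | h | h
      · ring_nf at h; omega
      all_goals omega
    have hl' : (l : ℝ) ≤ b := by exact_mod_cast hl
    refine ⟨⟨⟨q1, q2⟩, q3, by linarith⟩, ?_, ?_⟩
    · rintro ⟨⟨r1, r2⟩, r3, r4⟩
      have n1 : k < a + 1 := by exact_mod_cast (by linarith : (k : ℝ) < a + 1)
      have n2 : a < k + 1 := by exact_mod_cast (by linarith : (a : ℝ) < k + 1)
      have n3 : b < l + 1 := by exact_mod_cast (by linarith : (b : ℝ) < l + 1)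
      exact hne ⟨by omega, by omega⟩
    · rintro ⟨⟨r1, r2⟩, r3, r4⟩
      have n1 : k < a + 1 := by exact_mod_cast (by linarith : (k : ℝ) < a + 1)
      have n2 : a < k + 1 := by exact_mod_cast (by linarith : (a : ℝ) < k + 1)
      have n3 : b < l + 1 := by exact_mod_cast (by linarith : (b : ℝ) < l + 1)
      exact hne ⟨by omega, by omega⟩
  · have hr : cell (a, b' + 1) ∪ cell (a, b') = rect a (a + 1) b' (b' + 2) := by
      ext z
      rw [mem_union, mem_cell, mem_cell, mem_rect]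
      push_cast
      constructor
      · rintro (⟨⟨h1, h2⟩, h3, h4⟩ | ⟨⟨h1, h2⟩, h3, h4⟩)
        · exact ⟨⟨by linarith, by linarith⟩, by linarith, by linarith⟩
        · exact ⟨⟨by linarith, by linarith⟩, by linarith, by linarith⟩
      · rintro ⟨⟨h1, h2⟩, h3, h4⟩
        by_cases h : z.im ≤ b' + 1
        · right; exact ⟨⟨by linarith, by linarith⟩, by linarith, by linarith⟩
        · left; exact ⟨⟨by linarith, by linarith⟩, by linarith, by linarith⟩
    rw [hr]
    refine glue_cell hW (a, b' + 1) le_rfl le_rfl (by dsimp only; omega) (by dsimp only; omega) ?_ hd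
    intro z hz hzR
    obtain ⟨⟨k, l⟩, hdS, hzd⟩ := mem_region.1 hz
    rw [Finset.mem_erase] at hdS
    have hg := hgood _ hdS.2 hdS.1
    have hne : ¬ (k = a ∧ l = b' + 1) := fun h => hdS.1 (Prod.ext h.1 h.2)
    simp only [Good] at hg
    rw [mem_cell] at hzd ⊢
    rw [interior_cell, interior_rect]
    rw [mem_rect] at hzR
    dsimp only at hzd ⊢
    push_cast at hzR ⊢
    obtain ⟨⟨p1, p2⟩, p3, p4⟩ := hzd
    obtain ⟨⟨q1, q2⟩, q3, q4⟩ := hzR
    have m1 : k ≤ a + 1 := by exact_mod_cast (by linarith : (k : ℝ) ≤ a + 1)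
    have m2 : a ≤ k + 1 := by exact_mod_cast (by linarith : (a : ℝ) ≤ k + 1)
    have m3 : l ≤ b' + 2 := by exact_mod_cast (by linarith : (l : ℝ) ≤ b' + 2)
    have m4 : b' ≤ l + 1 := by exact_mod_cast (by linarith : (b' : ℝ) ≤ l + 1)
    have hl : b' + 1 ≤ l := by
      rcases hg with h | h | h | h | h
      · ring_nf at h; omega
      all_goals omega
    have hl' : (b' : ℝ) + 1 ≤ l := by exact_mod_cast hl
    refine ⟨⟨⟨q1, q2⟩, by linarith, by linarith⟩, ?_, ?_⟩
    · rintro ⟨⟨r1, r2⟩, r3, r4⟩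
      have n1 : k < a + 1 := by exact_mod_cast (by linarith : (k : ℝ) < a + 1)
      have n2 : a < k + 1 := by exact_mod_cast (by linarith : (a : ℝ) < k + 1)
      have n3 : l < b' + 2 := by exact_mod_cast (by linarith : (l : ℝ) < b' + 2)
      exact hne ⟨by omega, by omega⟩
    · rintro ⟨⟨r1, r2⟩, r3, r4⟩
      have n1 : k < a + 1 := by exact_mod_cast (by linarith : (k : ℝ) < a + 1)
      have n2 : a < k + 1 := by exact_mod_cast (by linarith : (a : ℝ) < k + 1)
      have n3 : l < b' + 2 := by exact_mod_cast (by linarith : (l : ℝ) < b' + 2)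
      exact hne ⟨by omega, by omega⟩
  · have hr : cell (a, b) ∪ cell (a + 1, b) = rect a (a + 2) b (b + 1) := by
      ext z
      rw [mem_union, mem_cell, mem_cell, mem_rect]
      push_cast
      constructor
      · rintro (⟨⟨h1, h2⟩, h3, h4⟩ | ⟨⟨h1, h2⟩, h3, h4⟩)
        · exact ⟨⟨by linarith, by linarith⟩, by linarith, by linarith⟩
        · exact ⟨⟨by linarith, by linarith⟩, by linarith, by linarith⟩
      · rintro ⟨⟨h1, h2⟩, h3, h4⟩
        by_cases h : z.re ≤ a + 1
        · left; exact ⟨⟨by linarith, by linarith⟩, by linarith, by linarith⟩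
        · right; exact ⟨⟨by linarith, by linarith⟩, by linarith, by linarith⟩
    rw [hr]
    refine glue_cell hW (a, b) le_rfl (by dsimp only; omega) le_rfl le_rfl ?_ hd
    intro z hz hzR
    obtain ⟨⟨k, l⟩, hdS, hzd⟩ := mem_region.1 hz
    rw [Finset.mem_erase] at hdS
    have hg := hgood _ hdS.2 hdS.1
    have hne : ¬ (k = a ∧ l = b) := fun h => hdS.1 (Prod.ext h.1 h.2)
    simp only [Good] at hg
    rw [mem_cell] at hzd ⊢
    rw [interior_cell, interior_rect]
    rw [mem_rect] at hzR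
    dsimp only at hzd ⊢
    push_cast at hzR ⊢
    obtain ⟨⟨p1, p2⟩, p3, p4⟩ := hzd
    obtain ⟨⟨q1, q2⟩, q3, q4⟩ := hzR
    have m1 : k ≤ a + 2 := by exact_mod_cast (by linarith : (k : ℝ) ≤ a + 2)
    have m2 : a ≤ k + 1 := by exact_mod_cast (by linarith : (a : ℝ) ≤ k + 1)
    have m3 : l ≤ b + 1 := by exact_mod_cast (by linarith : (l : ℝ) ≤ b + 1)
    have m4 : b ≤ l + 1 := by exact_mod_cast (by linarith : (b : ℝ) ≤ l + 1)
    have hl : k ≤ a := by
      rcases hg with h | h | h | h | h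
      · ring_nf at h; omega
      all_goals omega
    have hl' : (k : ℝ) ≤ a := by exact_mod_cast hl
    refine ⟨⟨⟨q1, by linarith⟩, q3, by linarith⟩, ?_, ?_⟩
    · rintro ⟨⟨r1, r2⟩, r3, r4⟩
      have n1 : l < b + 1 := by exact_mod_cast (by linarith : (l : ℝ) < b + 1)
      have n2 : b < l + 1 := by exact_mod_cast (by linarith : (b : ℝ) < l + 1)
      have n3 : a < k + 1 := by exact_mod_cast (by linarith : (a : ℝ) < k + 1)
      exact hne ⟨by omega, by omega⟩
    · rintro ⟨⟨r1, r2⟩, r3, r4⟩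
      have n1 : l < b + 1 := by exact_mod_cast (by linarith : (l : ℝ) < b + 1)
      have n2 : b < l + 1 := by exact_mod_cast (by linarith : (b : ℝ) < l + 1)
      have n3 : a < k + 1 := by exact_mod_cast (by linarith : (a : ℝ) < k + 1)
      exact hne ⟨by omega, by omega⟩
  · have hr : cell (a' + 1, b) ∪ cell (a', b) = rect a' (a' + 2) b (b + 1) := by
      ext z
      rw [mem_union, mem_cell, mem_cell, mem_rect]
      push_cast
      constructor
      · rintro (⟨⟨h1, h2⟩, h3, h4⟩ | ⟨⟨h1, h2⟩, h3, h4⟩)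
        · exact ⟨⟨by linarith, by linarith⟩, by linarith, by linarith⟩
        · exact ⟨⟨by linarith, by linarith⟩, by linarith, by linarith⟩
      · rintro ⟨⟨h1, h2⟩, h3, h4⟩
        by_cases h : z.re ≤ a' + 1
        · right; exact ⟨⟨by linarith, by linarith⟩, by linarith, by linarith⟩
        · left; exact ⟨⟨by linarith, by linarith⟩, by linarith, by linarith⟩
    rw [hr]
    refine glue_cell hW (a' + 1, b) (by dsimp only; omega) (by dsimp only; omega) le_rfl le_rfl ?_ hd
    intro z hz hzR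
    obtain ⟨⟨k, l⟩, hdS, hzd⟩ := mem_region.1 hz
    rw [Finset.mem_erase] at hdS
    have hg := hgood _ hdS.2 hdS.1
    have hne : ¬ (k = a' + 1 ∧ l = b) := fun h => hdS.1 (Prod.ext h.1 h.2)
    simp only [Good] at hg
    rw [mem_cell] at hzd ⊢
    rw [interior_cell, interior_rect]
    rw [mem_rect] at hzR
    dsimp only at hzd ⊢
    push_cast at hzR ⊢
    obtain ⟨⟨p1, p2⟩, p3, p4⟩ := hzd
    obtain ⟨⟨q1, q2⟩, q3, q4⟩ := hzR
    have m1 : k ≤ a' + 2 := by exact_mod_cast (by linarith : (k : ℝ) ≤ a' + 2)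
    have m2 : a' ≤ k + 1 := by exact_mod_cast (by linarith : (a' : ℝ) ≤ k + 1)
    have m3 : l ≤ b + 1 := by exact_mod_cast (by linarith : (l : ℝ) ≤ b + 1)
    have m4 : b ≤ l + 1 := by exact_mod_cast (by linarith : (b : ℝ) ≤ l + 1)
    have hl : a' + 1 ≤ k := by
      rcases hg with h | h | h | h | h
      · ring_nf at h; omega
      all_goals omega
    have hl' : (a' : ℝ) + 1 ≤ k := by exact_mod_cast hl
    refine ⟨⟨⟨by linarith, by linarith⟩, q3, by linarith⟩, ?_, ?_⟩
    · rintro ⟨⟨r1, r2⟩, r3, r4⟩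
      have n1 : l < b + 1 := by exact_mod_cast (by linarith : (l : ℝ) < b + 1)
      have n2 : b < l + 1 := by exact_mod_cast (by linarith : (b : ℝ) < l + 1)
      have n3 : k < a' + 2 := by exact_mod_cast (by linarith : (k : ℝ) < a' + 2)
      exact hne ⟨by omega, by omega⟩
    · rintro ⟨⟨r1, r2⟩, r3, r4⟩
      have n1 : l < b + 1 := by exact_mod_cast (by linarith : (l : ℝ) < b + 1)
      have n2 : b < l + 1 := by exact_mod_cast (by linarith : (b : ℝ) < l + 1)
      have n3 : k < a' + 2 := by exact_mod_cast (by linarith : (k : ℝ) < a' + 2)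
      exact hne ⟨by omega, by omega⟩

theorem single_disk (c : ℤ × ℤ) : IsDisk (region {c}) := by
  have : region {c} = cell c := by
    ext z; rw [mem_region]; simp
  rw [this]
  exact disk_of_convex (cell_convex c) (cell_compact c) ⟨_, ctr_mem c⟩

/-- A list of cells in which every cell is attached to the next one of the list and touches no other later
cell outside it. -/
def SnakeOK : List (ℤ × ℤ) → Prop
  | [] => False
  | [_] => True
  | c' :: c :: L => Adj c c' ∧ (∀ d ∈ L, Good c c' d) ∧ SnakeOK (c :: L)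

instance : ∀ L : List (ℤ × ℤ), Decidable (SnakeOK L)
  | [] => isFalse (fun h => h)
  | [_] => isTrue trivial
  | c' :: c :: L =>
    have : Decidable (SnakeOK (c :: L)) := instDecidableSnakeOK (c :: L)
    inferInstanceAs (Decidable (Adj c c' ∧ (∀ d ∈ L, Good c c' d) ∧ SnakeOK (c :: L)))

theorem snake_disk (L : List (ℤ × ℤ)) (h : SnakeOK L) : IsDisk (region L.toFinset) := by
  induction L with
  | nil => exact h.elim
  | cons c' L ih =>
    cases L with
    | nil => simpa using single_disk c'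
    | cons c L =>
      obtain ⟨h1, h2, h3⟩ := h
      rw [List.toFinset_cons]
      refine add_cell (c := c) (by simp) h1 ?_ (ih h3)
      intro d hd hdc
      rw [List.mem_toFinset, List.mem_cons] at hd
      rcases hd with rfl | hd
      · exact absurd rfl hdc
      · exact h2 d hd

end Pool.Agent.R175.PolyDisk
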