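import Mathlib
import Pool.Agent.R175.GridPath
import Pool.Agent.R175.GridTile

/-!
# The square spiral through all lattice points
-/

set_option autoImplicit false

namespace Pool.Agent.R175.SquareSpiral

open Set Pool.Agent.R175.GridPath Pool.Agent.R175.GridTile

/-! ### The spiral -/

/-- The successor of a lattice point on the square spiral. -/
def S (p : ℤ × ℤ) : ℤ × ℤ :=
  if p.2 ≤ p.1 ∧ p.1 ≤ -p.2 then (p.1 + 1, p.2)
  else if -p.1 < p.2 ∧ p.2 < p.1 then (p.1, p.2 + 1)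
  else if 1 ≤ p.2 ∧ -p.2 < p.1 then (p.1 - 1, p.2)
  else (p.1, p.2 - 1)

theorem S_bot {x y : ℤ} (h1 : y ≤ x) (h2 : x ≤ -y) : S (x, y) = (x + 1, y) := by
  unfold S; rw [if_pos ⟨h1, h2⟩]

theorem S_right {x y : ℤ} (h1 : -x < y) (h2 : y < x) : S (x, y) = (x, y + 1) := by
  unfold S
  rw [if_neg (by dsimp only; omega), if_pos ⟨h1, h2⟩]

theorem S_top {x y : ℤ} (h0 : 1 ≤ y) (h1 : -y < x) (h2 : x ≤ y) : S (x, y) = (x - 1, y) := by
  unfold S
  rw [if_neg (by dsimp only; omega), if_neg (by dsimp only; omega), if_pos ⟨h0, h1⟩]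

theorem S_left {x y : ℤ} (_h0 : x < 0) (h1 : x < y) (h2 : y ≤ -x) : S (x, y) = (x, y - 1) := by
  unfold S
  rw [if_neg (by dsimp only; omega), if_neg (by dsimp only; omega), if_neg (by dsimp only; omega)]

/-- The four regions. -/
theorem regions (x y : ℤ) : (y ≤ x ∧ x ≤ -y) ∨ (-x < y ∧ y < x) ∨ (1 ≤ y ∧ -y < x ∧ x ≤ y) ∨
    (x < 0 ∧ x < y ∧ y ≤ -x) := by omega

/-- Number of the shell. -/
def rk (p : ℤ × ℤ) : ℕ := max p.1.natAbs p.2.natAbs

/-- Position in the shell. -/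
def pos (p : ℤ × ℤ) : ℕ :=
  if p.2 ≤ p.1 ∧ p.1 ≤ -p.2 then (p.1 - 7 * p.2).toNat
  else if -p.1 < p.2 ∧ p.2 < p.1 then (p.1 + p.2).toNat
  else if 1 ≤ p.2 ∧ -p.2 < p.1 then (3 * p.2 - p.1).toNat
  else (-5 * p.1 - p.2).toNat

theorem spiral : RaySys univ S (0, 0) where
  o_mem := mem_univ _
  maps := fun _ _ => mem_univ _
  inj := by
    rintro ⟨x, y⟩ - ⟨x', y'⟩ - h
    rcases regions x y with h1 | h1 | h1 | h1 <;> rcases regions x' y' with h2 | h2 | h2 | h2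
    · rw [S_bot h1.1 h1.2, S_bot h2.1 h2.2, Prod.mk.injEq] at h
      rw [Prod.mk.injEq]; omega
    · rw [S_bot h1.1 h1.2, S_right h2.1 h2.2, Prod.mk.injEq] at h
      rw [Prod.mk.injEq]; omega
    · rw [S_bot h1.1 h1.2, S_top h2.1 h2.2.1 h2.2.2, Prod.mk.injEq] at h
      rw [Prod.mk.injEq]; omega
    · rw [S_bot h1.1 h1.2, S_left h2.1 h2.2.1 h2.2.2, Prod.mk.injEq] at h
      rw [Prod.mk.injEq]; omega
    · rw [S_right h1.1 h1.2, S_bot h2.1 h2.2, Prod.mk.injEq] at h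
      rw [Prod.mk.injEq]; omega
    · rw [S_right h1.1 h1.2, S_right h2.1 h2.2, Prod.mk.injEq] at h
      rw [Prod.mk.injEq]; omega
    · rw [S_right h1.1 h1.2, S_top h2.1 h2.2.1 h2.2.2, Prod.mk.injEq] at h
      rw [Prod.mk.injEq]; omega
    · rw [S_right h1.1 h1.2, S_left h2.1 h2.2.1 h2.2.2, Prod.mk.injEq] at h
      rw [Prod.mk.injEq]; omega
    · rw [S_top h1.1 h1.2.1 h1.2.2, S_bot h2.1 h2.2, Prod.mk.injEq] at h
      rw [Prod.mk.injEq]; omega
    · rw [S_top h1.1 h1.2.1 h1.2.2, S_right h2.1 h2.2, Prod.mk.injEq] at h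
      rw [Prod.mk.injEq]; omega
    · rw [S_top h1.1 h1.2.1 h1.2.2, S_top h2.1 h2.2.1 h2.2.2, Prod.mk.injEq] at h
      rw [Prod.mk.injEq]; omega
    · rw [S_top h1.1 h1.2.1 h1.2.2, S_left h2.1 h2.2.1 h2.2.2, Prod.mk.injEq] at h
      rw [Prod.mk.injEq]; omega
    · rw [S_left h1.1 h1.2.1 h1.2.2, S_bot h2.1 h2.2, Prod.mk.injEq] at h
      rw [Prod.mk.injEq]; omega
    · rw [S_left h1.1 h1.2.1 h1.2.2, S_right h2.1 h2.2, Prod.mk.injEq] at h
      rw [Prod.mk.injEq]; omega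
    · rw [S_left h1.1 h1.2.1 h1.2.2, S_top h2.1 h2.2.1 h2.2.2, Prod.mk.injEq] at h
      rw [Prod.mk.injEq]; omega
    · rw [S_left h1.1 h1.2.1 h1.2.2, S_left h2.1 h2.2.1 h2.2.2, Prod.mk.injEq] at h
      rw [Prod.mk.injEq]; omega
  no := by
    rintro ⟨x, y⟩ - h
    rcases regions x y with h1 | h1 | h1 | h1
    · rw [S_bot h1.1 h1.2, Prod.mk.injEq] at h; omega
    · rw [S_right h1.1 h1.2, Prod.mk.injEq] at h; omega
    · rw [S_top h1.1 h1.2.1 h1.2.2, Prod.mk.injEq] at h; omega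
    · rw [S_left h1.1 h1.2.1 h1.2.2, Prod.mk.injEq] at h; omega
  adj := by
    rintro ⟨x, y⟩ -
    rcases regions x y with h1 | h1 | h1 | h1
    · rw [S_bot h1.1 h1.2]; simp [Adj]
    · rw [S_right h1.1 h1.2]; simp [Adj]
    · rw [S_top h1.1 h1.2.1 h1.2.2]; simp [Adj]
    · rw [S_left h1.1 h1.2.1 h1.2.2]; simp [Adj]
  reach := by
    apply reach_of_rank rk pos
    rintro ⟨x, y⟩ - hne
    rw [ne_eq, Prod.mk.injEq] at hne
    have hc : (y ≤ x - 1 ∧ x - 1 ≤ -y) ∨ (-x < y - 1 ∧ y - 1 < x) ∨ (1 ≤ y ∧ -y < x + 1 ∧ x + 1 ≤ y) ∨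
        (x < 0 ∧ x < y + 1 ∧ y + 1 ≤ -x) := by omega
    rcases hc with h1 | h1 | h1 | h1
    · refine ⟨(x - 1, y), mem_univ _, ?_, ?_⟩
      · rw [S_bot h1.1 h1.2]; simp
      · simp only [rk, pos]
        split_ifs <;> omega
    · refine ⟨(x, y - 1), mem_univ _, ?_, ?_⟩
      · rw [S_right h1.1 h1.2]; simp
      · simp only [rk, pos]
        split_ifs <;> omega
    · refine ⟨(x + 1, y), mem_univ _, ?_, ?_⟩
      · rw [S_top h1.1 h1.2.1 h1.2.2]; simp
      · simp only [rk, pos]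
        split_ifs <;> omega
    · refine ⟨(x, y + 1), mem_univ _, ?_, ?_⟩
      · rw [S_left h1.1 h1.2.1 h1.2.2]; simp
      · simp only [rk, pos]
        split_ifs <;> omega

/-- The side of the tile `p` that is marked. -/
def sd (p : ℤ × ℤ) : Sd :=
  if p.2 ≤ p.1 ∧ p.1 ≤ -p.2 then Sd.B
  else if -p.1 < p.2 ∧ p.2 < p.1 then Sd.L
  else if 1 ≤ p.2 ∧ -p.2 ≤ p.1 ∧ p.1 < p.2 then Sd.B
  else if p.1 + 1 ≤ p.2 ∧ p.2 ≤ -p.1 - 2 then Sd.R
  else if p.1 = p.2 then Sd.R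
  else Sd.L

/-- The marked side of every tile is an edge of the spiral. -/
theorem sd_edge (p : ℤ × ℤ) : S (e1 p (sd p)) = e2 p (sd p) ∨ S (e2 p (sd p)) = e1 p (sd p) := by
  obtain ⟨x, y⟩ := p
  unfold sd
  dsimp only
  split_ifs with h1 h2 h3 h4 h5
  · left
    exact S_bot h1.1 h1.2
  · right
    exact S_right h2.1 h2.2
  · right
    change S (x + 1, y) = (x, y)
    rw [S_top (by omega) (by omega) (by omega), add_sub_cancel_right]
  · right
    change S (x + 1, y + 1) = (x + 1, y)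
    rw [S_left (by omega) (by omega) (by omega), add_sub_cancel_right]
  · left
    change S (x + 1, y) = (x + 1, y + 1)
    rw [S_right (by omega) (by omega)]
  · left
    change S (x, y + 1) = (x, y)
    rw [S_left (by omega) (by omega) (by omega), add_sub_cancel_right]

/-- Every edge of the spiral is marked. -/
theorem edge_sd (p : ℤ × ℤ) : ∃ q, (e1 q (sd q) = p ∧ e2 q (sd q) = S p) ∨
    (e2 q (sd q) = p ∧ e1 q (sd q) = S p) := by
  obtain ⟨x, y⟩ := p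
  rcases regions x y with h1 | h1 | h1 | h1
  · refine ⟨(x, y), ?_⟩
    have : sd (x, y) = Sd.B := by
      unfold sd; rw [if_pos h1]
    rw [this, S_bot h1.1 h1.2]
    exact Or.inl ⟨rfl, rfl⟩
  · refine ⟨(x, y), ?_⟩
    have : sd (x, y) = Sd.L := by
      unfold sd; rw [if_neg (by dsimp only; omega), if_pos h1]
    rw [this, S_right h1.1 h1.2]
    exact Or.inr ⟨rfl, rfl⟩
  · refine ⟨(x - 1, y), ?_⟩
    have : sd (x - 1, y) = Sd.B := by
      unfold sd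
      rw [if_neg (by dsimp only; omega), if_neg (by dsimp only; omega), if_pos (by dsimp only; omega)]
    rw [this, S_top h1.1 h1.2.1 h1.2.2]
    refine Or.inr ⟨?_, rfl⟩
    simp [e2]
  · refine ⟨(x - 1, y - 1), ?_⟩
    have : sd (x - 1, y - 1) = Sd.R := by
      unfold sd
      rw [if_neg (by dsimp only; omega), if_neg (by dsimp only; omega), if_neg (by dsimp only; omega),
        if_pos (by dsimp only; omega)]
    rw [this, S_left h1.1 h1.2.1 h1.2.2]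
    refine Or.inr ⟨?_, ?_⟩
    · simp [e2]
    · simp [e1]

theorem union_eq : ⋃ p, segment ℝ (pt (e1 p (sd p))) (pt (e2 p (sd p))) =
    ⋃ p ∈ (univ : Set (ℤ × ℤ)), segment ℝ (pt p) (pt (S p)) := by
  ext z
  simp only [mem_iUnion, mem_univ, exists_true_left]
  constructor
  · rintro ⟨p, hp⟩
    rcases sd_edge p with h | h
    · exact ⟨e1 p (sd p), by rw [h]; exact hp⟩
    · exact ⟨e2 p (sd p), by rw [h, segment_symm]; exact hp⟩
  · rintro ⟨p, hp⟩
    obtain ⟨q, ⟨h1, h2⟩ | ⟨h1, h2⟩⟩ := edge_sd p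
    · exact ⟨q, by rw [h1, h2]; exact hp⟩
    · exact ⟨q, by rw [h1, h2, segment_symm]; exact hp⟩


end Pool.Agent.R175.SquareSpiral
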